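import Pool.Agent.J6H23.Bes.Ser

/-!
# The integral `K_0(2 x) = ∫_0^∞ exp(-2 x cosh s) ds`
-/

set_option autoImplicit false

open Filter Topology Set MeasureTheory

namespace Pool.Agent.J6H23.Bes

open Pool.Agent.R352.E (gz dl dl_one EE EE_rel EE_tendsto NN_one zero_of_deriv)

/-- the integrand -/
noncomputable def mj (j : ℕ) (x s : ℝ) : ℝ := Real.cosh s ^ j * Real.exp (-(2 * x * Real.cosh s))

/-- the moments -/
noncomputable def MJ (j : ℕ) (x : ℝ) : ℝ := ∫ s in Ioi (0 : ℝ), mj j x s

lemma mj_pos (j : ℕ) (x s : ℝ) : 0 < mj j x s := mul_pos (pow_pos (Real.cosh_pos s) j) (Real.exp_pos _)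

lemma le_cosh {s : ℝ} (hs : 0 ≤ s) : s ≤ Real.cosh s :=
  (Real.self_le_sinh_iff.2 hs).trans (Real.sinh_lt_cosh s).le

lemma mj_bound (j : ℕ) {c x s : ℝ} (hc : 0 < c) (hx : c ≤ x) (hs : 0 ≤ s) :
    mj j x s ≤ (j.factorial / c ^ j) * Real.exp (-c * s) := by
  have hco := Real.cosh_pos s
  have h1 : Real.exp (-(2 * x * Real.cosh s)) ≤ Real.exp (-(c * Real.cosh s)) * Real.exp (-(c * Real.cosh s)) := by
    rw [← Real.exp_add]
    apply Real.exp_le_exp.2
    nlinarith
  have h2 : Real.cosh s ^ j * Real.exp (-(c * Real.cosh s)) ≤ j.factorial / c ^ j := by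
    rw [Real.exp_neg, ← div_eq_mul_inv, div_le_div_iff₀ (Real.exp_pos _) (by positivity)]
    have h3 := Real.pow_div_factorial_le_exp (x := c * Real.cosh s) (by positivity) j
    rw [div_le_iff₀ (by positivity), mul_pow] at h3
    linarith
  have h4 : Real.exp (-(c * Real.cosh s)) ≤ Real.exp (-c * s) := by
    apply Real.exp_le_exp.2
    have := mul_le_mul_of_nonneg_left (le_cosh hs) hc.le
    linarith
  calc mj j x s ≤ Real.cosh s ^ j * (Real.exp (-(c * Real.cosh s)) * Real.exp (-(c * Real.cosh s))) :=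
        mul_le_mul_of_nonneg_left h1 (by positivity)
    _ = (Real.cosh s ^ j * Real.exp (-(c * Real.cosh s))) * Real.exp (-(c * Real.cosh s)) := by ring
    _ ≤ _ := mul_le_mul h2 h4 (Real.exp_pos _).le (by positivity)

lemma bound_int (j : ℕ) {c : ℝ} (hc : 0 < c) :
    IntegrableOn (fun s : ℝ => (j.factorial / c ^ j : ℝ) * Real.exp (-c * s)) (Ioi 0) :=
  (exp_neg_integrableOn_Ioi 0 hc).const_mul _

lemma mj_cont (j : ℕ) (x : ℝ) : Continuous (mj j x) := by
  unfold mj
  exact (Real.continuous_cosh.pow j).mul (by fun_prop)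

lemma mj_int (j : ℕ) {x : ℝ} (hx : 0 < x) : IntegrableOn (mj j x) (Ioi 0) := by
  refine Integrable.mono' (bound_int j hx) (mj_cont j x).aestronglyMeasurable ?_
  filter_upwards [ae_restrict_mem measurableSet_Ioi] with s hs
  have hs' : (0 : ℝ) < s := hs
  rw [Real.norm_eq_abs, abs_of_pos (mj_pos j x s)]
  exact mj_bound j hx le_rfl hs'.le

lemma MJ_deriv (j : ℕ) {x : ℝ} (hx : 0 < x) : HasDerivAt (MJ j) (-2 * MJ (j + 1) x) x := by
  have hx2 : 0 < x / 2 := by linarith
  have h := hasDerivAt_integral_of_dominated_loc_of_deriv_le (μ := volume.restrict (Ioi (0 : ℝ)))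
    (F := fun x s => mj j x s) (F' := fun x s => -2 * mj (j + 1) x s) (x₀ := x) (s := Ioi (x / 2))
    (bound := fun s => 2 * (((j + 1).factorial / (x / 2) ^ (j + 1) : ℝ) * Real.exp (-(x / 2) * s)))
    (Ioi_mem_nhds (by linarith)) (Eventually.of_forall fun y => (mj_cont j y).aestronglyMeasurable)
    (mj_int j hx) ((mj_cont (j + 1) x).const_mul (-2)).aestronglyMeasurable ?_ ?_ ?_
  · refine h.2.congr_deriv ?_
    rw [integral_const_mul, MJ]
  · filter_upwards [ae_restrict_mem measurableSet_Ioi] with s hs y hy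
    have hs' : (0 : ℝ) < s := hs
    have hy' : x / 2 < y := hy
    rw [norm_mul, Real.norm_eq_abs, Real.norm_eq_abs, abs_of_pos (mj_pos _ y s)]
    have h1 := mj_bound (j + 1) hx2 hy'.le hs'.le
    have : |(-2 : ℝ)| = 2 := by norm_num
    rw [this]
    linarith
  · exact (bound_int (j + 1) hx2).const_mul 2
  · refine Eventually.of_forall fun s y _ => ?_
    have h1 : HasDerivAt (fun y : ℝ => -(2 * y * Real.cosh s)) (-(2 * Real.cosh s)) y := by
      have := (((hasDerivAt_id y).const_mul 2).mul_const (Real.cosh s)).neg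
      refine this.congr_deriv ?_
      ring
    have h2 := (h1.exp).const_mul (Real.cosh s ^ j)
    refine h2.congr_deriv ?_
    rw [mj, pow_succ]
    ring

lemma exp_cosh_tendsto {x : ℝ} (hx : 0 < x) : Tendsto (fun s : ℝ => Real.exp (-(2 * x * Real.cosh s))) atTop (𝓝 0) := by
  refine squeeze_zero' (Eventually.of_forall fun s => (Real.exp_pos _).le) (g := fun s => Real.exp (-(2 * x * s))) ?_ ?_
  · filter_upwards [eventually_ge_atTop (0 : ℝ)] with s hs
    apply Real.exp_le_exp.2
    have := mul_le_mul_of_nonneg_left (le_cosh hs) (by linarith : 0 ≤ 2 * x)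
    linarith
  · refine Real.tendsto_exp_neg_atTop_nhds_zero.comp ?_
    exact tendsto_id.const_mul_atTop (by linarith : 0 < 2 * x)

/-- integration by parts -/
lemma MJ_rel {x : ℝ} (hx : 0 < x) : MJ 1 x = 2 * x * (MJ 2 x - MJ 0 x) := by
  have hderiv : ∀ s ∈ Ici (0 : ℝ), HasDerivAt (fun s => Real.sinh s * Real.exp (-(2 * x * Real.cosh s)))
      (mj 1 x s - 2 * x * (mj 2 x s - mj 0 x s)) s := by
    intro s _
    have h1 : HasDerivAt (fun s : ℝ => -(2 * x * Real.cosh s)) (-(2 * x * Real.sinh s)) s :=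
      ((Real.hasDerivAt_cosh s).const_mul (2 * x)).neg
    have h2 := (Real.hasDerivAt_sinh s).mul h1.exp
    refine h2.congr_deriv ?_
    rw [mj, mj, mj]
    have h3 := Real.cosh_sq s
    linear_combination (2 * x * Real.exp (-(2 * x * Real.cosh s))) * h3
  have hint : IntegrableOn (fun s => mj 1 x s - 2 * x * (mj 2 x s - mj 0 x s)) (Ioi 0) :=
    (mj_int 1 hx).sub (((mj_int 2 hx).sub (mj_int 0 hx)).const_mul (2 * x))
  have hlim : Tendsto (fun s => Real.sinh s * Real.exp (-(2 * x * Real.cosh s))) atTop (𝓝 0) := by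
    refine squeeze_zero' (g := fun s => ((1 : ℕ).factorial / x ^ 1 : ℝ) * Real.exp (-x * s)) ?_ ?_ ?_
    · filter_upwards [eventually_ge_atTop (0 : ℝ)] with s hs
      exact mul_nonneg (Real.sinh_nonneg_iff.2 hs) (Real.exp_pos _).le
    · filter_upwards [eventually_ge_atTop (0 : ℝ)] with s hs
      refine le_trans ?_ (mj_bound 1 hx le_rfl hs)
      rw [mj, pow_one]
      exact mul_le_mul_of_nonneg_right (Real.sinh_lt_cosh s).le (Real.exp_pos _).le
    · have h1 : Tendsto (fun s : ℝ => Real.exp (-x * s)) atTop (𝓝 0) := by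
        have h2 := Real.tendsto_exp_neg_atTop_nhds_zero.comp (tendsto_id.const_mul_atTop hx)
        refine h2.congr fun s => ?_
        simp
      have := h1.const_mul ((1 : ℕ).factorial / x ^ 1 : ℝ)
      rwa [mul_zero] at this
  have h := integral_Ioi_of_hasDerivAt_of_tendsto' hderiv hint hlim
  have hint2 : IntegrableOn (fun s => 2 * x * (mj 2 x s - mj 0 x s)) (Ioi 0) :=
    ((mj_int 2 hx).sub (mj_int 0 hx)).const_mul (2 * x)
  rw [Real.sinh_zero, zero_mul, sub_zero, integral_sub (mj_int 1 hx) hint2, integral_const_mul,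
    integral_sub (mj_int 2 hx) (mj_int 0 hx)] at h
  have h' : MJ 1 x - 2 * x * (MJ 2 x - MJ 0 x) = 0 := h
  linarith

/-- `k = 2 x M_1` -/
noncomputable def kx (x : ℝ) : ℝ := 2 * x * MJ 1 x

lemma M0_deriv {x : ℝ} (hx : 0 < x) : HasDerivAt (MJ 0) (-(kx x) / x) x := by
  refine (MJ_deriv 0 hx).congr_deriv ?_
  rw [kx]
  field_simp

lemma kx_deriv {x : ℝ} (hx : 0 < x) : HasDerivAt kx (-(4 * x * MJ 0 x)) x := by
  have h1 := ((hasDerivAt_id x).const_mul 2).mul (MJ_deriv 1 hx)
  refine h1.congr_deriv ?_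
  have h2 := MJ_rel hx
  simp only [id_eq, mul_one]
  have h3 : MJ (1 + 1) x = MJ 2 x := rfl
  rw [h3]
  linear_combination 2 * h2

lemma kx_lim : Tendsto kx (𝓝[>] 0) (𝓝 1) := by
  have hx1 : ∀ x : ℝ, 0 < x → Real.exp (-(2 * x)) ≤ kx x ∧ kx x ≤ Real.exp (-(2 * x)) + 2 * x := by
    intro x hx
    have hderiv : ∀ s ∈ Ici (0 : ℝ), HasDerivAt (fun s => -Real.exp (-(2 * x * Real.cosh s)))
        (2 * x * (Real.sinh s * Real.exp (-(2 * x * Real.cosh s)))) s := by
      intro s _
      have h1 : HasDerivAt (fun s : ℝ => -(2 * x * Real.cosh s)) (-(2 * x * Real.sinh s)) s :=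
        ((Real.hasDerivAt_cosh s).const_mul (2 * x)).neg
      refine h1.exp.neg.congr_deriv ?_
      ring
    have hsint : IntegrableOn (fun s => Real.sinh s * Real.exp (-(2 * x * Real.cosh s))) (Ioi 0) := by
      refine Integrable.mono' (mj_int 1 hx) ?_ ?_
      · exact (Real.continuous_sinh.mul (by fun_prop)).aestronglyMeasurable
      · filter_upwards [ae_restrict_mem measurableSet_Ioi] with s hs
        have hs' : (0 : ℝ) < s := hs
        rw [norm_mul, Real.norm_eq_abs, Real.norm_eq_abs, abs_of_nonneg (Real.sinh_nonneg_iff.2 hs'.le),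
          abs_of_pos (Real.exp_pos _), mj, pow_one]
        exact mul_le_mul_of_nonneg_right (Real.sinh_lt_cosh s).le (Real.exp_pos _).le
    have hlim : Tendsto (fun s => -Real.exp (-(2 * x * Real.cosh s))) atTop (𝓝 0) := by
      have := (exp_cosh_tendsto hx).neg
      rwa [neg_zero] at this
    have h := integral_Ioi_of_hasDerivAt_of_tendsto' hderiv (hsint.const_mul (2 * x)) hlim
    rw [Real.cosh_zero, mul_one, integral_const_mul, zero_sub, neg_neg] at h
    have hdiff : kx x - Real.exp (-(2 * x)) =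
        2 * x * ∫ s in Ioi (0 : ℝ), Real.exp (-s) * Real.exp (-(2 * x * Real.cosh s)) := by
      rw [← h, kx, MJ, ← mul_sub, ← integral_sub (mj_int 1 hx) hsint]
      congr 1
      refine integral_congr_ae (Eventually.of_forall fun s => ?_)
      simp only [mj, pow_one]
      rw [← Real.cosh_sub_sinh s]
      ring
    have he : IntegrableOn (fun s : ℝ => Real.exp (-s)) (Ioi 0) := integrableOn_exp_neg_Ioi 0
    have hle1 : ∀ s : ℝ, Real.exp (-(2 * x * Real.cosh s)) ≤ 1 := by
      intro s
      rw [Real.exp_le_one_iff]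
      have := mul_pos (mul_pos two_pos hx) (Real.cosh_pos s)
      linarith
    have h3 : 0 ≤ ∫ s in Ioi (0 : ℝ), Real.exp (-s) * Real.exp (-(2 * x * Real.cosh s)) :=
      integral_nonneg fun s => by positivity
    have h4 : ∫ s in Ioi (0 : ℝ), Real.exp (-s) * Real.exp (-(2 * x * Real.cosh s)) ≤ 1 := by
      rw [← integral_exp_neg_Ioi_zero]
      refine integral_mono ?_ he fun s => ?_
      · refine Integrable.mono' he ?_ ?_
        · exact (Continuous.mul (by fun_prop) (by fun_prop)).aestronglyMeasurable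
        · refine Eventually.of_forall fun s => ?_
          rw [norm_mul, Real.norm_eq_abs, Real.norm_eq_abs, abs_of_pos (Real.exp_pos _), abs_of_pos (Real.exp_pos _)]
          exact mul_le_of_le_one_right (Real.exp_pos _).le (hle1 s)
      · exact mul_le_of_le_one_right (Real.exp_pos _).le (hle1 s)
    constructor
    · have := mul_nonneg (by linarith : 0 ≤ 2 * x) h3
      linarith
    · have := mul_le_mul_of_nonneg_left h4 (by linarith : 0 ≤ 2 * x)
      linarith
  have hc : Tendsto (fun x : ℝ => Real.exp (-(2 * x))) (𝓝[>] 0) (𝓝 1) := by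
    have h1 : ContinuousAt (fun x : ℝ => Real.exp (-(2 * x))) 0 := by fun_prop
    have h2 := h1.tendsto
    simp only [mul_zero, neg_zero, Real.exp_zero] at h2
    exact h2.mono_left nhdsWithin_le_nhds
  have hc2 : Tendsto (fun x : ℝ => Real.exp (-(2 * x)) + 2 * x) (𝓝[>] 0) (𝓝 1) := by
    have h1 : ContinuousAt (fun x : ℝ => Real.exp (-(2 * x)) + 2 * x) 0 := by fun_prop
    have h2 := h1.tendsto
    simp only [mul_zero, neg_zero, Real.exp_zero, add_zero] at h2
    exact h2.mono_left nhdsWithin_le_nhds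
  refine tendsto_of_tendsto_of_tendsto_of_le_of_le' hc hc2 ?_ ?_
  · filter_upwards [self_mem_nhdsWithin] with x hx using (hx1 x hx).1
  · filter_upwards [self_mem_nhdsWithin] with x hx using (hx1 x hx).2

/-- the exponential integral in the variable `s` -/
noncomputable def Ex (x : ℝ) : ℝ := ∫ s in Ioi (0 : ℝ), Real.exp (-(x * Real.exp s))

lemma exs_bound {x s : ℝ} (hx : 0 < x) : Real.exp (-(x * Real.exp s)) ≤ Real.exp (-x * s) := by
  apply Real.exp_le_exp.2
  have h1 := Real.add_one_le_exp s
  have := mul_le_mul_of_nonneg_left h1 hx.le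
  linarith

lemma exs_int {x : ℝ} (hx : 0 < x) (a : ℝ) : IntegrableOn (fun s => Real.exp (-(x * Real.exp s))) (Ioi a) := by
  refine Integrable.mono' (exp_neg_integrableOn_Ioi a hx) (by fun_prop) ?_
  refine Eventually.of_forall fun s => ?_
  rw [Real.norm_eq_abs, abs_of_pos (Real.exp_pos _)]
  exact exs_bound hx

lemma Ex_eq {x : ℝ} (hx : 0 < x) : Ex x = Real.exp (-x) * gz x := by
  have h := integral_comp_mul_deriv_Ioi (f := fun s : ℝ => x * (Real.exp s - 1)) (f' := fun s : ℝ => x * Real.exp s)
    (g := fun t : ℝ => Real.exp (-t) / (x + t)) (a := 0) (by fun_prop) ?_ ?_ ?_ ?_ ?_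
  · have e1 : x * (Real.exp 0 - 1) = 0 := by rw [Real.exp_zero]; ring
    simp only [Function.comp_apply] at h
    rw [e1] at h
    rw [gz, ← h, ← integral_const_mul, Ex]
    refine integral_congr_ae (Eventually.of_forall fun s => ?_)
    have h2 : x + x * (Real.exp s - 1) ≠ 0 := by
      have := mul_pos hx (Real.exp_pos s)
      have h3 : x + x * (Real.exp s - 1) = x * Real.exp s := by ring
      rw [h3]; exact this.ne'
    have h4 : Real.exp (-(x * Real.exp s)) = Real.exp (-x) * Real.exp (-(x * (Real.exp s - 1))) := by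
      rw [← Real.exp_add]; congr 1; ring
    simp only
    rw [h4]
    field_simp
    ring
  · refine Tendsto.const_mul_atTop hx ?_
    exact tendsto_atTop_add_const_right _ (-1) Real.tendsto_exp_atTop
  · intro s _
    have := ((Real.hasDerivAt_exp s).sub_const 1).const_mul x
    exact this.hasDerivWithinAt
  · have himg : ∀ t ∈ (fun s : ℝ => x * (Real.exp s - 1)) '' Ioi 0, 0 < t := by
      rintro _ ⟨s, hs, rfl⟩
      have hs' : (0 : ℝ) < s := hs
      exact mul_pos hx (by have := Real.add_one_lt_exp hs'.ne'; linarith)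
    refine ContinuousOn.div (by fun_prop) (by fun_prop) fun t ht => ?_
    have := himg t ht
    positivity
  · have himg : (fun s : ℝ => x * (Real.exp s - 1)) '' Ici 0 ⊆ Ici 0 := by
      rintro _ ⟨s, hs, rfl⟩
      have hs' : (0 : ℝ) ≤ s := hs
      exact mul_nonneg hx.le (by have := Real.add_one_le_exp s; linarith)
    refine IntegrableOn.mono_set ?_ himg
    rw [integrableOn_Ici_iff_integrableOn_Ioi]
    have he : IntegrableOn (fun s : ℝ => Real.exp (-s)) (Ioi 0) := integrableOn_exp_neg_Ioi 0
    refine Integrable.mono' (he.div_const x) ?_ ?_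
    · refine ContinuousOn.aestronglyMeasurable ?_ measurableSet_Ioi
      refine ContinuousOn.div (by fun_prop) (by fun_prop) ?_
      intro s hs
      have hs' : (0 : ℝ) < s := hs
      positivity
    · filter_upwards [ae_restrict_mem measurableSet_Ioi] with s hs
      have hs' : (0 : ℝ) < s := hs
      rw [Real.norm_eq_abs, abs_of_pos (by positivity)]
      exact div_le_div_of_nonneg_left (Real.exp_pos _).le hx (by linarith)
  · rw [integrableOn_Ici_iff_integrableOn_Ioi]
    have h1 := (exs_int hx 0).const_mul (Real.exp x)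
    refine h1.congr (Eventually.of_forall fun s => ?_)
    simp only [Function.comp_apply]
    have h2 : x + x * (Real.exp s - 1) ≠ 0 := by
      have := mul_pos hx (Real.exp_pos s)
      have h3 : x + x * (Real.exp s - 1) = x * Real.exp s := by ring
      rw [h3]; exact this.ne'
    have h4 : Real.exp x * Real.exp (-(x * Real.exp s)) = Real.exp (-(x * (Real.exp s - 1))) := by
      rw [← Real.exp_add]; congr 1; ring
    rw [h4]
    field_simp
    ring

lemma Ex_EE {x : ℝ} (hx : 0 < x) : Ex x = EE 1 x - (Real.eulerMascheroniConstant + Real.log x) := by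
  rw [Ex_eq hx, EE_rel 1 hx, NN_one, dl_one hx]
  norm_num
  ring

lemma M0_Ex {x : ℝ} (hx : 0 < x) : |MJ 0 x - Ex x| ≤ x := by
  have h1 : ∀ s : ℝ, mj 0 x s = Real.exp (-(x * Real.exp s)) * Real.exp (-(x * Real.exp (-s))) := by
    intro s
    rw [mj, pow_zero, one_mul, ← Real.exp_add, Real.cosh_eq]
    congr 1
    ring
  have h2 : MJ 0 x - Ex x = -∫ s in Ioi (0 : ℝ), (Real.exp (-(x * Real.exp s)) - mj 0 x s) := by
    rw [integral_sub (exs_int hx 0) (mj_int 0 hx), MJ, Ex]
    ring
  rw [h2, abs_neg]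
  have he : IntegrableOn (fun s : ℝ => Real.exp (-s)) (Ioi 0) := integrableOn_exp_neg_Ioi 0
  have h3 : ∀ s ∈ Ioi (0 : ℝ), ‖Real.exp (-(x * Real.exp s)) - mj 0 x s‖ ≤ x * Real.exp (-s) := by
    intro s _
    rw [h1]
    have h4 : Real.exp (-(x * Real.exp s)) - Real.exp (-(x * Real.exp s)) * Real.exp (-(x * Real.exp (-s))) =
        Real.exp (-(x * Real.exp s)) * (1 - Real.exp (-(x * Real.exp (-s)))) := by ring
    have h5 : 0 ≤ 1 - Real.exp (-(x * Real.exp (-s))) := by
      have : Real.exp (-(x * Real.exp (-s))) ≤ 1 := by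
        rw [Real.exp_le_one_iff]
        have := mul_pos hx (Real.exp_pos (-s))
        linarith
      linarith
    have h6 : 1 - Real.exp (-(x * Real.exp (-s))) ≤ x * Real.exp (-s) := by
      have := Real.add_one_le_exp (-(x * Real.exp (-s)))
      linarith
    have h7 : Real.exp (-(x * Real.exp s)) ≤ 1 := by
      rw [Real.exp_le_one_iff]
      have := mul_pos hx (Real.exp_pos s)
      linarith
    rw [h4, Real.norm_eq_abs, abs_of_nonneg (mul_nonneg (Real.exp_pos _).le h5)]
    calc _ ≤ 1 * (x * Real.exp (-s)) := mul_le_mul h7 h6 h5 zero_le_one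
      _ = _ := one_mul _
  calc |∫ s in Ioi (0 : ℝ), (Real.exp (-(x * Real.exp s)) - mj 0 x s)| ≤ ∫ s in Ioi (0 : ℝ), x * Real.exp (-s) := by
        rw [← Real.norm_eq_abs]
        refine norm_integral_le_of_norm_le (he.const_mul x) ?_
        filter_upwards [ae_restrict_mem measurableSet_Ioi] with s hs using h3 s hs
    _ = x := by rw [integral_const_mul, integral_exp_neg_Ioi_zero, mul_one]

lemma M0_lim : Tendsto (fun x => MJ 0 x + Real.log x) (𝓝[>] 0) (𝓝 (-Real.eulerMascheroniConstant)) := by
  have h1 : Tendsto (fun x => MJ 0 x - Ex x) (𝓝[>] 0) (𝓝 0) := by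
    refine squeeze_zero_norm' (a := fun x => x) ?_ ?_
    · filter_upwards [self_mem_nhdsWithin] with x hx
      exact M0_Ex hx
    · exact tendsto_id.mono_left nhdsWithin_le_nhds
  have h2 := (h1.add (EE_tendsto 0)).sub_const Real.eulerMascheroniConstant
  rw [add_zero, zero_sub] at h2
  refine h2.congr' ?_
  filter_upwards [self_mem_nhdsWithin] with x hx
  rw [Ex_EE hx]
  ring

/-- **`K_0` in terms of the E-functions** -/
theorem K_eq {x : ℝ} (hx : 0 < x) : MJ 0 x = rh x - (Real.eulerMascheroniConstant + Real.log x) * ra x := by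
  -- the Wronskian
  have hxM : Tendsto (fun x => MJ 0 x * rb x) (𝓝[>] 0) (𝓝 0) := by
    obtain ⟨C, hC⟩ := rb_bound
    have h1 : Tendsto (fun x => (MJ 0 x + Real.log x) * x - Real.log x * x) (𝓝[>] 0) (𝓝 0) := by
      have h2 : Tendsto (fun x : ℝ => x) (𝓝[>] 0) (𝓝 0) := tendsto_id.mono_left nhdsWithin_le_nhds
      have h3 := M0_lim.mul h2
      have h4 : Tendsto (fun x : ℝ => Real.log x * x) (𝓝[>] 0) (𝓝 0) := by
        have := tendsto_log_mul_rpow_nhdsGT_zero (r := 1) one_pos
        simpa using this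
      have h5 := h3.sub h4
      rwa [mul_zero, sub_zero] at h5
    have h6 := (h1.const_mul C)
    rw [mul_zero] at h6
    refine squeeze_zero_norm' ?_ h6
    filter_upwards [self_mem_nhdsWithin, nhdsWithin_le_nhds (Iio_mem_nhds (zero_lt_one' ℝ))] with x hx hx1
    have hx' : (0 : ℝ) < x := hx
    have hx1' : x < 1 := hx1
    have hM0 : 0 ≤ MJ 0 x := integral_nonneg (fun s => (mj_pos 0 x s).le)
    rw [norm_mul, Real.norm_eq_abs, Real.norm_eq_abs, abs_of_nonneg hM0]
    have h7 := hC x hx' hx1'.le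
    calc MJ 0 x * |rb x| ≤ MJ 0 x * (C * x) :=
          mul_le_mul_of_nonneg_left h7 hM0
      _ = C * ((MJ 0 x + Real.log x) * x - Real.log x * x) := by ring
  have hw : ∀ x, 0 < x → MJ 0 x * rb x + kx x * ra x = 1 := by
    intro x hx
    have h := zero_of_deriv (F := fun x => MJ 0 x * rb x + kx x * ra x - 1) (fun y hy => by
      have h1 := (((M0_deriv hy).mul (rb_deriv hy)).add ((kx_deriv hy).mul (ra_deriv hy))).sub_const 1
      refine h1.congr_deriv ?_
      field_simp
      ring) (by
      have := (hxM.add (kx_lim.mul ra_lim)).sub_const 1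
      norm_num at this
      exact this) hx
    linarith
  have hra0 : ∀ x, 0 < x → ra x ≠ 0 := fun x hx => by
    have := ra_ge hx
    linarith
  have hfin := zero_of_deriv (F := fun x => (MJ 0 x - rh x) / ra x + Real.log x + Real.eulerMascheroniConstant)
    (fun y hy => by
      have h0 := hra0 y hy
      have h1 := ((((M0_deriv hy).sub (rh_deriv hy)).div (ra_deriv hy) h0).add
        (Real.hasDerivAt_log hy.ne')).add_const Real.eulerMascheroniConstant
      refine h1.congr_deriv ?_
      have h2 := hw y hy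
      have h3 := rrel hy
      have e : (MJ 0 - rh) y = MJ 0 y - rh y := rfl
      rw [e]
      field_simp
      linear_combination -h2 - h3) (by
      have h1 : Tendsto (fun x => (MJ 0 x + Real.log x - rh x) / ra x + (Real.log x * (ra x - 1)) / ra x +
          Real.eulerMascheroniConstant) (𝓝[>] 0) (𝓝 0) := by
        have h2 : Tendsto (fun x => Real.log x * (ra x - 1)) (𝓝[>] 0) (𝓝 0) := by
          obtain ⟨C, hC⟩ := ra_bound
          have h4 : Tendsto (fun x : ℝ => Real.log x * x) (𝓝[>] 0) (𝓝 0) := by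
            have := tendsto_log_mul_rpow_nhdsGT_zero (r := 1) one_pos
            simpa using this
          have h5 := (h4.norm).mul_const C
          rw [norm_zero, zero_mul] at h5
          refine squeeze_zero_norm' ?_ h5
          filter_upwards [self_mem_nhdsWithin, nhdsWithin_le_nhds (Iio_mem_nhds (zero_lt_one' ℝ))] with x hx hx1
          have hx' : (0 : ℝ) < x := hx
          have hx1' : x < 1 := hx1
          have h6 := hC x hx' hx1'.le
          rw [norm_mul, norm_mul, Real.norm_eq_abs, Real.norm_eq_abs, Real.norm_eq_abs, abs_of_pos hx']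
          calc |Real.log x| * |ra x - 1| ≤ |Real.log x| * (C * x) := mul_le_mul_of_nonneg_left h6 (abs_nonneg _)
            _ = _ := by ring
        have h3 := (((M0_lim.sub rh_lim).div ra_lim one_ne_zero).add (h2.div ra_lim one_ne_zero)).add_const
          Real.eulerMascheroniConstant
        norm_num at h3
        exact h3
      refine h1.congr' ?_
      filter_upwards [self_mem_nhdsWithin] with x hx
      have h0 := hra0 x hx
      field_simp
      ring) hx
  have h0 := hra0 x hx
  field_simp at hfin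
  linear_combination hfin

end Pool.Agent.J6H23.Bes
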