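import Pool.Agent.J6H23.Bes.Meas2
import Pool.Agent.J6H23.Bes.KInt
import Pool.Agent.J6H54.LF.Joint

/-!
# The values: assembly
-/

set_option autoImplicit false

open PowerSeries Filter Topology Set MeasureTheory

namespace Pool.Agent.J6H23.Bes

open Pool.Agent.R352.E Pool.Agent.Y113 Pool.Agent.N743.SS
open Pool.Agent.J6H54.LF (clK mem_clK subset_clK clK_mono clK_le base_mem cl_cl indep_of_span card_le
  of_powK algInd_of_measM Kc Tl W_mem trdeg_ge ratF)
open Pool.Agent.R352.Q (Zk Rk W mem_of_Zk)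
open Pool.Agent.Q163.LE (SimLiouville)

/-- `I_0(2 x)` -/
noncomputable def I0 (x : ℝ) : ℝ := ∑' n : ℕ, x ^ (2 * n) / (n.factorial : ℝ) ^ 2

/-- `I_1(2 x)` -/
noncomputable def I1 (x : ℝ) : ℝ := ∑' n : ℕ, x ^ (2 * n + 1) / ((n.factorial : ℝ) * (n + 1).factorial)

/-- `K_0(2 x)` -/
noncomputable def K0 (x : ℝ) : ℝ := ∫ s in Ioi (0 : ℝ), Real.exp (-(2 * x * Real.cosh s))

lemma ca_one_even (n : ℕ) : ca 1 1 (2 * n) = 1 / (n.factorial : ℚ) ^ 2 := by
  rw [ca_even]
  simp

lemma ra_I0 (x : ℝ) : ra x = I0 x := by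
  have hinj : Function.Injective (fun n : ℕ => 2 * n) := fun a b h => by simpa using h
  rw [ra, sv, I0, ← hinj.tsum_eq (f := fun k : ℕ => ((coeff k (SA 1 1) : ℚ) : ℝ) * x ^ k)]
  · refine tsum_congr fun n => ?_
    rw [SA, coeff_mk, ca_one_even]
    push_cast
    ring
  · intro k hk
    rcases Nat.even_or_odd' k with ⟨n, rfl | rfl⟩
    · exact ⟨n, rfl⟩
    · exfalso
      apply hk
      simp only
      rw [SA, coeff_mk, ca_odd]
      simp

lemma rb_I1 (x : ℝ) : rb x = 2 * x * I1 x := by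
  have hinj : Function.Injective (fun n : ℕ => 2 * n + 2) := fun a b h => by simpa using h
  rw [rb, sv, I1, ← hinj.tsum_eq (f := fun k : ℕ => ((coeff k (SB 1 1) : ℚ) : ℝ) * x ^ k), ← tsum_mul_left]
  · refine tsum_congr fun n => ?_
    have e : 2 * n + 2 = 2 * (n + 1) := by ring
    rw [SB, coeff_D, SA, coeff_mk, e, ca_one_even, Nat.factorial_succ]
    have h1 : (n.factorial : ℝ) ≠ 0 := by positivity
    have h2 : (n : ℝ) + 1 ≠ 0 := by positivity
    push_cast
    field_simp
    ring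
  · intro k hk
    rcases Nat.even_or_odd' k with ⟨n, rfl | rfl⟩
    · rcases n with _ | n
      · exfalso
        apply hk
        simp only
        rw [SB, coeff_D]
        simp
      · exact ⟨n, by ring⟩
    · exfalso
      apply hk
      simp only
      rw [SB, coeff_D, SA, coeff_mk, ca_odd]
      simp

lemma MJ_K0 (x : ℝ) : MJ 0 x = K0 x := by
  rw [MJ, K0]
  refine integral_congr_ae (Eventually.of_forall fun s => ?_)
  simp [mj]

/-- `K_0(2 x) + (γ + log x) I_0(2 x)` is the value of an E-function -/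
lemma rh_eq {x : ℝ} (hx : 0 < x) : rh x = K0 x + (Real.eulerMascheroniConstant + Real.log x) * I0 x := by
  have h := K_eq hx
  rw [MJ_K0, ra_I0] at h
  linarith

lemma I0_ge {x : ℝ} (hx : 0 < x) : 1 ≤ I0 x := by
  rw [← ra_I0]
  exact ra_ge hx

/-! ## The values of the series with common denominator -/

lemma ca_scale (m q k : ℕ) : ca m q k = ca 1 1 k * ((m : ℚ) / q) ^ k := by
  rw [ca, ca]
  split_ifs
  · simp
    ring
  · simp

lemma ev_one (f : ℚ⟦X⟧) : ev 1 f = ∑' k : ℕ, ((coeff k f : ℚ) : ℝ) := by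
  rw [ev]
  simp

lemma ev_SA (m q : ℕ) : ev 1 (SA m q) = ra ((m : ℝ) / q) := by
  rw [ev_one, ra, sv]
  refine tsum_congr fun k => ?_
  rw [SA, SA, coeff_mk, coeff_mk, ca_scale]
  push_cast
  ring

lemma ev_SH (m q : ℕ) : ev 1 (SH m q) = rh ((m : ℝ) / q) := by
  rw [ev_one, rh, sv]
  refine tsum_congr fun k => ?_
  rw [SH, SH, coeff_mk, coeff_mk, ca_scale]
  push_cast
  ring

lemma ev_SB (m q : ℕ) : ev 1 (SB m q) = q * rb ((m : ℝ) / q) := by
  rw [ev_one, rb, sv, ← tsum_mul_left]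
  refine tsum_congr fun k => ?_
  rw [SB, SB, coeff_D, coeff_D, SA, SA, coeff_mk, coeff_mk, ca_scale]
  push_cast
  ring

/-! ## Measure, for a finite family -/

theorem measM_EEB (J k : ℕ) (mm : Fin k → ℕ) (hinj : Function.Injective mm) (hpos : ∀ i, 1 ≤ mm i)
    {q : ℕ} (hq : 1 ≤ q) {m : ℕ} (hm : 1 ≤ m) :
    MeasM (Sum.elim (fun o : Option (Fin J × Fin k) =>
      o.elim (Real.exp (-1 / q)) (fun p => EE (p.1 + 1) ((mm p.2 : ℝ) / q)))
      ![ra ((m : ℝ) / q), q * rb ((m : ℝ) / q), rh ((m : ℝ) / q)]) := by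
  have h1 := measM_bes (real_tw J k mm hinj hpos hq) hm
  let g : Option (Fin J × Fin k) → {i : Sg J k // i ≠ (tw J k mm hinj hpos).z} := fun o =>
    match o with
    | none => ⟨toLex (Sum.inr 0), fun h => by
        have := Sum.inr_injective (toLex.injective h)
        exact absurd this (by decide)⟩
    | some p => ⟨toLex (Sum.inl (toLex (Fin.rev p.1, p.2))), fun h => Sum.inl_ne_inr (toLex.injective h)⟩
  have hg : Function.Injective g := by
    intro o o' h
    rcases o with _ | p <;> rcases o' with _ | p'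
    · rfl
    · exact absurd (toLex.injective (congrArg Subtype.val h)) Sum.inr_ne_inl
    · exact absurd (toLex.injective (congrArg Subtype.val h)) Sum.inl_ne_inr
    · have h2 := toLex.injective (Sum.inl_injective (toLex.injective (congrArg Subtype.val h)))
      have h3 := congrArg Prod.fst h2
      have h4 := congrArg Prod.snd h2
      simp only at h3 h4
      have h5 := Fin.rev_injective h3
      rw [Prod.ext h5 h4]
  have h2 := h1.comp (Sum.map g id) (Function.Injective.sumMap hg Function.injective_id)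
  have e : (Sum.elim (fun o : Option (Fin J × Fin k) =>
      o.elim (Real.exp (-1 / q)) (fun p => EE (p.1 + 1) ((mm p.2 : ℝ) / q)))
      ![ra ((m : ℝ) / q), q * rb ((m : ℝ) / q), rh ((m : ℝ) / q)]) =
      (fun i => vals (tw J k mm hinj hpos) (fT J k mm q) m q (Sum.map g id i)) := by
    funext i
    rcases i with (_ | p) | j
    · show Real.exp (-1 / q) = ev 1 (wS q)
      rw [ev_wS]
    · show EE (p.1 + 1) ((mm p.2 : ℝ) / q) = ev 1 (ES (J - (Fin.rev p.1 : Fin J)) ((mm p.2 : ℚ) / q))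
      rw [ev_ES _ _ _ hq]
      congr 1
      rw [Fin.val_rev]
      have := p.1.2
      omega
    · fin_cases j
      · exact (ev_SA m q).symm
      · exact (ev_SB m q).symm
      · exact (ev_SH m q).symm
  rw [e]
  exact h2

variable {F : Subfield ℝ}

/-- the three Bessel values -/
noncomputable def bv (x : ℝ) : Fin 3 → ℝ := ![I0 x, I1 x, rh x]

lemma EEB_fin (hF : SimLiouville F) (J : ℕ) {k : ℕ} (x : Fin k → ℚ)
    (hinj : Function.Injective x) (hpos : ∀ i, 0 < x i) {x₀ : ℚ} (hx₀ : 0 < x₀) :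
    AlgebraicIndependent F (Sum.elim (fun o : Option (Fin J × Fin k) =>
      o.elim (Real.exp 1) (fun p => EE (p.1 + 1) (x p.2))) (bv x₀)) := by
  set q : ℕ := x₀.den * ∏ i, (x i).den with hqd
  have hq : 1 ≤ q := Nat.one_le_iff_ne_zero.2
    (mul_ne_zero x₀.den_ne_zero (Finset.prod_ne_zero_iff.2 fun i _ => (x i).den_ne_zero))
  have hq' : (q : ℝ) ≠ 0 := by positivity
  have hgen : ∀ z : ℚ, 0 < z → z.den ∣ q → ∃ m : ℕ, 1 ≤ m ∧ (m : ℝ) / q = z := by
    intro z hz hzq
    obtain ⟨c, hc'⟩ := hzq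
    have hnum : 0 < z.num := Rat.num_pos.2 hz
    have hc0 : c ≠ 0 := by
      rintro rfl
      rw [mul_zero] at hc'
      omega
    refine ⟨z.num.toNat * c, ?_, ?_⟩
    · have h1 : 1 ≤ z.num.toNat := by omega
      exact Nat.one_le_iff_ne_zero.2 (Nat.mul_ne_zero (by omega) hc0)
    · have h2 : ((z.num.toNat : ℕ) : ℝ) = (z.num : ℝ) := by
        have : ((z.num.toNat : ℕ) : ℤ) = z.num := Int.toNat_of_nonneg hnum.le
        exact_mod_cast this
      have h3 : (z : ℝ) = (z.num : ℝ) / (z.den : ℝ) := by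
        exact_mod_cast (Rat.num_div_den z).symm
      rw [hc', h3]
      push_cast
      rw [h2]
      have : (z.den : ℝ) ≠ 0 := by exact_mod_cast z.den_ne_zero
      have : (c : ℝ) ≠ 0 := by exact_mod_cast hc0
      field_simp
  have hm : ∀ i, ∃ m : ℕ, 1 ≤ m ∧ (m : ℝ) / q = x i := fun i =>
    hgen _ (hpos i) ((Finset.dvd_prod_of_mem (fun i => (x i).den) (Finset.mem_univ i)).mul_left _)
  choose mm hmm using hm
  obtain ⟨m, hm1, hmx⟩ := hgen x₀ hx₀ (Nat.dvd_mul_right _ _)
  have hinj' : Function.Injective mm := by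
    intro i j hij
    apply hinj
    have h1 := (hmm i).2
    rw [hij, (hmm j).2] at h1
    exact_mod_cast h1.symm
  have h := algInd_of_measM hF (measM_EEB J k mm hinj' (fun i => (hmm i).1) hq hm1)
  have hx₀' : (0 : ℝ) < x₀ := by exact_mod_cast hx₀
  refine indep_of_span h (fun o => ?_) le_rfl
  rcases o with (_ | p) | j
  · simp only [Sum.elim_inl, Option.elim]
    refine of_powK (n := q) (by omega) ?_
    rw [← Real.exp_nat_mul]
    have h1 : (q : ℝ) * (-1 / q) = -1 := by field_simp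
    rw [h1, Real.exp_neg]
    exact (clK F _).inv_mem (subset_clK _ ⟨Sum.inl none, rfl⟩)
  · simp only [Sum.elim_inl, Option.elim]
    rw [(hmm p.2).2]
    exact subset_clK _ ⟨Sum.inl (some p), rfl⟩
  · have e : ∀ j : Fin 3, bv x₀ j ∈ clK F (range (Sum.elim (fun o : Option (Fin J × Fin k) =>
      o.elim (Real.exp 1) (fun p => EE (p.1 + 1) (x p.2))) (bv x₀))) := fun j =>
      subset_clK _ ⟨Sum.inr j, rfl⟩
    rw [hmx]
    fin_cases j
    · simp only [Sum.elim_inr, Fin.zero_eta, Matrix.cons_val_zero]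
      rw [ra_I0]
      exact e 0
    · simp only [Sum.elim_inr, Fin.mk_one, Matrix.cons_val_one, Matrix.cons_val_zero]
      rw [rb_I1]
      exact (clK F _).mul_mem (natCast_mem _ q) ((clK F _).mul_mem ((clK F _).mul_mem (ofNat_mem _ 2) (ratF x₀ _)) (e 1))
    · exact e 2

lemma EEB_Q (hF : SimLiouville F) (J : ℕ) {ι : Type*} [Fintype ι] (x : ι → ℚ)
    (hinj : Function.Injective x) (hpos : ∀ i, 0 < x i) {x₀ : ℚ} (hx₀ : 0 < x₀) :
    AlgebraicIndependent F (Sum.elim (fun o : Option (Fin J × ι) =>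
      o.elim (Real.exp 1) (fun p => EE (p.1 + 1) (x p.2))) (bv x₀)) := by
  let e := Fintype.equivFin ι
  have h := EEB_fin hF J (k := Fintype.card ι) (fun i => x (e.symm i))
    (hinj.comp e.symm.injective) (fun i => hpos _) hx₀
  let f : Option (Fin J × ι) ⊕ Fin 3 → Option (Fin J × Fin (Fintype.card ι)) ⊕ Fin 3 :=
    Sum.map (Option.map fun p => (p.1, e p.2)) id
  have hf : Function.Injective f := by
    refine Function.Injective.sumMap (Option.map_injective ?_) Function.injective_id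
    intro p p' hp
    simp only [Prod.mk.injEq] at hp
    exact Prod.ext hp.1 (e.injective hp.2)
  have h2 := h.comp f hf
  have e2 : (Sum.elim (fun o : Option (Fin J × ι) =>
      o.elim (Real.exp 1) (fun p => EE (p.1 + 1) (x p.2))) (bv x₀)) =
      (Sum.elim (fun o : Option (Fin J × Fin (Fintype.card ι)) =>
      o.elim (Real.exp 1) (fun p => EE (p.1 + 1) (x (e.symm p.2)))) (bv x₀)) ∘ f := by
    funext i
    rcases i with (_ | p) | j <;> simp [f]
  rw [e2]
  exact h2

lemma WB_fin (hF : SimLiouville F) (J : ℕ) {ι : Type*} [Fintype ι] (x : ι → ℚ)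
    (hinj : Function.Injective x) (hpos : ∀ i, 0 < x i) {x₀ : ℚ} (hx₀ : 0 < x₀) :
    AlgebraicIndependent F (Sum.elim (fun o : Option (Fin J × ι) =>
      o.elim (Real.exp 1) (fun p => W p.1 (x p.2))) (bv x₀)) := by
  refine indep_of_span (EEB_Q hF J x hinj hpos hx₀) (fun o => ?_) le_rfl
  have he : Real.exp 1 ∈ clK F (range (Sum.elim (fun o : Option (Fin J × ι) =>
      o.elim (Real.exp 1) (fun p => W p.1 (x p.2))) (bv x₀))) := subset_clK _ ⟨Sum.inl none, rfl⟩
  rcases o with (_ | p) | j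
  · exact he
  · have hJ := p.1.2
    simp only [Sum.elim_inl, Option.elim]
    rw [← cl_cl]
    refine mem_of_Zk (hpos p.2) ?_ ?_ (J := J) (by omega) (fun k hk hk' => ?_) (p.1 + 1) (by omega)
    · rw [cl_cl]
      exact he
    · rw [cl_cl]
      refine subset_clK _ ⟨Sum.inl (some (⟨0, by omega⟩, p.2)), ?_⟩
      simp [W]
    · rw [cl_cl]
      refine subset_clK _ ⟨Sum.inl (some (⟨k - 1, by omega⟩, p.2)), ?_⟩
      simp only [W, Sum.elim_inl]
      rw [if_neg (by omega), Nat.sub_add_cancel (by omega)]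
  · exact subset_clK _ ⟨Sum.inr j, rfl⟩

theorem WB_all (hF : SimLiouville F) {x₀ : ℚ} (hx₀ : 0 < x₀) :
    AlgebraicIndependent F (Sum.elim (fun o : Option (ℕ × {x : ℚ // 0 < x}) =>
      o.elim (Real.exp 1) (fun p => W p.1 (p.2 : ℚ))) (bv x₀)) := by
  classical
  refine algebraicIndependent_of_finite_type fun t ht => ?_
  let s : Finset (ℕ × {x : ℚ // 0 < x}) := ht.toFinset.biUnion fun i =>
    Sum.elim (fun o => o.elim ∅ (fun p => {p})) (fun _ => ∅) i
  have hs : ∀ p : ℕ × {x : ℚ // 0 < x}, Sum.inl (some p) ∈ t → p ∈ s := by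
    intro p hp
    refine Finset.mem_biUnion.2 ⟨Sum.inl (some p), ht.mem_toFinset.2 hp, ?_⟩
    simp
  let J : ℕ := s.sup Prod.fst + 1
  let Y : Finset {x : ℚ // 0 < x} := s.image Prod.snd
  have hJ : ∀ p : ℕ × {x : ℚ // 0 < x}, Sum.inl (some p) ∈ t → p.1 < J := fun p hp =>
    Nat.lt_succ_of_le (Finset.le_sup (f := Prod.fst) (hs p hp))
  have hY : ∀ p : ℕ × {x : ℚ // 0 < x}, Sum.inl (some p) ∈ t → p.2 ∈ Y := fun p hp =>
    Finset.mem_image_of_mem _ (hs p hp)
  have h := WB_fin hF J (ι := Y) (fun x => ((x : {x : ℚ // 0 < x}) : ℚ))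
    (fun a b hab => Subtype.ext (Subtype.ext hab)) (fun x => x.1.2) hx₀
  let f : t → Option (Fin J × Y) ⊕ Fin 3 := fun o =>
    match o with
    | ⟨Sum.inl none, _⟩ => Sum.inl none
    | ⟨Sum.inl (some p), hp⟩ => Sum.inl (some (⟨p.1, hJ p hp⟩, ⟨p.2, hY p hp⟩))
    | ⟨Sum.inr j, _⟩ => Sum.inr j
  have hf : Function.Injective f := by
    rintro ⟨(_ | p) | j, ho⟩ ⟨(_ | p') | j', ho'⟩ hoo
    · rfl
    · exact absurd hoo (by simp [f])
    · exact absurd hoo (by simp [f])
    · exact absurd hoo (by simp [f])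
    · simp only [f, Sum.inl.injEq, Option.some.injEq, Prod.mk.injEq, Fin.mk.injEq, Subtype.mk.injEq] at hoo
      have : p = p' := Prod.ext hoo.1 hoo.2
      subst this
      rfl
    · exact absurd hoo (by simp [f])
    · exact absurd hoo (by simp [f])
    · exact absurd hoo (by simp [f])
    · simp only [f, Sum.inr.injEq] at hoo
      subst hoo
      rfl
  have h2 := h.comp f hf
  have e : (fun i : t => (Sum.elim (fun o : Option (ℕ × {x : ℚ // 0 < x}) =>
      o.elim (Real.exp 1) (fun p => W p.1 (p.2 : ℚ))) (bv x₀)) i.1) =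
      (Sum.elim (fun o : Option (Fin J × Y) =>
      o.elim (Real.exp 1) (fun p => W p.1 (((p.2 : {x : ℚ // 0 < x}) : ℚ) : ℝ))) (bv x₀)) ∘ f := by
    funext i
    obtain ⟨(_ | p) | j, ho⟩ := i <;> simp [f]
  rw [e]
  exact h2

end Pool.Agent.J6H23.Bes
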