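import Pool.Agent.J6H23.Bes.Asm

/-!
# Constants, tails and `K_0(2 x)` over the field generated by `e`, `I_0(2 x)`, `I_1(2 x)`
-/

set_option autoImplicit false

open Set MeasureTheory

namespace Pool.Agent.J6H23.Bes

open Pool.Agent.J6H54.LF (clK mem_clK subset_clK clK_mono clK_le base_mem cl_cl indep_of_span card_le
  Kc Tl W_mem trdeg_ge ratF Mk)
open Pool.Agent.R352.Q (W)
open Pool.Agent.Q163.LE (SimLiouville)

variable {F : Subfield ℝ}

/-- `e`, `I_0(2 x)`, `I_1(2 x)` as a family -/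
noncomputable def bas (x : ℝ) : Fin 3 → ℝ := ![Real.exp 1, I0 x, I1 x]

/-- `e`, `I_0(2 x)`, `I_1(2 x)` -/
def Bx (x : ℝ) : Set ℝ := {Real.exp 1, I0 x, I1 x}

/-- the constants; `none` is the name of `K_0(2 x)` -/
noncomputable def KK (x : ℝ) (o : Option (ℕ × ℚ)) : ℝ :=
  o.elim (Real.eulerMascheroniConstant + Real.log x) fun p => Kc p.1 p.2

/-- the tails -/
noncomputable def TT (x : ℝ) (o : Option (ℕ × ℚ)) : ℝ := o.elim (K0 x) fun p => Tl p.1 p.2

/-- the combinations -/
noncomputable def VV (x : ℝ) (o : Option (ℕ × ℚ)) : ℝ := o.elim (rh x) fun p => W p.1 p.2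

/-- admissible names -/
def Pos (o : Option (ℕ × ℚ)) : Prop := ∀ p, o = some p → 0 < p.2

lemma range_bas (x : ℝ) : range (bas x) = Bx x := by
  ext z
  simp only [mem_range, Bx, mem_insert_iff, mem_singleton_iff]
  constructor
  · rintro ⟨i, rfl⟩
    fin_cases i
    · exact Or.inl rfl
    · exact Or.inr (Or.inl rfl)
    · exact Or.inr (Or.inr rfl)
  · rintro (rfl | rfl | rfl)
    · exact ⟨0, rfl⟩
    · exact ⟨1, rfl⟩
    · exact ⟨2, rfl⟩

lemma Bx_encard (x : ℝ) : (Bx x).encard ≤ 3 := by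
  rw [← range_bas, ← image_univ]
  refine (encard_image_le _ _).trans ?_
  rw [encard_univ, ENat.card_eq_coe_fintype_card, Fintype.card_fin]
  rfl

theorem VV_all (hF : SimLiouville F) {x : ℚ} (hx : 0 < x) :
    AlgebraicIndependent F (Sum.elim (bas x) fun o : {o // Pos o} => VV x o.1) := by
  let f : Fin 3 ⊕ {o // Pos o} → Option (ℕ × {x : ℚ // 0 < x}) ⊕ Fin 3 := fun i =>
    match i with
    | Sum.inl 0 => Sum.inl none
    | Sum.inl 1 => Sum.inr 0
    | Sum.inl 2 => Sum.inr 1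
    | Sum.inr ⟨none, _⟩ => Sum.inr 2
    | Sum.inr ⟨some p, hp⟩ => Sum.inl (some (p.1, ⟨p.2, hp p rfl⟩))
  have hf : Function.Injective f := by
    rintro (i | ⟨_ | p, hp⟩) (j | ⟨_ | p', hp'⟩) h
    · fin_cases i <;> fin_cases j <;> simp_all [f]
    · fin_cases i <;> simp [f] at h
    · fin_cases i <;> simp [f] at h
    · fin_cases j <;> simp [f] at h
    · rfl
    · simp [f] at h
    · fin_cases j <;> simp [f] at h
    · simp [f] at h
    · simp only [f, Sum.inl.injEq, Option.some.injEq, Prod.mk.injEq, Subtype.mk.injEq] at h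
      have : p = p' := Prod.ext h.1 h.2
      subst this
      rfl
  have h2 := (WB_all hF hx).comp f hf
  have e : (Sum.elim (bas x) fun o : {o // Pos o} => VV x o.1) =
      (Sum.elim (fun o : Option (ℕ × {x : ℚ // 0 < x}) =>
      o.elim (Real.exp 1) (fun p => W p.1 (p.2 : ℚ))) (bv x)) ∘ f := by
    funext i
    rcases i with i | ⟨_ | p, hp⟩
    · fin_cases i <;> rfl
    · rfl
    · rfl
  rw [e]
  exact h2

lemma VV_mem {x : ℚ} (hx : 0 < x) {S : Set ℝ} (hB : Bx x ⊆ clK F S) {o : Option (ℕ × ℚ)} (ho : Pos o)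
    (h1 : KK x o ∈ clK F S) (h2 : TT x o ∈ clK F S) : VV x o ∈ clK F S := by
  have hx' : (0 : ℝ) < x := by exact_mod_cast hx
  rcases o with _ | p
  · have h3 : I0 x ∈ clK F S := hB (Or.inr (Or.inl rfl))
    change rh x ∈ clK F S
    rw [rh_eq hx']
    exact (clK F S).add_mem h2 ((clK F S).mul_mem h1 h3)
  · exact W_mem (hB (Or.inl rfl)) (ho p rfl) h1 h2

/-- counting -/
lemma count_set {ι κ : Type*} [Fintype ι] [Fintype κ] {x : ι → ℝ} (hx : AlgebraicIndependent F x)
    {y : κ → ℝ} {A : Set ℝ} {c : ℕ} (hA : A.encard ≤ c) (S : Finset κ) (hS : ∀ k ∈ S, y k ∈ clK F A)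
    (h : ∀ i, x i ∈ clK F (A ∪ range y)) : Fintype.card ι + S.card ≤ c + Fintype.card κ := by
  classical
  have h1 : clK F (A ∪ range y) ≤ clK F (A ∪ y '' (Sᶜ : Finset κ)) := by
    refine clK_le ?_
    rintro z (hz | ⟨k, rfl⟩)
    · exact subset_clK _ (Or.inl hz)
    · by_cases hk : k ∈ S
      · exact clK_mono subset_union_left (hS k hk)
      · refine subset_clK _ (Or.inr ⟨k, ?_, rfl⟩)
        simpa using hk
  have h2 := card_le hx (fun i => h1 (h i))
  have h3 : (A ∪ y '' (Sᶜ : Finset κ) : Set ℝ).encard ≤ ((c + (Sᶜ : Finset κ).card : ℕ) : ℕ∞) := by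
    refine (encard_union_le _ _).trans ?_
    have e : (((Sᶜ : Finset κ) : Set κ)).encard = ((Sᶜ : Finset κ).card : ℕ∞) :=
      encard_coe_eq_coe_finsetCard _
    rw [Nat.cast_add, ← e]
    exact add_le_add hA (encard_image_le _ _)
  have h4 : (Fintype.card ι : ℕ∞) ≤ ((c + (Sᶜ : Finset κ).card : ℕ) : ℕ∞) :=
    h2.trans ((Matroid.eRk_le_encard _ _).trans h3)
  have h5 : Fintype.card ι ≤ c + (Sᶜ : Finset κ).card := by exact_mod_cast h4
  rw [Finset.card_compl] at h5
  have h6 := Finset.card_le_univ S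
  omega

lemma VV_sub (hF : SimLiouville F) {x : ℚ} (hx : 0 < x) (S : Finset (Option (ℕ × ℚ)))
    (hS : ∀ o ∈ S, Pos o) : AlgebraicIndependent F (Sum.elim (bas x) fun o : S => VV x o.1) := by
  let f : Fin 3 ⊕ S → Fin 3 ⊕ {o // Pos o} := Sum.map id fun o => ⟨o.1, hS o.1 o.2⟩
  have hf : Function.Injective f := by
    refine Function.Injective.sumMap Function.injective_id ?_
    intro a b h
    simp only [Subtype.mk.injEq] at h
    exact Subtype.ext h
  have h2 := (VV_all hF hx).comp f hf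
  have e : (Sum.elim (bas x) fun o : S => VV x o.1) =
      (Sum.elim (bas x) fun o : {o // Pos o} => VV x o.1) ∘ f := by
    funext i
    rcases i with i | i <;> rfl
  rw [e]
  exact h2

/-- **Counting**: constants and tails -/
theorem count_tt (hF : SimLiouville F) {x : ℚ} (hx : 0 < x) {r : ℕ} (y : Fin r → ℝ)
    (t : Finset (Fin r ⊕ Option (ℕ × ℚ)))
    (ht : ∀ i ∈ t, Sum.elim y (TT x) i ∈ clK F (Bx x))
    (ht' : ∀ o : Option (ℕ × ℚ), Sum.inr o ∈ t → Pos o ∧ KK x o ∈ clK F (Bx x ∪ range y)) :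
    t.card ≤ r := by
  classical
  let S : Finset (Option (ℕ × ℚ)) := t.biUnion fun i => Sum.elim (fun _ => ∅) (fun p => {p}) i
  have hSm : ∀ o : Option (ℕ × ℚ), Sum.inr o ∈ t → o ∈ S := fun o ho => Finset.mem_biUnion.2 ⟨_, ho, by simp⟩
  have hSm' : ∀ o ∈ S, Sum.inr o ∈ t := by
    intro o ho
    obtain ⟨i, hi, hxi⟩ := Finset.mem_biUnion.1 ho
    rcases i with i | q
    · simp at hxi
    · simp at hxi
      subst hxi
      exact hi
  have hAI := VV_sub hF hx S (fun o ho => (ht' o (hSm' o ho)).1)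
  let emb : Fin r ⊕ S → Fin r ⊕ Option (ℕ × ℚ) := Sum.map id Subtype.val
  have hemb : Function.Injective emb := Function.Injective.sumMap Function.injective_id Subtype.val_injective
  let S' : Finset (Fin r ⊕ S) := t.preimage emb hemb.injOn
  have hS'card : S'.card = t.card := by
    rw [Finset.card_preimage, Finset.filter_true_of_mem]
    intro i hi
    rcases i with i | p
    · exact ⟨Sum.inl i, rfl⟩
    · exact ⟨Sum.inr ⟨p, hSm p hi⟩, rfl⟩
  have key := count_set hAI (y := fun k => Sum.elim y (TT x) (emb k))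
    (A := Bx x) (c := 3) (Bx_encard x) S' (fun k hk => ht _ (Finset.mem_preimage.1 hk)) ?_
  · simp only [Fintype.card_fin, Fintype.card_coe, Fintype.card_sum, hS'card] at key
    omega
  · intro i
    have hB : Bx x ⊆ clK F (Bx x ∪ range fun k => Sum.elim y (TT x) (emb k)) := fun z hz =>
      subset_clK _ (Or.inl hz)
    rcases i with i | o
    · exact hB (by rw [← range_bas]; exact ⟨i, rfl⟩)
    · refine VV_mem hx hB (ht' o.1 (hSm' o.1 o.2)).1 (clK_mono ?_ (ht' o.1 (hSm' o.1 o.2)).2)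
        (subset_clK _ (Or.inr ⟨Sum.inr o, rfl⟩))
      refine union_subset_union_right _ ?_
      rintro _ ⟨i, rfl⟩
      exact ⟨Sum.inl i, rfl⟩

/-- a lower bound for the transcendence degree -/
theorem trdeg_tt (hF : SimLiouville F) {x : ℚ} (hx : 0 < x) {r : ℕ} (y : Fin r → ℝ)
    (S : Finset (Option (ℕ × ℚ))) (hS : ∀ o ∈ S, Pos o ∧ KK x o ∈ clK F (Bx x ∪ range y)) :
    ((S.card + 3 : ℕ) : Cardinal) ≤ Algebra.trdeg F (IntermediateField.adjoin F
      (Bx x ∪ range y ∪ TT x '' (S : Set (Option (ℕ × ℚ))))) := by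
  have h := VV_sub hF hx S (fun p hp => (hS p hp).1)
  have h2 := trdeg_ge h (A := Bx x ∪ range y ∪ TT x '' (S : Set (Option (ℕ × ℚ)))) ?_
  · refine le_trans (le_of_eq ?_) h2
    simp
    rw [add_comm]
  · intro i
    have hB : Bx x ⊆ clK F (Bx x ∪ range y ∪ TT x '' (S : Set (Option (ℕ × ℚ)))) := fun z hz =>
      subset_clK _ (Or.inl (Or.inl hz))
    rcases i with i | o
    · exact hB (by rw [← range_bas]; exact ⟨i, rfl⟩)
    · exact VV_mem hx hB (hS o.1 o.2).1 (clK_mono subset_union_left (hS o.1 o.2).2)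
        (subset_clK _ (Or.inr ⟨o.1, o.2, rfl⟩))

/-- **Independence of constants** whose tails are algebraic over `F(e, I_0(2 x), I_1(2 x))` -/
theorem indep_kk (hF : SimLiouville F) {x : ℚ} (hx : 0 < x) {ι : Type*} (p : ι → Option (ℕ × ℚ))
    (hp : Function.Injective p) (hpos : ∀ i, Pos (p i)) (hT : ∀ i, TT x (p i) ∈ clK F (Bx x))
    (z : ι → ℝ) (hz : ∀ i, KK x (p i) ∈ clK F (Bx x ∪ {z i})) :
    AlgebraicIndependent F (Sum.elim (bas x) z) := by
  classical
  refine algebraicIndependent_of_finite_type fun t ht => ?_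
  let A : Set (Fin 3 ⊕ ι) := range Sum.inl ∪ t
  have hA : A.Finite := (finite_range _).union ht
  have := hA.fintype
  have key : AlgebraicIndependent F (fun o : A => Sum.elim (bas x) z (o : Fin 3 ⊕ ι)) := by
    let f : A → Fin 3 ⊕ {o // Pos o} := fun o => Sum.map id (fun i => ⟨p i, hpos i⟩) (o : Fin 3 ⊕ ι)
    have hf : Function.Injective f := by
      intro o o' hoo
      refine Subtype.ext (Function.Injective.sumMap Function.injective_id ?_ hoo)
      intro a b hab
      simp only [Subtype.mk.injEq] at hab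
      exact hp hab
    refine indep_of_span ((VV_all hF hx).comp f hf) (fun o => ?_) le_rfl
    have hB : Bx x ⊆ clK F (range fun o : A => Sum.elim (bas x) z (o : Fin 3 ⊕ ι)) := by
      intro w hw
      rw [← range_bas] at hw
      obtain ⟨i, rfl⟩ := hw
      exact subset_clK _ ⟨⟨Sum.inl i, Or.inl ⟨i, rfl⟩⟩, rfl⟩
    obtain ⟨o, ho⟩ := o
    rcases o with i | i
    · exact hB (by rw [← range_bas]; exact ⟨i, rfl⟩)
    · change VV x (p i) ∈ _
      refine VV_mem hx hB (hpos i) (clK_le ?_ (hz i)) (clK_le hB (hT i))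
      rintro w (hw | rfl)
      · exact hB hw
      · exact subset_clK _ ⟨⟨Sum.inr i, ho⟩, rfl⟩
  have h2 := key.comp (fun o : t => (⟨o.1, Or.inr o.2⟩ : A)) (by
    intro a b hab
    have := congrArg Subtype.val hab
    exact Subtype.ext this)
  exact h2

end Pool.Agent.J6H23.Bes
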