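import Mathlib

/-!
# Derivations on polynomials, and Riccati equations

`K` and `L` are fields with derivations `δ`, `θ` and `L` is an extension of `K`. We study elements
`u`, `A`, `h` of `L` with `θ u = κ - u ^ 2`, `θ A = u A`, `θ h = r (1 - A ^ (-2))`.
-/

set_option autoImplicit false

open Polynomial

namespace Pool.Agent.J6H23.Bes

section Poly

variable {K : Type*} [Field K]

/-- the derivation on the coefficients -/
noncomputable def mc (δ : Derivation ℤ K K) : Derivation ℤ K[X] K[X] :=
  letI : Differential K := ⟨δ⟩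
  Differential.mapCoeffs

lemma coeff_mc (δ : Derivation ℤ K K) (p : K[X]) (i : ℕ) : (mc δ p).coeff i = δ (p.coeff i) := rfl

/-- the derivation with `X ↦ g` -/
noncomputable def dv (δ : Derivation ℤ K K) (g p : K[X]) : K[X] := mc δ p + g * derivative p

lemma dv_add (δ : Derivation ℤ K K) (g p r : K[X]) : dv δ g (p + r) = dv δ g p + dv δ g r := by
  simp only [dv, map_add]; ring

lemma dv_mul (δ : Derivation ℤ K K) (g p r : K[X]) :
    dv δ g (p * r) = dv δ g p * r + p * dv δ g r := by
  simp only [dv, Derivation.leibniz, derivative_mul, smul_eq_mul]; ring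

lemma dv_C (δ : Derivation ℤ K K) (g : K[X]) (a : K) : dv δ g (C a) = C (δ a) := by
  ext i
  simp only [dv, derivative_C, mul_zero, add_zero, coeff_mc, coeff_C]
  split_ifs <;> simp

lemma dv_X (δ : Derivation ℤ K K) (g : K[X]) : dv δ g X = g := by
  have h : mc δ (X : K[X]) = 0 := by
    ext i
    simp only [coeff_mc, coeff_X, coeff_zero]
    split_ifs <;> simp
  rw [dv, h, derivative_X]; ring

/-- two additive maps with the Leibniz rule on polynomials are equal if they agree on constants and `X` -/
lemma leib_ext {R : Type*} [CommRing R] (ι : K[X] →+* R) (d e : K[X] → R)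
    (hd1 : ∀ p r, d (p + r) = d p + d r) (he1 : ∀ p r, e (p + r) = e p + e r)
    (hd2 : ∀ p r, d (p * r) = d p * ι r + ι p * d r) (he2 : ∀ p r, e (p * r) = e p * ι r + ι p * e r)
    (hC : ∀ a, d (C a) = e (C a)) (hX : d X = e X) (p : K[X]) : d p = e p := by
  induction p using Polynomial.induction_on with
  | C a => exact hC a
  | add p r hp hr => rw [hd1, he1, hp, hr]
  | monomial n a h =>
    rw [pow_succ, ← mul_assoc, hd2, he2, h, hX]

end Poly

section Ext

variable {K L : Type*} [Field K] [Field L] [Algebra K L] {δ : Derivation ℤ K K} {θ : Derivation ℤ L L}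

/-- `θ` extends `δ` -/
def Com (δ : Derivation ℤ K K) (θ : Derivation ℤ L L) : Prop :=
  ∀ a : K, θ (algebraMap K L a) = algebraMap K L (δ a)

lemma ev_dv (h : Com δ θ) {g : K[X]} {u : L} (hu : θ u = aeval u g) (p : K[X]) :
    θ (aeval u p) = aeval u (dv δ g p) := by
  refine leib_ext (aeval u : K[X] →ₐ[K] L).toRingHom (fun p => θ (aeval u p)) (fun p => aeval u (dv δ g p))
    (fun p r => by simp) (fun p r => by simp [dv_add]) (fun p r => ?_) (fun p r => ?_) (fun a => ?_) ?_ p
  · simp only [map_mul, Derivation.leibniz, smul_eq_mul]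
    simp only [AlgHom.toRingHom_eq_coe, RingHom.coe_coe]
    ring
  · simp only [dv_mul, map_add, map_mul]
    simp only [AlgHom.toRingHom_eq_coe, RingHom.coe_coe]
  · simp only [dv_C, aeval_C, h a]
  · simp only [dv_X, aeval_X, hu]

lemma coeff_dv (δ : Derivation ℤ K K) (κ : K) (p : K[X]) (i : ℕ) :
    (dv δ (C κ - X ^ 2) p).coeff i =
      δ (p.coeff i) + κ * ((i + 1 : ℕ) * p.coeff (i + 1)) - ((i : K) - 1) * (if i = 0 then 0 else p.coeff (i - 1)) := by
  rw [dv, coeff_add, coeff_mc, sub_mul, coeff_sub, coeff_C_mul, coeff_derivative]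
  rcases i with _ | _ | i
  · have : (X ^ 2 * derivative p).coeff 0 = 0 := by simp
    rw [this]; simp
  · have : (X ^ 2 * derivative p).coeff 1 = 0 := by
      rw [coeff_X_pow_mul']; simp
    rw [this]
    push_cast; simp
    left; ring
  · have : (X ^ 2 * derivative p).coeff (i + 1 + 1) = p.coeff (i + 1) * ((i : K) + 1) := by
      rw [coeff_X_pow_mul', if_pos (by omega)]
      have : i + 1 + 1 - 2 = i := by omega
      rw [this, coeff_derivative]
    rw [this, if_neg (by omega)]
    have : i + 1 + 1 - 1 = i + 1 := by omega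
    rw [this]
    push_cast
    ring

lemma natDegree_dv_le (δ : Derivation ℤ K K) (κ : K) (p : K[X]) :
    (dv δ (C κ - X ^ 2) p).natDegree ≤ p.natDegree + 1 := by
  rw [natDegree_le_iff_coeff_eq_zero]
  intro i hi
  rw [coeff_dv, coeff_eq_zero_of_natDegree_lt (by omega), coeff_eq_zero_of_natDegree_lt (by omega),
    if_neg (by omega), coeff_eq_zero_of_natDegree_lt (by omega)]
  simp

lemma translate (h : Com δ θ) {κ : K} {u : L} (hu : θ u = algebraMap K L κ - u ^ 2) (p : K[X]) :
    dv θ (-X ^ 2 - C (2 * u) * X) ((p.map (algebraMap K L)).comp (X + C u)) =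
      ((dv δ (C κ - X ^ 2) p).map (algebraMap K L)).comp (X + C u) := by
  let ι : K[X] →+* L[X] := (compRingHom (X + C u)).comp (mapRingHom (algebraMap K L))
  have hι : ∀ p : K[X], ι p = (p.map (algebraMap K L)).comp (X + C u) := fun p => rfl
  refine leib_ext ι (fun p => dv θ (-X ^ 2 - C (2 * u) * X) ((p.map (algebraMap K L)).comp (X + C u)))
    (fun p => ((dv δ (C κ - X ^ 2) p).map (algebraMap K L)).comp (X + C u))
    (fun p r => ?_) (fun p r => ?_) (fun p r => ?_) (fun p r => ?_) (fun a => ?_) ?_ p
  · simp only [Polynomial.map_add, add_comp, dv_add]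
  · simp only [Polynomial.map_add, add_comp, dv_add]
  · simp only [Polynomial.map_mul, mul_comp, dv_mul, hι]
  · simp only [Polynomial.map_mul, mul_comp, dv_mul, hι, Polynomial.map_add, add_comp]
  · simp only [map_C, C_comp, dv_C, h a]
  · simp only [map_X, X_comp, dv_X, dv_add, dv_C, hu, Polynomial.map_sub, Polynomial.map_pow, map_C,
      sub_comp, pow_comp, C_comp, C_sub, C_pow, C_mul]
    have : (C (2 : L) : L[X]) = 2 := rfl
    rw [this]
    ring

/-- **Darboux polynomials of the Riccati equation** -/
theorem darboux [CharZero K] (h : Com δ θ) {κ : K} {u A : L} (hu : θ u = algebraMap K L κ - u ^ 2)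
    (hA : θ A = u * A) (hA0 : A ≠ 0) (p1 : ∀ (φ : L) (n : ℕ), n ≠ 0 → θ φ ≠ n * A⁻¹ ^ 2)
    {p r : K[X]} (hp : dv δ (C κ - X ^ 2) p = r * p) (hm : p.natDegree ≠ 0) :
    u ∈ Set.range (algebraMap K L) := by
  have : CharZero L := charZero_of_injective_algebraMap (algebraMap K L).injective
  set m := p.natDegree with hmd
  have hp0 : p ≠ 0 := by rintro rfl; simp at hmd; exact hm hmd
  have hlc : p.coeff m ≠ 0 := by rw [hmd]; exact leadingCoeff_ne_zero.2 hp0
  -- the degree of `r`
  have hr1 : r.natDegree ≤ 1 := by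
    by_cases hr0 : r = 0
    · rw [hr0]; simp
    · have h1 := natDegree_dv_le δ κ p
      rw [hp, natDegree_mul hr0 hp0] at h1
      omega
  have hr : r = C (r.coeff 0) + C (r.coeff 1) * X := by
    ext i
    rcases i with _ | _ | i
    · simp
    · simp [coeff_X]
    · rw [coeff_eq_zero_of_natDegree_lt (by omega)]
      simp [coeff_C, coeff_X]
  have hr11 : r.coeff 1 = -(m : K) := by
    have h1 := coeff_dv δ κ p (m + 1)
    rw [coeff_eq_zero_of_natDegree_lt (p := p) (n := m + 1) (by omega),
      coeff_eq_zero_of_natDegree_lt (p := p) (n := m + 1 + 1) (by omega),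
      if_neg (by omega), Nat.add_sub_cancel, hp, hr, add_mul, coeff_add, coeff_C_mul, mul_assoc, coeff_C_mul,
      coeff_X_mul, coeff_eq_zero_of_natDegree_lt (p := p) (n := m + 1) (by omega)] at h1
    push_cast at h1
    simp only [map_zero, mul_zero, zero_add, add_zero, zero_sub] at h1
    have h2 : r.coeff 1 * p.coeff m = -(m : K) * p.coeff m := by rw [h1]; ring
    exact mul_right_cancel₀ hlc h2
  -- translation
  set g : L[X] := (p.map (algebraMap K L)).comp (X + C u) with hg
  obtain ⟨s, hs⟩ : ∃ s, s = algebraMap K L (r.coeff 0) - m * u := ⟨_, rfl⟩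
  have hgdeg : g.natDegree = m := by
    rw [hg, natDegree_comp, natDegree_map, natDegree_X_add_C, mul_one]
  have hdv : dv θ (-X ^ 2 - C (2 * u) * X) g = (C s - C (m : L) * X) * g := by
    rw [hg, translate h hu, hp, Polynomial.map_mul, mul_comp]
    congr 1
    rw [hr, hr11]
    simp only [Polynomial.map_add, map_C, Polynomial.map_mul, map_X, add_comp, C_comp, mul_comp, X_comp, hs,
      map_neg, map_natCast, C_sub, C_mul, Polynomial.map_neg, Polynomial.map_natCast, neg_comp, natCast_comp]
    ring
  have hrec : ∀ i, θ (g.coeff i) - 2 * u * i * g.coeff i - ((i : L) - 1) * (if i = 0 then 0 else g.coeff (i - 1)) =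
      s * g.coeff i - m * (if i = 0 then 0 else g.coeff (i - 1)) := by
    intro i
    have h1 := congrArg (fun f : L[X] => f.coeff i) hdv
    rw [dv, coeff_add, coeff_mc, sub_mul, sub_mul, coeff_sub, coeff_sub, coeff_C_mul, mul_assoc, mul_assoc,
      coeff_C_mul, coeff_C_mul, neg_mul, coeff_neg] at h1
    rcases i with _ | _ | i
    · have e1 : (X ^ 2 * derivative g).coeff 0 = 0 := by simp
      have e2 : (X * derivative g).coeff 0 = 0 := by simp
      have e3 : (X * g).coeff 0 = 0 := by simp
      rw [e1, e2, e3] at h1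
      simp only [if_true, mul_zero, sub_zero, Nat.cast_zero, zero_mul]
      linear_combination h1
    · have e1 : (X ^ 2 * derivative g).coeff 1 = 0 := by
        rw [coeff_X_pow_mul']; simp
      rw [e1, coeff_X_mul, coeff_X_mul, coeff_derivative] at h1
      rw [if_neg (by omega), Nat.sub_self]
      push_cast at h1 ⊢
      linear_combination h1
    · have e1 : (X ^ 2 * derivative g).coeff (i + 1 + 1) = g.coeff (i + 1) * ((i : L) + 1) := by
        rw [coeff_X_pow_mul', if_pos (by omega)]
        have : i + 1 + 1 - 2 = i := by omega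
        rw [this, coeff_derivative]
      rw [e1, coeff_X_mul, coeff_X_mul, coeff_derivative] at h1
      rw [if_neg (by omega), Nat.add_sub_cancel]
      push_cast at h1 ⊢
      linear_combination h1
  have hg0 : g ≠ 0 := by
    intro h0
    rw [h0] at hgdeg
    simp at hgdeg
    exact hm hgdeg.symm
  set k := g.natTrailingDegree with hk
  have hkm : k ≤ m := by rw [← hgdeg]; exact natTrailingDegree_le_natDegree g
  have hgk : g.coeff k ≠ 0 := by
    rw [hk]; exact mt coeff_natTrailingDegree_eq_zero.1 hg0
  have hlow : ∀ i < k, g.coeff i = 0 := fun i hi => coeff_eq_zero_of_lt_natTrailingDegree hi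
  -- the trailing degree is `m`
  have hkm' : k = m := by
    by_contra hne
    have hlt : k < m := lt_of_le_of_ne hkm hne
    have h1 := hrec k
    have h2 := hrec (k + 1)
    rw [if_neg (by omega), Nat.add_sub_cancel] at h2
    have h3 : (if k = 0 then 0 else g.coeff (k - 1)) = 0 := by
      split_ifs with h0
      · rfl
      · exact hlow _ (by omega)
    rw [h3] at h1
    refine p1 (-(g.coeff (k + 1) / g.coeff k * A⁻¹ ^ 2)) (m - k) (by omega) ?_
    have h4 : θ (A⁻¹) = -u * A⁻¹ := by
      rw [Derivation.leibniz_inv, hA, smul_eq_mul]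
      field_simp
    have h5 : θ (g.coeff (k + 1) / g.coeff k) = 2 * u * (g.coeff (k + 1) / g.coeff k) - ((m : L) - k) := by
      rw [Derivation.leibniz_div, smul_eq_mul, smul_eq_mul, smul_eq_mul]
      push_cast at h2
      field_simp
      linear_combination (g.coeff k) * h2 - (g.coeff (k + 1)) * h1
    rw [map_neg, Derivation.leibniz, Derivation.leibniz_pow, h4, h5]
    simp only [smul_eq_mul, nsmul_eq_mul]
    rw [Nat.cast_sub hlt.le]
    push_cast
    ring
  have hgX : g = C (g.coeff m) * X ^ m := by
    ext i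
    rw [coeff_C_mul, coeff_X_pow]
    rcases lt_trichotomy i m with h1 | h1 | h1
    · rw [hlow i (by omega), if_neg (by omega), mul_zero]
    · rw [h1]; simp
    · rw [coeff_eq_zero_of_natDegree_lt (by omega), if_neg (by omega), mul_zero]
  have hpX : p.map (algebraMap K L) = C (g.coeff m) * (X - C u) ^ m := by
    have h1 : g.comp (X - C u) = p.map (algebraMap K L) := by
      rw [hg, comp_assoc]
      simp
    rw [← h1]
    conv_lhs => rw [hgX]
    simp
  have hc1 := congrArg (fun f : L[X] => f.coeff m) hpX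
  have hc2 := congrArg (fun f : L[X] => f.coeff (m - 1)) hpX
  have hneg : (X - C u : L[X]) = X + C (-u) := by rw [C_neg]; ring
  rw [hneg] at hc1 hc2
  simp only [coeff_map, coeff_C_mul, coeff_X_add_C_pow] at hc1 hc2
  have e1 : m - (m - 1) = 1 := by omega
  have e2 : m.choose (m - 1) = m := by
    obtain ⟨l, hl⟩ := Nat.exists_eq_succ_of_ne_zero hm
    rw [hl]; simp
  rw [Nat.sub_self, pow_zero, Nat.choose_self, Nat.cast_one, mul_one, mul_one] at hc1
  rw [e1, e2, pow_one, ← hc1] at hc2
  refine ⟨-(p.coeff (m - 1)) / (p.coeff m * m), ?_⟩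
  have hm0 : (m : L) ≠ 0 := by exact_mod_cast hm
  have hl0 : algebraMap K L (p.coeff m) ≠ 0 := by
    rw [Ne, map_eq_zero]; exact hlc
  rw [map_div₀, map_neg, map_mul, map_natCast, hc2]
  field_simp

end Ext

end Pool.Agent.J6H23.Bes
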