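import Pool.Agent.J6H23.Bes.Der

/-!
# Transcendence of the solutions of the Riccati equation and of their integrals
-/

set_option autoImplicit false

open Polynomial
open scoped IntermediateField

namespace Pool.Agent.J6H23.Bes

section

variable {K L : Type*} [Field K] [Field L] [Algebra K L] {δ : Derivation ℤ K K} {θ : Derivation ℤ L L}

/-- the restriction of a derivation to a stable subfield -/
noncomputable def resD (θ : Derivation ℤ L L) (E : IntermediateField K L) (hE : ∀ x ∈ E, θ x ∈ E) :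
    Derivation ℤ E E :=
  Derivation.mk'
    { toFun := fun x => ⟨θ x, hE x x.2⟩
      map_add' := fun x y => Subtype.ext (by simp)
      map_smul' := fun n x => Subtype.ext (by simp) }
    (fun x y => Subtype.ext (by simp))

lemma com_resD (E : IntermediateField K L) (hE : ∀ x ∈ E, θ x ∈ E) : Com (resD θ E hE) θ := fun _ => rfl

lemma stable_simple (h : Com δ θ) {g : K[X]} {u : L} (hu : θ u = aeval u g) :
    ∀ x ∈ K⟮u⟯, θ x ∈ K⟮u⟯ := by
  intro x hx
  obtain ⟨r, s, rfl⟩ := (IntermediateField.mem_adjoin_simple_iff K x).1 hx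
  have hm : ∀ p : K[X], aeval u p ∈ K⟮u⟯ := fun p =>
    (IntermediateField.mem_adjoin_simple_iff K _).2 ⟨p, 1, by simp⟩
  rw [Derivation.leibniz_div, ev_dv h hu, ev_dv h hu]
  simp only [smul_eq_mul]
  exact mul_mem (pow_mem (inv_mem (hm s)) 2) (sub_mem (mul_mem (hm _) (hm _)) (mul_mem (hm _) (hm _)))

/-- `u` is transcendental -/
theorem tr_u [CharZero K] (h : Com δ θ) {κ : K} {u A : L} (hu : θ u = algebraMap K L κ - u ^ 2)
    (hA : θ A = u * A) (hA0 : A ≠ 0) (p1 : ∀ (φ : L) (n : ℕ), n ≠ 0 → θ φ ≠ n * A⁻¹ ^ 2)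
    (hnot : u ∉ Set.range (algebraMap K L)) : Transcendental K u := by
  intro halg
  have hint : IsIntegral K u := halg.isIntegral
  apply hnot
  have hev : θ u = aeval u (C κ - X ^ 2) := by rw [hu]; simp
  have h1 : aeval u (dv δ (C κ - X ^ 2) (minpoly K u)) = 0 := by
    rw [← ev_dv h hev, minpoly.aeval, map_zero]
  obtain ⟨r, hr⟩ := minpoly.dvd K u h1
  refine darboux h hu hA hA0 p1 (p := minpoly K u) (r := r) (by rw [hr]; ring) ?_
  exact (minpoly.natDegree_pos hint).ne'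

/-- there are no exponentials of multiples of `u` in the field generated by `u` -/
theorem no_exp [CharZero K] (h : Com δ θ) {κ : K} {u A : L} (hu : θ u = algebraMap K L κ - u ^ 2)
    (hA : θ A = u * A) (hA0 : A ≠ 0) (p1 : ∀ (φ : L) (n : ℕ), n ≠ 0 → θ φ ≠ n * A⁻¹ ^ 2)
    (hnot : u ∉ Set.range (algebraMap K L)) {f : L} (hf : f ∈ K⟮u⟯) (hf0 : f ≠ 0) {n : ℕ} (hn : n ≠ 0)
    (hfn : θ f = n * u * f) : False := by
  have : CharZero L := charZero_of_injective_algebraMap (algebraMap K L).injective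
  have htr := tr_u h hu hA hA0 p1 hnot
  have hinj : Function.Injective (aeval u : K[X] →ₐ[K] L) := transcendental_iff_injective.1 htr
  have hev : θ u = aeval u (C κ - X ^ 2) := by rw [hu]; simp
  obtain ⟨r, s, hrs⟩ := (IntermediateField.mem_adjoin_simple_iff K f).1 hf
  have hr0 : r ≠ 0 := by
    rintro rfl
    apply hf0
    rw [hrs]; simp
  obtain ⟨P, Q, c, hPQ, hP, hQ⟩ := UniqueFactorizationMonoid.exists_reduced_factors r hr0 s
  have hcop : IsCoprime P Q := hPQ.isCoprime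
  have hs0 : s ≠ 0 := by
    rintro rfl
    apply hf0
    rw [hrs]; simp
  have hc0 : c ≠ 0 := by
    rintro rfl
    apply hr0
    rw [← hP]; simp
  have hQ0 : Q ≠ 0 := by
    rintro rfl
    apply hs0
    rw [← hQ]; simp
  have hP0 : P ≠ 0 := by
    rintro rfl
    apply hr0
    rw [← hP]; simp
  have hc0' : aeval u c ≠ 0 := fun h0 => hc0 (hinj (h0.trans (map_zero _).symm))
  have hQ0' : aeval u Q ≠ 0 := fun h0 => hQ0 (hinj (h0.trans (map_zero _).symm))
  have hP0' : aeval u P ≠ 0 := fun h0 => hP0 (hinj (h0.trans (map_zero _).symm))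
  have hfPQ : f = aeval u P / aeval u Q := by
    rw [hrs, ← hP, ← hQ, map_mul, map_mul]
    field_simp
  -- the polynomial identity
  have hid : dv δ (C κ - X ^ 2) P * Q - P * dv δ (C κ - X ^ 2) Q = (n : K[X]) * X * (P * Q) := by
    apply hinj
    rw [map_sub, map_mul, map_mul, ← ev_dv h hev, ← ev_dv h hev]
    simp only [map_mul, map_natCast, aeval_X]
    rw [hfPQ, Derivation.leibniz_div] at hfn
    simp only [smul_eq_mul] at hfn
    field_simp at hfn
    linear_combination hfn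
  have hdP : P ∣ dv δ (C κ - X ^ 2) P := by
    have h1 : P ∣ dv δ (C κ - X ^ 2) P * Q := by
      have : dv δ (C κ - X ^ 2) P * Q = P * (dv δ (C κ - X ^ 2) Q + (n : K[X]) * X * Q) := by
        linear_combination hid
      rw [this]; exact dvd_mul_right _ _
    exact hcop.dvd_of_dvd_mul_right h1
  have hdQ : Q ∣ dv δ (C κ - X ^ 2) Q := by
    have h1 : Q ∣ dv δ (C κ - X ^ 2) Q * P := by
      have : dv δ (C κ - X ^ 2) Q * P = Q * (dv δ (C κ - X ^ 2) P - (n : K[X]) * X * P) := by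
        linear_combination -hid
      rw [this]; exact dvd_mul_right _ _
    exact hcop.symm.dvd_of_dvd_mul_right h1
  have hPd : P.natDegree = 0 := by
    by_contra hne
    obtain ⟨w, hw⟩ := hdP
    exact hnot (darboux h hu hA hA0 p1 (p := P) (r := w) (by rw [hw]; ring) hne)
  have hQd : Q.natDegree = 0 := by
    by_contra hne
    obtain ⟨w, hw⟩ := hdQ
    exact hnot (darboux h hu hA hA0 p1 (p := Q) (r := w) (by rw [hw]; ring) hne)
  obtain ⟨a, rfl⟩ := natDegree_eq_zero.1 hPd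
  obtain ⟨b, rfl⟩ := natDegree_eq_zero.1 hQd
  rw [aeval_C] at hP0' hQ0'
  rw [aeval_C, aeval_C, ← map_div₀] at hfPQ
  apply hnot
  refine ⟨δ (a / b) / (n * (a / b)), ?_⟩
  have hn' : (n : L) ≠ 0 := by exact_mod_cast hn
  rw [map_div₀, map_mul, map_natCast, ← h, ← hfPQ, hfn]
  field_simp

/-- `A` is transcendental over `K(u)` -/
theorem tr_A [CharZero K] (h : Com δ θ) {κ : K} {u A : L} (hu : θ u = algebraMap K L κ - u ^ 2)
    (hA : θ A = u * A) (hA0 : A ≠ 0) (p1 : ∀ (φ : L) (n : ℕ), n ≠ 0 → θ φ ≠ n * A⁻¹ ^ 2)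
    (hnot : u ∉ Set.range (algebraMap K L)) : Transcendental K⟮u⟯ A := by
  have hev : θ u = aeval u (C κ - X ^ 2) := by rw [hu]; simp
  have hst := stable_simple h hev
  have hcom := com_resD (θ := θ) K⟮u⟯ hst
  obtain ⟨u', hu'⟩ : ∃ u' : K⟮u⟯, algebraMap K⟮u⟯ L u' = u :=
    ⟨⟨u, IntermediateField.mem_adjoin_simple_self K u⟩, rfl⟩
  intro halg
  have hint : IsIntegral K⟮u⟯ A := halg.isIntegral
  have hevA : θ A = aeval A (C u' * X) := by rw [hA, map_mul, aeval_C, aeval_X, hu']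
  set p := minpoly K⟮u⟯ A with hp
  set n := p.natDegree with hn
  have hmon : p.Monic := minpoly.monic hint
  have h1 : aeval A (dv (resD θ K⟮u⟯ hst) (C u' * X) p - C ((n : K⟮u⟯) * u') * p) = 0 := by
    rw [map_sub, ← ev_dv hcom hevA, map_mul, hp, minpoly.aeval, map_zero, mul_zero, sub_zero]
  have h2 := minpoly.dvd K⟮u⟯ A h1
  have hco : ∀ i, (dv (resD θ K⟮u⟯ hst) (C u' * X) p - C ((n : K⟮u⟯) * u') * p).coeff i =
      resD θ K⟮u⟯ hst (p.coeff i) + u' * (i * p.coeff i) - n * u' * p.coeff i := by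
    intro i
    rw [coeff_sub, dv, coeff_add, coeff_mc, mul_assoc, coeff_C_mul, coeff_C_mul]
    congr 3
    rcases i with _ | i
    · simp
    · rw [coeff_X_mul, coeff_derivative]; push_cast; ring
  have h3 : dv (resD θ K⟮u⟯ hst) (C u' * X) p - C ((n : K⟮u⟯) * u') * p = 0 := by
    by_contra hne
    refine hne (eq_zero_of_dvd_of_degree_lt h2 ?_)
    rw [← hp, degree_eq_natDegree hmon.ne_zero, degree_lt_iff_coeff_zero]
    intro i hi
    rw [hco]
    rcases hi.eq_or_lt with h4 | h4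
    · have h5 : p.coeff i = 1 := by rw [← h4]; exact hmon.coeff_natDegree
      rw [h5, ← h4, Derivation.map_one_eq_zero]
      ring
    · rw [coeff_eq_zero_of_natDegree_lt (by omega)]
      simp
  have h4 := hco 0
  rw [h3, coeff_zero] at h4
  have hc0 : p.coeff 0 ≠ 0 := minpoly.coeff_zero_ne_zero hint hA0
  refine no_exp h hu hA hA0 p1 hnot (f := algebraMap K⟮u⟯ L (p.coeff 0)) (SetLike.coe_mem _) (fun h0 => hc0 (by
    rwa [map_eq_zero] at h0)) (n := n) (minpoly.natDegree_pos hint).ne' ?_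
  rw [hcom]
  have h5 : resD θ K⟮u⟯ hst (p.coeff 0) = n * u' * p.coeff 0 := by
    linear_combination -h4
  rw [h5, map_mul, map_mul, map_natCast, hu']

/-- `h` is transcendental over `K(u, A)` -/
theorem tr_h [CharZero K] (h : Com δ θ) {κ : K} {u A H : L} {q : ℕ} (hu : θ u = algebraMap K L κ - u ^ 2)
    (hA : θ A = u * A) (hA0 : A ≠ 0) (hH : θ H = q * (1 - A⁻¹ ^ 2))
    (p1 : ∀ (φ : L) (n : ℕ), n ≠ 0 → θ φ ≠ n * A⁻¹ ^ 2) (p2 : ∀ φ : L, θ φ ≠ 3 * q)
    (hnot : u ∉ Set.range (algebraMap K L)) : Transcendental K⟮u⟯⟮A⟯ H := by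
  have : CharZero L := charZero_of_injective_algebraMap (algebraMap K L).injective
  have hev : θ u = aeval u (C κ - X ^ 2) := by rw [hu]; simp
  have hst := stable_simple h hev
  have hcom := com_resD (θ := θ) K⟮u⟯ hst
  obtain ⟨u', hu'⟩ : ∃ u' : K⟮u⟯, algebraMap K⟮u⟯ L u' = u :=
    ⟨⟨u, IntermediateField.mem_adjoin_simple_self K u⟩, rfl⟩
  have hevA : θ A = aeval A (C u' * X) := by rw [hA, map_mul, aeval_C, aeval_X, hu']
  have hst2 := stable_simple hcom hevA
  have hcom2 := com_resD (θ := θ) K⟮u⟯⟮A⟯ hst2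
  obtain ⟨A', hA'⟩ : ∃ A' : K⟮u⟯⟮A⟯, algebraMap K⟮u⟯⟮A⟯ L A' = A :=
    ⟨⟨A, IntermediateField.mem_adjoin_simple_self _ A⟩, rfl⟩
  intro halg
  have hint : IsIntegral K⟮u⟯⟮A⟯ H := halg.isIntegral
  -- the trace
  obtain ⟨w, hw⟩ : ∃ w : K⟮u⟯⟮A⟯, w = q * (1 - A'⁻¹ ^ 2) := ⟨_, rfl⟩
  have hwL : algebraMap K⟮u⟯⟮A⟯ L w = q * (1 - A⁻¹ ^ 2) := by
    rw [hw, map_mul, map_natCast, map_sub, map_one, map_pow, map_inv₀, hA']
  have hevH : θ H = aeval H (C w) := by rw [hH, aeval_C, hwL]
  obtain ⟨φ, hφ⟩ : ∃ φ : K⟮u⟯⟮A⟯, θ (algebraMap K⟮u⟯⟮A⟯ L φ) = q * (1 - A⁻¹ ^ 2) := by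
    set p := minpoly K⟮u⟯⟮A⟯ H with hp
    set n := p.natDegree with hn
    have hmon : p.Monic := minpoly.monic hint
    have hn0 : n ≠ 0 := (minpoly.natDegree_pos hint).ne'
    have h1 : aeval H (dv (resD θ _ hst2) (C w) p) = 0 := by
      rw [← ev_dv hcom2 hevH, hp, minpoly.aeval, map_zero]
    have h2 := minpoly.dvd _ H h1
    have hco : ∀ i, (dv (resD θ _ hst2) (C w) p).coeff i =
        resD θ _ hst2 (p.coeff i) + w * (p.coeff (i + 1) * (i + 1)) := by
      intro i
      rw [dv, coeff_add, coeff_mc, coeff_C_mul, coeff_derivative]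
    have h3 : dv (resD θ _ hst2) (C w) p = 0 := by
      by_contra hne
      refine hne (eq_zero_of_dvd_of_degree_lt h2 ?_)
      rw [← hp, degree_eq_natDegree hmon.ne_zero, degree_lt_iff_coeff_zero]
      intro i hi
      rw [hco, coeff_eq_zero_of_natDegree_lt (n := i + 1) (by omega)]
      rcases hi.eq_or_lt with h4 | h4
      · have h5 : p.coeff i = 1 := by rw [← h4]; exact hmon.coeff_natDegree
        rw [h5, Derivation.map_one_eq_zero]
        ring
      · rw [coeff_eq_zero_of_natDegree_lt (by omega)]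
        simp
    have h4 := hco (n - 1)
    rw [h3, coeff_zero, Nat.sub_add_cancel (by omega), show p.coeff n = 1 from hmon.coeff_natDegree] at h4
    have hn1 : ((n - 1 : ℕ) : K⟮u⟯⟮A⟯) + 1 = n := by
      rw [Nat.cast_sub (by omega)]; push_cast; ring
    rw [hn1] at h4
    refine ⟨-p.coeff (n - 1) / n, ?_⟩
    have hnL : (n : L) ≠ 0 := by exact_mod_cast hn0
    have h5 : θ (algebraMap K⟮u⟯⟮A⟯ L (p.coeff (n - 1))) = -(n * (q * (1 - A⁻¹ ^ 2))) := by
      rw [hcom2, ← hwL]
      have : resD θ _ hst2 (p.coeff (n - 1)) = -(n * w) := by linear_combination -h4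
      rw [this]
      simp
    have h6 : θ ((n : L)) = 0 := Derivation.map_natCast _ _
    rw [map_div₀, map_neg, map_natCast, Derivation.leibniz_div, map_neg, h5, h6]
    simp only [smul_eq_mul]
    field_simp
    ring
  have htrA := tr_A h hu hA hA0 p1 hnot
  have hinj : Function.Injective (aeval A : K⟮u⟯[X] →ₐ[K⟮u⟯] L) := transcendental_iff_injective.1 htrA
  obtain ⟨P, Q, hPQ⟩ := (IntermediateField.mem_adjoin_simple_iff K⟮u⟯ (φ : L)).1 φ.2
  have hφ' : θ (aeval A P / aeval A Q) = q * (1 - A⁻¹ ^ 2) := by rw [← hPQ]; exact hφ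
  by_cases hQ0 : aeval A Q = 0
  · rw [hQ0, div_zero, map_zero] at hφ'
    have h2A : (2 : L) * A ≠ 0 := mul_ne_zero two_ne_zero hA0
    rcases mul_eq_zero.1 hφ'.symm with h1 | h1
    · exact p2 0 (by rw [map_zero, h1, mul_zero])
    · -- `A ^ 2 = 1`, impossible as `A` is transcendental
      have h2 : A ^ 2 - 1 = 0 := by
        field_simp at h1
        linear_combination h1
      have h3 : aeval A (X ^ 2 - 1 : K⟮u⟯[X]) = 0 := by simpa using h2
      have h4 := hinj (h3.trans (map_zero _).symm)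
      have h5 := congrArg (fun f : K⟮u⟯[X] => f.coeff 2) h4
      simp [coeff_one] at h5
  -- the polynomial identity
  set d := dv (resD θ K⟮u⟯ hst) (C u' * X) with hd
  have hid : (d P * Q - P * d Q) * X ^ 2 = (q : K⟮u⟯[X]) * (X ^ 2 - 1) * Q ^ 2 := by
    apply hinj
    rw [map_mul, map_sub, map_mul, map_mul, hd, ← ev_dv hcom hevA, ← ev_dv hcom hevA]
    simp only [map_mul, map_natCast, aeval_X, map_sub, map_pow, map_one]
    rw [Derivation.leibniz_div] at hφ'
    simp only [smul_eq_mul] at hφ'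
    field_simp at hφ'
    linear_combination hφ'
  -- substitution of `2 X`
  have hcomp : ∀ R : K⟮u⟯[X], d (R.comp (C 2 * X)) = (d R).comp (C 2 * X) := by
    intro R
    refine leib_ext (compRingHom (C 2 * X)) (fun R => d (R.comp (C 2 * X))) (fun R => (d R).comp (C 2 * X))
      (fun p r => ?_) (fun p r => ?_) (fun p r => ?_) (fun p r => ?_) (fun a => ?_) ?_ R
    · simp only [add_comp, hd, dv_add]
    · simp only [add_comp, hd, dv_add]
    · simp only [mul_comp, hd, dv_mul]; rfl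
    · simp only [mul_comp, hd, dv_mul, add_comp]; rfl
    · simp only [C_comp, hd, dv_C]
    · simp only [X_comp, hd, dv_X, dv_mul, dv_C, mul_comp, C_comp]
      have : resD θ K⟮u⟯ hst 2 = 0 := by
        have := Derivation.map_natCast (resD θ K⟮u⟯ hst) 2
        exact_mod_cast this
      rw [this, C_0]
      ring
  have h2A : (2 : L) * A ≠ 0 := mul_ne_zero two_ne_zero hA0
  have hev2 : ∀ R : K⟮u⟯[X], aeval A (R.comp (C 2 * X)) = aeval (2 * A) R := by
    intro R
    rw [aeval_comp, map_mul, aeval_C, aeval_X, map_ofNat]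
  have hQ0' : aeval (2 * A) Q ≠ 0 := by
    intro h0
    rw [← hev2] at h0
    have h1 := hinj (h0.trans (map_zero _).symm)
    have h2 : (Q.comp (C 2 * X)).comp (C (2⁻¹) * X) = Q := by
      rw [comp_assoc]
      have : (C 2 * X : K⟮u⟯[X]).comp (C (2⁻¹) * X) = X := by
        simp only [mul_comp, C_comp, X_comp]
        rw [← mul_assoc, ← C_mul, mul_inv_cancel₀ (by exact_mod_cast (two_ne_zero : (2 : L) ≠ 0)), C_1, one_mul]
      rw [this, comp_X]
    rw [h1, zero_comp] at h2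
    exact hQ0 (by rw [← h2, map_zero])
  have hid2 := congrArg (fun f : K⟮u⟯[X] => aeval (2 * A) f) hid
  simp only [map_mul, map_natCast, aeval_X, map_sub, map_pow, map_one] at hid2
  refine p2 (4 * (aeval (2 * A) P / aeval (2 * A) Q) - (aeval A P / aeval A Q)) ?_
  have h4 : θ (4 : L) = 0 := by
    have := Derivation.map_natCast θ 4
    exact_mod_cast this
  have h5 : θ (aeval (2 * A) P / aeval (2 * A) Q) = q * (1 - (2 * A)⁻¹ ^ 2) := by
    rw [Derivation.leibniz_div]
    simp only [smul_eq_mul]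
    rw [← hev2 P, ← hev2 Q, ev_dv hcom hevA, ev_dv hcom hevA, ← hd, hcomp, hcomp, hev2, hev2, hev2, hev2]
    field_simp
    linear_combination hid2
  rw [map_sub, Derivation.leibniz, h4, h5, hφ']
  simp only [smul_eq_mul]
  field_simp
  ring

end

end Pool.Agent.J6H23.Bes
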