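import Pool.Agent.R352.E.Sys

/-!
# The Bessel function `I_0(2 x z)` and its logarithmic companion as E-functions

`A = ∑ (x z)^(2n) / n!^2`, `H = ∑ h_n (x z)^(2n) / n!^2` with the harmonic numbers `h_n`, `x = m / q`;
`B = q z A'` and `G = q z H' - q A`.
-/

set_option autoImplicit false

open PowerSeries Finset.HasAntidiagonal

namespace Pool.Agent.J6H23.Bes

open Pool.Agent.R352.E Pool.Agent.Y113

lemma coeff_D (q : ℕ) (g : ℚ⟦X⟧) (n : ℕ) :
    coeff n ((TQ q : ℚ⟦X⟧) * d⁄dX ℚ g) = (q : ℚ) * n * coeff n g := by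
  rw [TQ_eq, mul_assoc]
  have h2 : ((q : ℚ⟦X⟧)) = C (q : ℚ) := by simp
  rw [h2, coeff_C_mul]
  rcases n with _ | n
  · simp
  · rw [coeff_succ_X_mul, coeff_derivative]
    push_cast
    ring

lemma coeff_CXX (c : ℚ) (g : ℚ⟦X⟧) (n : ℕ) :
    coeff n (C c * X ^ 2 * g) = if 2 ≤ n then c * coeff (n - 2) g else 0 := by
  rw [mul_assoc, coeff_C_mul, coeff_X_pow_mul']
  split_ifs <;> simp

/-- the coefficients `(m/q)^k / (k/2)!^2` for even `k` -/
noncomputable def ca (m q k : ℕ) : ℚ := if Even k then ((m : ℚ) / q) ^ k / ((k / 2).factorial : ℚ) ^ 2 else 0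

/-- `I_0 (2 m z / q)` -/
noncomputable def SA (m q : ℕ) : ℚ⟦X⟧ := PowerSeries.mk (ca m q)

/-- the companion -/
noncomputable def SH (m q : ℕ) : ℚ⟦X⟧ := PowerSeries.mk fun k => harmonic (k / 2) * ca m q k

/-- `q z A'` -/
noncomputable def SB (m q : ℕ) : ℚ⟦X⟧ := (TQ q : ℚ⟦X⟧) * d⁄dX ℚ (SA m q)

/-- `q z H' - q A` -/
noncomputable def SG (m q : ℕ) : ℚ⟦X⟧ := (TQ q : ℚ⟦X⟧) * d⁄dX ℚ (SH m q) - (q : ℚ⟦X⟧) * SA m q

lemma ca_odd (m q n : ℕ) : ca m q (2 * n + 1) = 0 := by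
  rw [ca, if_neg (by simp)]

lemma ca_even (m q n : ℕ) : ca m q (2 * n) = ((m : ℚ) / q) ^ (2 * n) / (n.factorial : ℚ) ^ 2 := by
  rw [ca, if_pos (by simp)]
  have : 2 * n / 2 = n := by omega
  rw [this]

/-- the recursion -/
lemma ca_rec (m : ℕ) {q : ℕ} (hq : 1 ≤ q) (k : ℕ) :
    (q : ℚ) ^ 2 * ((k : ℚ) + 2) ^ 2 * ca m q (k + 2) = 4 * (m : ℚ) ^ 2 * ca m q k := by
  have hq0 : (q : ℚ) ≠ 0 := by exact_mod_cast (by omega : q ≠ 0)
  rcases Nat.even_or_odd' k with ⟨n, rfl | rfl⟩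
  · have e : 2 * n + 2 = 2 * (n + 1) := by ring
    rw [e, ca_even, ca_even, Nat.factorial_succ]
    have : (n.factorial : ℚ) ≠ 0 := by exact_mod_cast n.factorial_ne_zero
    have h2 : (n : ℚ) + 1 ≠ 0 := by positivity
    push_cast
    have e2 : 2 * (n + 1) = 2 * n + 2 := by ring
    rw [e2, pow_add]
    field_simp
    ring
  · have e : 2 * n + 1 + 2 = 2 * (n + 1) + 1 := by ring
    rw [e, ca_odd, ca_odd]
    ring

lemma DA (m q : ℕ) : (TQ q : ℚ⟦X⟧) * d⁄dX ℚ (SA m q) = SB m q := rfl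

lemma DB (m : ℕ) {q : ℕ} (hq : 1 ≤ q) :
    (TQ q : ℚ⟦X⟧) * d⁄dX ℚ (SB m q) = C (4 * (m : ℚ) ^ 2) * X ^ 2 * SA m q := by
  ext n
  rw [coeff_D, SB, coeff_D, coeff_CXX, SA]
  simp only [coeff_mk]
  rcases n with _ | _ | n
  · simp
  · rw [if_neg (by omega), show (0 + 1 : ℕ) = 2 * 0 + 1 by ring, ca_odd]; ring
  · rw [if_pos (by omega), show n + 1 + 1 = n + 2 by ring, Nat.add_sub_cancel]
    have := ca_rec m hq n
    push_cast
    linear_combination this

lemma DH (m q : ℕ) : (TQ q : ℚ⟦X⟧) * d⁄dX ℚ (SH m q) = SG m q + (q : ℚ⟦X⟧) * SA m q := by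
  rw [SG]; ring

lemma DG (m : ℕ) {q : ℕ} (hq : 1 ≤ q) :
    (TQ q : ℚ⟦X⟧) * d⁄dX ℚ (SG m q) = C (4 * (m : ℚ) ^ 2) * X ^ 2 * SH m q + (q : ℚ⟦X⟧) * SB m q := by
  have h2 : ((q : ℚ⟦X⟧)) = C (q : ℚ) := by simp
  ext n
  rw [coeff_D, map_add, coeff_CXX, SG, map_sub, coeff_D, SB, SH, SA, h2, coeff_C_mul, coeff_C_mul, coeff_D]
  simp only [coeff_mk]
  rcases n with _ | _ | n
  · simp
  · rw [if_neg (by omega), show (0 + 1 : ℕ) = 2 * 0 + 1 by ring, ca_odd]; ring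
  · rw [if_pos (by omega), show n + 1 + 1 = n + 2 by ring, Nat.add_sub_cancel]
    have h3 := ca_rec m hq n
    rcases Nat.even_or_odd' n with ⟨k, rfl | rfl⟩
    · have e1 : (2 * k + 2) / 2 = k + 1 := by omega
      have e2 : (2 * k) / 2 = k := by omega
      rw [e1, e2, harmonic_succ]
      have h4 : (k : ℚ) + 1 ≠ 0 := by positivity
      push_cast at h3 ⊢
      have h5 : ((k : ℚ) + 1) * ((k : ℚ) + 1)⁻¹ = 1 := mul_inv_cancel₀ h4
      linear_combination (harmonic k) * h3 + 4 * (q : ℚ) ^ 2 * ((k : ℚ) + 1) * ca m q (2 * k + 2) * h5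
    · have e : 2 * k + 1 + 2 = 2 * (k + 1) + 1 := by ring
      rw [e, ca_odd, ca_odd]
      ring

lemma cc_A (m q : ℕ) : constantCoeff (SA m q) = 1 := by
  rw [← coeff_zero_eq_constantCoeff_apply, SA, coeff_mk, ca]
  simp

/-- the Wronskian -/
lemma rel (m : ℕ) {q : ℕ} (hq : 1 ≤ q) : SA m q * SG m q = SH m q * SB m q - (q : ℚ⟦X⟧) := by
  have hq0 : (q : ℚ) ≠ 0 := by exact_mod_cast (by omega : q ≠ 0)
  have h2 : ((q : ℚ⟦X⟧)) = C (q : ℚ) := by simp
  have h1 : (TQ q : ℚ⟦X⟧) * d⁄dX ℚ (SA m q * SG m q - SH m q * SB m q) = 0 := by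
    simp only [map_sub, Derivation.leibniz, smul_eq_mul]
    linear_combination (SG m q) * (DA m q) + (SA m q) * (DG m hq) - (SB m q) * (DH m q) - (SH m q) * (DB m hq)
  have h3 : SA m q * SG m q - SH m q * SB m q = -(q : ℚ⟦X⟧) := by
    ext n
    rcases n with _ | n
    · rw [coeff_zero_eq_constantCoeff_apply, map_sub, map_mul, map_mul, cc_A, map_neg, h2, coeff_zero_C]
      have e1 : constantCoeff (SG m q) = -(q : ℚ) := by
        rw [← coeff_zero_eq_constantCoeff_apply, SG, map_sub, coeff_D, h2, coeff_C_mul,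
          coeff_zero_eq_constantCoeff_apply, coeff_zero_eq_constantCoeff_apply, cc_A]
        simp
      have e2 : constantCoeff (SB m q) = 0 := by
        rw [← coeff_zero_eq_constantCoeff_apply, SB, coeff_D]; simp
      rw [e1, e2]; ring
    · have h4 := congrArg (coeff (n + 1)) h1
      rw [coeff_D, map_zero] at h4
      have h5 : (q : ℚ) * ((n + 1 : ℕ) : ℚ) ≠ 0 := mul_ne_zero hq0 (by positivity)
      rw [(mul_eq_zero.1 h4).resolve_left h5, h2, map_neg, coeff_C, if_neg (by omega), neg_zero]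
  linear_combination h3

/-! ## The arithmetic conditions -/

lemma EF_add {f g : ℚ⟦X⟧} (hf : EF f) (hg : EF g) : EF (f + g) := by
  obtain ⟨C1, hC1, h1, d1⟩ := hf
  obtain ⟨C2, hC2, h2, d2⟩ := hg
  set C := max C1 C2 with hC
  have hC0 : 1 ≤ C := hC1.trans (le_max_left _ _)
  have h1' : ∀ m, |((cf m f : ℚ) : ℝ)| ≤ C ^ (m + 1) := fun m =>
    (h1 m).trans (pow_le_pow_left₀ (by linarith) (le_max_left _ _) _)
  have h2' : ∀ m, |((cf m g : ℚ) : ℝ)| ≤ C ^ (m + 1) := fun m =>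
    (h2 m).trans (pow_le_pow_left₀ (by linarith) (le_max_right _ _) _)
  have hcf : ∀ m, cf m (f + g) = cf m f + cf m g := fun m => by rw [cf, cf, cf, map_add]; ring
  refine ⟨2 * C ^ 2, by nlinarith, fun m => ?_, fun m => ?_⟩
  · rw [hcf]
    push_cast
    refine (abs_add_le _ _).trans ?_
    calc |((cf m f : ℚ) : ℝ)| + |((cf m g : ℚ) : ℝ)| ≤ 2 * C ^ (m + 1) := by linarith [h1' m, h2' m]
      _ ≤ (2 * C ^ 2) ^ (m + 1) := by
        rw [mul_pow]
        refine mul_le_mul (le_self_pow₀ one_le_two (by omega)) ?_ (by positivity) (by positivity)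
        refine pow_le_pow_left₀ (by positivity) ?_ _
        nlinarith
  · obtain ⟨e1, he1, he1C, he1i⟩ := d1 m
    obtain ⟨e2, he2, he2C, he2i⟩ := d2 m
    refine ⟨e1 * e2, Nat.mul_pos he1 he2, ?_, fun j hj => ?_⟩
    · push_cast
      calc (e1 : ℝ) * e2 ≤ C ^ (m + 1) * C ^ (m + 1) :=
            mul_le_mul (he1C.trans (pow_le_pow_left₀ (by linarith) (le_max_left _ _) _))
              (he2C.trans (pow_le_pow_left₀ (by linarith) (le_max_right _ _) _)) (by positivity) (by positivity)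
        _ = (C ^ 2) ^ (m + 1) := by rw [← mul_pow, ← sq]
        _ ≤ (2 * C ^ 2) ^ (m + 1) := pow_le_pow_left₀ (by positivity) (by nlinarith) _
    · obtain ⟨a, ha⟩ := he1i j hj
      obtain ⟨b, hb⟩ := he2i j hj
      refine ⟨e2 * a + e1 * b, ?_⟩
      rw [hcf]
      push_cast
      rw [← ha, ← hb]
      ring

lemma EF_D {f : ℚ⟦X⟧} (hf : EF f) {q : ℕ} (hq : 1 ≤ q) : EF ((TQ q : ℚ⟦X⟧) * d⁄dX ℚ f) := by
  obtain ⟨C1, hC1, h1, d1⟩ := hf
  have hq1 : (1 : ℝ) ≤ q := by exact_mod_cast hq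
  have hcf : ∀ m, cf m ((TQ q : ℚ⟦X⟧) * d⁄dX ℚ f) = q * m * cf m f := fun m => by
    rw [cf, cf, coeff_D]; ring
  refine ⟨2 * q * C1, by nlinarith, fun m => ?_, fun m => ?_⟩
  · rw [hcf]
    push_cast
    rw [abs_mul, abs_mul, Nat.abs_cast, Nat.abs_cast]
    have h3 : (m : ℝ) ≤ 2 ^ (m + 1) := by
      have := (Nat.lt_two_pow_self (n := m)).le
      have h4 : m ≤ 2 ^ (m + 1) := this.trans (Nat.pow_le_pow_right (by norm_num) (by omega))
      exact_mod_cast h4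
    calc (q : ℝ) * m * |((cf m f : ℚ) : ℝ)| ≤ (q : ℝ) ^ (m + 1) * 2 ^ (m + 1) * C1 ^ (m + 1) := by
          refine mul_le_mul (mul_le_mul (le_self_pow₀ hq1 (by omega)) h3 (by positivity) (by positivity)) (h1 m)
            (abs_nonneg _) (by positivity)
      _ = (2 * q * C1) ^ (m + 1) := by rw [mul_pow, mul_pow]; ring
  · obtain ⟨e1, he1, he1C, he1i⟩ := d1 m
    refine ⟨e1, he1, he1C.trans (pow_le_pow_left₀ (by linarith) (by nlinarith) _), fun j hj => ?_⟩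
    obtain ⟨a, ha⟩ := he1i j hj
    refine ⟨q * j * a, ?_⟩
    rw [hcf]
    push_cast
    rw [← ha]
    ring

lemma EF_int (n : ℤ) : EF (n : ℚ⟦X⟧) := by
  have h2 : ((n : ℚ⟦X⟧)) = C (n : ℚ) := by simp
  refine ⟨|(n : ℝ)| + 1, by linarith [abs_nonneg (n : ℝ)], fun m => ?_, fun m => ⟨1, one_pos, ?_, fun j _ => ?_⟩⟩
  · rw [cf, h2, coeff_C]
    have h1 : (1 : ℝ) ≤ |(n : ℝ)| + 1 := by linarith [abs_nonneg (n : ℝ)]
    split_ifs with h
    · rw [h]
      simp only [Nat.factorial_zero, Nat.cast_one, one_mul, zero_add, pow_one]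
      push_cast
      linarith
    · simp only [mul_zero, Rat.cast_zero, abs_zero]
      positivity
  · have h1 : (1 : ℝ) ≤ |(n : ℝ)| + 1 := by linarith [abs_nonneg (n : ℝ)]
    rw [Nat.cast_one]
    exact one_le_pow₀ h1
  · rw [cf, h2, coeff_C]
    split_ifs with h
    · exact ⟨n, by rw [h]; simp⟩
    · exact ⟨0, by simp⟩

/-- `k! a_k` -/
lemma cf_ca (m q k : ℕ) : (k.factorial : ℚ) * ca m q k =
    if Even k then (k.choose (k / 2) : ℚ) * ((m : ℚ) / q) ^ k else 0 := by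
  rcases Nat.even_or_odd' k with ⟨n, rfl | rfl⟩
  · rw [ca_even, if_pos (by simp)]
    have e : 2 * n / 2 = n := by omega
    rw [e]
    have h1 : ((2 * n).choose n : ℚ) = ((2 * n).factorial : ℚ) / ((n.factorial : ℚ) * (n.factorial : ℚ)) := by
      rw [Nat.cast_choose ℚ (by omega : n ≤ 2 * n)]
      have : 2 * n - n = n := by omega
      rw [this]
    rw [h1]
    have : (n.factorial : ℚ) ≠ 0 := by exact_mod_cast n.factorial_ne_zero
    field_simp
  · rw [ca_odd, if_neg (by simp), mul_zero]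

lemma harmonic_nonneg' (n : ℕ) : 0 ≤ harmonic n := by
  rw [harmonic]
  exact Finset.sum_nonneg fun i _ => by positivity

lemma harmonic_le' (n : ℕ) : harmonic n ≤ n := by
  rw [harmonic]
  calc ∑ i ∈ Finset.range n, ((i + 1 : ℕ) : ℚ)⁻¹ ≤ ∑ i ∈ Finset.range n, (1 : ℚ) := by
        refine Finset.sum_le_sum fun i _ => ?_
        refine inv_le_one_of_one_le₀ ?_
        exact_mod_cast (by omega : 1 ≤ i + 1)
    _ = n := by simp

/-- the common denominator of the harmonic numbers -/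
lemma harmonic_den {n m : ℕ} (h : n ≤ m) : ∃ a : ℤ, (Nat.lcmUpto m : ℚ) * harmonic n = a := by
  have h1 : ∀ i ∈ Finset.range n, ∃ a : ℤ, (Nat.lcmUpto m : ℚ) * ((i + 1 : ℕ) : ℚ)⁻¹ = a := by
    intro i hi
    rw [Finset.mem_range] at hi
    have hd : (i + 1) ∣ Nat.lcmUpto m := Finset.dvd_lcm (f := id) (Finset.mem_Icc.2 ⟨by omega, by omega⟩)
    obtain ⟨c, hc⟩ := hd
    refine ⟨c, ?_⟩
    rw [hc]
    push_cast
    have : (i : ℚ) + 1 ≠ 0 := by positivity
    field_simp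
  choose! a ha using h1
  refine ⟨∑ i ∈ Finset.range n, a i, ?_⟩
  rw [harmonic, Finset.mul_sum]
  push_cast
  refine Finset.sum_congr rfl fun i hi => ?_
  have := ha i hi
  push_cast at this
  exact this

lemma EF_SH (m : ℕ) {q : ℕ} (hq : 1 ≤ q) (b : Bool) :
    EF (PowerSeries.mk fun k => (if b then harmonic (k / 2) else 1) * ca m q k) := by
  have hq1 : (1 : ℝ) ≤ q := by exact_mod_cast hq
  have hq0 : (q : ℚ) ≠ 0 := by exact_mod_cast (by omega : q ≠ 0)
  have hcf : ∀ k, cf k (PowerSeries.mk fun k => (if b then harmonic (k / 2) else 1) * ca m q k) =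
      (if b then harmonic (k / 2) else 1) * (if Even k then (k.choose (k / 2) : ℚ) * ((m : ℚ) / q) ^ k else 0) := by
    intro k
    rw [cf, coeff_mk, ← cf_ca]
    ring
  set C : ℝ := 4 * (m + 1) * q * 2 ^ 8 with hC
  have hm1 : (1 : ℝ) ≤ (m : ℝ) + 1 := by linarith [show (0 : ℝ) ≤ m by positivity]
  have hmq : (1 : ℝ) ≤ (m + 1) * q := one_le_mul_of_one_le_of_one_le hm1 hq1
  have hC1 : 1 ≤ C := by rw [hC]; nlinarith
  refine ⟨C, hC1, fun k => ?_, fun k => ⟨q ^ k * Nat.lcmUpto k, ?_, ?_, fun j hj => ?_⟩⟩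
  · rw [hcf]
    have h1 : |(((if b then harmonic (k / 2) else 1 : ℚ)) : ℝ)| ≤ 2 ^ k := by
      have h2 : (1 : ℝ) ≤ 2 ^ k := one_le_pow₀ one_le_two
      split_ifs
      · rw [abs_of_nonneg (by exact_mod_cast harmonic_nonneg' _)]
        have h3 : ((harmonic (k / 2) : ℚ) : ℝ) ≤ ((k / 2 : ℕ) : ℝ) := by exact_mod_cast harmonic_le' _
        have h4 : ((k / 2 : ℕ) : ℝ) ≤ 2 ^ k := by
          have := (Nat.lt_two_pow_self (n := k)).le
          exact_mod_cast (Nat.div_le_self k 2).trans this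
        exact h3.trans h4
      · simpa using h2
    have h5 : |(((if Even k then (k.choose (k / 2) : ℚ) * ((m : ℚ) / q) ^ k else 0 : ℚ)) : ℝ)| ≤
        2 ^ k * (m + 1) ^ k := by
      split_ifs
      · push_cast
        rw [abs_mul, Nat.abs_cast, abs_pow, abs_div, Nat.abs_cast, Nat.abs_cast]
        have h6 : ((k.choose (k / 2) : ℕ) : ℝ) ≤ 2 ^ k := by exact_mod_cast Nat.choose_le_two_pow k (k / 2)
        refine mul_le_mul h6 (pow_le_pow_left₀ (by positivity) ?_ _) (by positivity) (by positivity)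
        calc (m : ℝ) / q ≤ m := div_le_self (by positivity) hq1
          _ ≤ m + 1 := by linarith
      · simp only [Rat.cast_zero, abs_zero]; positivity
    push_cast at h1 h5 ⊢
    rw [abs_mul]
    calc _ ≤ (2 : ℝ) ^ k * (2 ^ k * (m + 1) ^ k) := mul_le_mul h1 h5 (abs_nonneg _) (by positivity)
      _ = (4 * (m + 1)) ^ k := by rw [← mul_assoc, ← mul_pow, ← mul_pow]; norm_num
      _ ≤ C ^ k := by
        refine pow_le_pow_left₀ (by positivity) ?_ _
        rw [hC]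
        nlinarith
      _ ≤ C ^ (k + 1) := pow_le_pow_right₀ hC1 (by omega)
  · exact Nat.mul_pos (by positivity) (Nat.lcmUpto_pos k)
  · push_cast
    calc (q : ℝ) ^ k * (Nat.lcmUpto k : ℝ) ≤ (4 * (m + 1) * q) ^ k * (2 ^ 8) ^ k := by
          refine mul_le_mul (pow_le_pow_left₀ (by positivity) (by nlinarith) _) (lcm_bound k) (by positivity)
            (by positivity)
      _ = C ^ k := by rw [hC, mul_pow (4 * ((m : ℝ) + 1) * q)]
      _ ≤ C ^ (k + 1) := pow_le_pow_right₀ hC1 (by omega)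
  · rw [hcf]
    have h1 : ∃ a : ℤ, (Nat.lcmUpto k : ℚ) * (if b then harmonic (j / 2) else 1) = a := by
      split_ifs
      · exact harmonic_den ((Nat.div_le_self j 2).trans hj)
      · exact ⟨Nat.lcmUpto k, by simp⟩
    obtain ⟨a, ha⟩ := h1
    have h2 : ∃ c : ℤ, (q : ℚ) ^ k * (if Even j then (j.choose (j / 2) : ℚ) * ((m : ℚ) / q) ^ j else 0) = c := by
      split_ifs
      · refine ⟨(j.choose (j / 2) : ℤ) * m ^ j * q ^ (k - j), ?_⟩
        have h3 : (q : ℚ) ^ k = q ^ (k - j) * q ^ j := by rw [← pow_add]; congr 1; omega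
        push_cast
        rw [h3, div_pow]
        field_simp
      · exact ⟨0, by simp⟩
    obtain ⟨c, hc⟩ := h2
    refine ⟨a * c, ?_⟩
    push_cast
    rw [← ha, ← hc]
    ring

lemma EF_A (m : ℕ) {q : ℕ} (hq : 1 ≤ q) : EF (SA m q) := by
  have h := EF_SH m hq false
  have e : SA m q = PowerSeries.mk fun k => (if (false : Bool) = true then harmonic (k / 2) else 1) * ca m q k := by
    rw [SA]; congr 1; funext k; simp
  rw [e]; exact h

lemma EF_H (m : ℕ) {q : ℕ} (hq : 1 ≤ q) : EF (SH m q) := by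
  have h := EF_SH m hq true
  have e : SH m q = PowerSeries.mk fun k => (if (true : Bool) = true then harmonic (k / 2) else 1) * ca m q k := by
    rw [SH]; congr 1
  rw [e]; exact h

lemma EF_B (m : ℕ) {q : ℕ} (hq : 1 ≤ q) : EF (SB m q) := EF_D (EF_A m hq) hq

lemma EF_G (m : ℕ) {q : ℕ} (hq : 1 ≤ q) : EF (SG m q) := by
  have h : SG m q = (TQ q : ℚ⟦X⟧) * d⁄dX ℚ (SH m q) + ((-(q : ℤ) : ℤ) : ℚ⟦X⟧) * SA m q := by
    rw [SG]; push_cast; ring
  rw [h]
  exact EF_add (EF_D (EF_H m hq) hq) ((EF_int _).mul (EF_A m hq))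

end Pool.Agent.J6H23.Bes
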