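import Pool.Agent.J6H23.Bes.Fld
import Pool.Agent.J6H54.LG.Mat

/-!
# Algebraic independence of a solution of a linear equation, its derivative and an integral
-/

set_option autoImplicit false

open Polynomial Set
open scoped IntermediateField

namespace Pool.Agent.J6H23.Bes

open Pool.Agent.J6H54.LG (Mk clR subset_clR clR_mono clR_le)

/-- as many elements spanning independent elements are independent -/
lemma indep_of_spanE {R E : Type*} [Field R] [Field E] [Algebra R E] {ι κ : Type*} [Fintype ι] [Fintype κ]
    {x : ι → E} (hx : AlgebraicIndependent R x) {y : κ → E} (h : ∀ i, x i ∈ clR R (range y))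
    (hc : Fintype.card κ ≤ Fintype.card ι) : AlgebraicIndependent R y := by
  have h1 : (Fintype.card ι : ℕ∞) ≤ (Mk R E).eRk (range y) := by
    have h1 : (Mk R E).Indep (range x) := hx.to_subtype_range
    have h2 : range x ⊆ (Mk R E).closure (range y) := by
      rintro _ ⟨i, rfl⟩
      exact h i
    calc (Fintype.card ι : ℕ∞) = (range x).encard := by
          rw [← image_univ, hx.injective.injOn.encard_image, encard_univ, ENat.card_eq_coe_fintype_card]
      _ ≤ (Mk R E).eRk ((Mk R E).closure (range y)) := h1.encard_le_eRk_of_subset h2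
      _ = (Mk R E).eRk (range y) := Matroid.eRk_closure_eq (Mk R E) _
  have h2 : (range y).encard ≤ Fintype.card κ := by
    rw [← image_univ, ← ENat.card_eq_coe_fintype_card, ← encard_univ]
    exact encard_image_le _ _
  have h3 : (Fintype.card κ : ℕ∞) ≤ (range y).encard :=
    (by exact_mod_cast hc : (Fintype.card κ : ℕ∞) ≤ Fintype.card ι).trans
      (h1.trans (Matroid.eRk_le_encard _ _))
  have hfin : (range y).Finite := finite_range _
  have h4 : (Mk R E).Indep (range y) := by
    refine ((Mk R E).isRkFinite_of_finite hfin).indep_of_encard_le_eRk ?_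
    exact h2.trans ((by exact_mod_cast hc : (Fintype.card κ : ℕ∞) ≤ Fintype.card ι).trans h1)
  have hinj : Function.Injective y := by
    rw [← injOn_univ]
    refine Finite.injOn_of_encard_image_eq finite_univ ?_
    rw [image_univ]
    refine le_antisymm (h2.trans ?_) ?_
    · rw [encard_univ, ENat.card_eq_coe_fintype_card]
    · rw [encard_univ, ENat.card_eq_coe_fintype_card]; exact h3
  exact (algebraicIndependent_subtype_range hinj).1 h4

/-- transcendence over a field implies transcendence over subrings -/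
lemma tr_of_le {S F L : Type*} [CommRing S] [Field F] [Field L] [Algebra S L] [Algebra F L]
    (h : ∀ s : S, algebraMap S L s ∈ range (algebraMap F L)) (hinj : Function.Injective (algebraMap S L))
    {x : L} (hx : Transcendental F x) : Transcendental S x := by
  rintro ⟨p, hp0, hp⟩
  have h1 : p.map (algebraMap S L) ∈ lifts (algebraMap F L) := by
    rw [lifts_iff_coeff_lifts]
    intro n
    rw [coeff_map]
    exact h _
  obtain ⟨p', hp'⟩ := (mem_lifts _).1 h1
  apply hx
  refine ⟨p', ?_, ?_⟩
  · rintro rfl
    rw [Polynomial.map_zero] at hp'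
    exact hp0 (map_injective _ hinj (hp'.symm.trans (Polynomial.map_zero _).symm))
  · rw [← aeval_map_algebraMap L, hp', aeval_map_algebraMap]
    exact hp

variable {K L : Type*} [Field K] [Field L] [Algebra K L] {δ : Derivation ℤ K K} {θ : Derivation ℤ L L}

/-- **algebraic independence** -/
theorem indep_ABH [CharZero K] (h : Com δ θ) {κ : K} {A B H : L} {q : ℕ} (hA : θ A = B)
    (hB : θ B = algebraMap K L κ * A) (hA0 : A ≠ 0) (hH : θ (H / A) = q * (1 - A⁻¹ ^ 2))
    (p1 : ∀ (φ : L) (n : ℕ), n ≠ 0 → θ φ ≠ n * A⁻¹ ^ 2) (p2 : ∀ φ : L, θ φ ≠ 3 * q)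
    (hnot : B / A ∉ Set.range (algebraMap K L)) :
    AlgebraicIndependent K (fun o : Option (Fin 2) => o.elim A ![B, H]) := by
  obtain ⟨u, hu⟩ : ∃ u, u = B / A := ⟨_, rfl⟩
  have hBu : B = u * A := by rw [hu]; field_simp
  have hθu : θ u = algebraMap K L κ - u ^ 2 := by
    rw [hu, Derivation.leibniz_div, hA, hB]
    simp only [smul_eq_mul]
    field_simp
  rw [← hu] at hnot
  have hθA : θ A = u * A := by rw [hA, hBu]
  have t1 := tr_u h hθu hθA hA0 p1 hnot
  have t2 := tr_A h hθu hθA hA0 p1 hnot
  have t3 := tr_h h hθu hθA hA0 hH p1 p2 hnot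
  -- the chain
  have i1 : AlgebraicIndependent K (fun _ : Unit => u) :=
    algebraicIndependent_unique_type_iff.2 t1
  have hadj1 : ∀ s : Algebra.adjoin K (range fun _ : Unit => u), (s : L) ∈ K⟮u⟯ := by
    intro s
    have h1 : Algebra.adjoin K (range fun _ : Unit => u) ≤ K⟮u⟯.toSubalgebra := by
      rw [Algebra.adjoin_le_iff]
      rintro _ ⟨_, rfl⟩
      exact IntermediateField.mem_adjoin_simple_self K u
    exact h1 s.2
  have i2 : AlgebraicIndependent K (fun o : Option Unit => o.elim A (fun _ => u)) := by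
    rw [i1.option_iff_transcendental]
    exact tr_of_le (S := Algebra.adjoin K (range fun _ : Unit => u)) (F := K⟮u⟯)
      (fun s => ⟨⟨(s : L), hadj1 s⟩, rfl⟩) Subtype.val_injective t2
  have hadj2 : ∀ s : Algebra.adjoin K (range fun o : Option Unit => o.elim A (fun _ => u)),
      (s : L) ∈ K⟮u⟯⟮A⟯ := by
    intro s
    have h1 : Algebra.adjoin K (range fun o : Option Unit => o.elim A (fun _ => u)) ≤
        (K⟮u⟯⟮A⟯.restrictScalars K).toSubalgebra := by
      rw [Algebra.adjoin_le_iff]
      rintro _ ⟨o, rfl⟩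
      rcases o with _ | _
      · exact IntermediateField.mem_adjoin_simple_self K⟮u⟯ A
      · exact (K⟮u⟯⟮A⟯).algebraMap_mem ⟨u, IntermediateField.mem_adjoin_simple_self K u⟩
    exact h1 s.2
  have i3 : AlgebraicIndependent K (fun o : Option (Option Unit) => o.elim (H / A)
      (fun o : Option Unit => o.elim A (fun _ => u))) := by
    rw [i2.option_iff_transcendental]
    exact tr_of_le (S := Algebra.adjoin K (range fun o : Option Unit => o.elim A (fun _ => u)))
      (F := K⟮u⟯⟮A⟯) (fun s => ⟨⟨(s : L), hadj2 s⟩, rfl⟩) Subtype.val_injective t3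
  refine indep_of_spanE i3 (fun o => ?_) (by simp)
  have hAm : A ∈ clR K (range fun o : Option (Fin 2) => o.elim A ![B, H]) := subset_clR _ ⟨none, rfl⟩
  have hBm : B ∈ clR K (range fun o : Option (Fin 2) => o.elim A ![B, H]) := subset_clR _ ⟨some 0, rfl⟩
  have hHm : H ∈ clR K (range fun o : Option (Fin 2) => o.elim A ![B, H]) := subset_clR _ ⟨some 1, rfl⟩
  rcases o with _ | _ | _
  · exact (clR K _).div_mem hHm hAm
  · exact hAm
  · show u ∈ _
    rw [hu]
    exact (clR K _).div_mem hBm hAm

end Pool.Agent.J6H23.Bes
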