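import Pool.Agent.J6H23.Bes.Fld
import Pool.Agent.R352.E.Sys

/-!
# The derivation `q z d/dz` on the field of Laurent series
-/

set_option autoImplicit false

namespace Pool.Agent.J6H23.Bes

open Pool.Agent.R352.E (TQ TQ_eq)

/-- the field of Laurent series -/
def LL : Type := LaurentSeries ℚ

noncomputable instance : Field LL := inferInstanceAs (Field (LaurentSeries ℚ))

/-- the coefficients -/
noncomputable def co (f : LL) (n : ℤ) : ℚ := HahnSeries.coeff (f : LaurentSeries ℚ) n

lemma co_ext {f g : LL} (h : ∀ n, co f n = co g n) : f = g := HahnSeries.ext (funext h)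

lemma co_add (f g : LL) (n : ℤ) : co (f + g) n = co f n + co g n := rfl

/-- `q n a_n` -/
noncomputable def thF (q : ℕ) (f : LL) : LL :=
  ({ coeff := fun n => (q : ℚ) * ((n : ℚ) * co f n)
     isPWO_support' := (HahnSeries.isPWO_support' (f : LaurentSeries ℚ)).mono (by
      intro n hn
      rw [Function.mem_support] at hn ⊢
      intro h
      apply hn
      have h1 : co f n = 0 := h
      rw [h1, mul_zero, mul_zero]) } : LaurentSeries ℚ)

lemma co_thF (q : ℕ) (f : LL) (n : ℤ) : co (thF q f) n = (q : ℚ) * ((n : ℚ) * co f n) := rfl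

lemma supp_thF (q : ℕ) (f : LL) (n : ℤ) (hn : co (thF q f) n ≠ 0) : co f n ≠ 0 := by
  intro h
  apply hn
  rw [co_thF, h, mul_zero, mul_zero]

lemma thF_mul (q : ℕ) (x y : LL) : thF q (x * y) = x * thF q y + y * thF q x := by
  apply co_ext
  intro n
  rw [mul_comm y, co_add, co_thF]
  have h1 : co (x * y) n = ∑ ij ∈ Finset.antidiagonal (HahnSeries.isPWO_support (x : LaurentSeries ℚ))
      (HahnSeries.isPWO_support (y : LaurentSeries ℚ)) n, co x ij.1 * co y ij.2 := HahnSeries.coeff_mul
  have h2 : co (x * thF q y) n = ∑ ij ∈ Finset.antidiagonal (HahnSeries.isPWO_support (x : LaurentSeries ℚ))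
      (HahnSeries.isPWO_support (y : LaurentSeries ℚ)) n, co x ij.1 * co (thF q y) ij.2 :=
    HahnSeries.coeff_mul_right' _ (fun n hn => supp_thF q y n hn)
  have h3 : co (thF q x * y) n = ∑ ij ∈ Finset.antidiagonal (HahnSeries.isPWO_support (x : LaurentSeries ℚ))
      (HahnSeries.isPWO_support (y : LaurentSeries ℚ)) n, co (thF q x) ij.1 * co y ij.2 :=
    HahnSeries.coeff_mul_left' _ (fun n hn => supp_thF q x n hn)
  rw [h1, h2, h3, ← Finset.sum_add_distrib, Finset.mul_sum, Finset.mul_sum]
  refine Finset.sum_congr rfl fun ij hij => ?_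
  rw [Finset.mem_antidiagonal] at hij
  rw [co_thF, co_thF, ← hij.2.2]
  push_cast
  ring

/-- the derivation `q z d/dz` -/
noncomputable def th (q : ℕ) : Derivation ℤ LL LL :=
  Derivation.mk'
    (AddMonoidHom.toIntLinearMap
      { toFun := thF q
        map_zero' := by
          apply co_ext
          intro n
          rw [co_thF]
          have : co (0 : LL) n = 0 := rfl
          rw [this, mul_zero, mul_zero]
        map_add' := fun x y => by
          apply co_ext
          intro n
          simp only [co_thF, co_add]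
          ring })
    (fun x y => thF_mul q x y)

lemma th_apply (q : ℕ) (f : LL) : th q f = thF q f := rfl

/-- the embedding of the power series -/
noncomputable def io : PowerSeries ℚ →+* LL := HahnSeries.ofPowerSeries ℤ ℚ

lemma io_inj : Function.Injective io := HahnSeries.ofPowerSeries_injective

lemma co_io (f : PowerSeries ℚ) (n : ℤ) :
    co (io f) n = if n < 0 then 0 else PowerSeries.coeff n.natAbs f := by
  exact PowerSeries.coeff_coe f n

lemma th_io (q : ℕ) (f : PowerSeries ℚ) :
    th q (io f) = io ((TQ q : PowerSeries ℚ) * PowerSeries.derivative ℚ f) := by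
  apply co_ext
  intro n
  rw [th_apply, co_thF, co_io, co_io]
  split_ifs with h
  · rw [mul_zero, mul_zero]
  · obtain ⟨m, rfl⟩ := Int.eq_ofNat_of_zero_le (not_lt.1 h)
    rw [Int.natAbs_natCast, TQ_eq, mul_assoc]
    have h2 : ((q : PowerSeries ℚ)) = PowerSeries.C (q : ℚ) := by simp
    rw [h2, PowerSeries.coeff_C_mul]
    congr 1
    rcases m with _ | m
    · simp
    · rw [PowerSeries.coeff_succ_X_mul, PowerSeries.coeff_derivative]
      push_cast
      ring

lemma co_th_zero (q : ℕ) (φ : LL) : co (th q φ) 0 = 0 := by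
  rw [th_apply, co_thF]; simp

lemma io_nat (n : ℕ) : io (PowerSeries.C (n : ℚ)) = n := by
  have : (PowerSeries.C (n : ℚ)) = (n : PowerSeries ℚ) := by simp
  rw [this, map_natCast]

lemma th_p2 {q : ℕ} (hq : 1 ≤ q) (φ : LL) : th q φ ≠ 3 * q := by
  intro h
  have h1 := congrArg (fun f : LL => co f 0) h
  simp only [co_th_zero] at h1
  have h2 : (3 * (q : LL)) = io (PowerSeries.C ((3 * q : ℕ) : ℚ)) := by
    rw [io_nat]; push_cast; ring
  rw [h2, co_io, if_neg (by norm_num), Int.natAbs_zero, PowerSeries.coeff_zero_C] at h1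
  have h3 : 3 * q = 0 := by exact_mod_cast h1.symm
  omega

lemma th_p1 {q : ℕ} {A : PowerSeries ℚ} (hA : PowerSeries.constantCoeff A = 1) (φ : LL) (n : ℕ) (hn : n ≠ 0) :
    th q φ ≠ n * (io A)⁻¹ ^ 2 := by
  intro h
  have h1 := congrArg (fun f : LL => co f 0) h
  simp only [co_th_zero] at h1
  have hAA : A * A⁻¹ = 1 := PowerSeries.mul_inv_cancel A (by rw [hA]; exact one_ne_zero)
  have hinv : (io A)⁻¹ = io A⁻¹ := by
    have h3 : io A * io A⁻¹ = 1 := by rw [← map_mul, hAA, map_one]
    exact (eq_inv_of_mul_eq_one_right h3).symm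
  have h2 : ((n : LL) * (io A)⁻¹ ^ 2) = io (PowerSeries.C (n : ℚ) * A⁻¹ ^ 2) := by
    rw [hinv, map_mul, map_pow, io_nat]
  rw [h2, co_io, if_neg (by norm_num), Int.natAbs_zero, PowerSeries.coeff_C_mul,
    PowerSeries.coeff_zero_eq_constantCoeff_apply, map_pow, PowerSeries.constantCoeff_inv, hA] at h1
  simp only [inv_one, one_pow, mul_one] at h1
  exact hn (by exact_mod_cast h1.symm)

end Pool.Agent.J6H23.Bes
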