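import Pool.Agent.R352.E.Sys

/-!
# The Riccati equation has no solution in the field of a tower
-/

set_option autoImplicit false
set_option linter.unusedSectionVars false

open MvPolynomial

namespace Pool.Agent.J6H23.Bes

open Pool.Agent.R352.E

section Lex

variable {σ : Type} [Fintype σ] [LinearOrder σ]

/-- the exponents are at most `M` -/
def Bd (P : MvPolynomial σ ℚ) (M : Lex (σ →₀ ℕ)) : Prop := ∀ s, coeff s P ≠ 0 → toLex s ≤ M

/-- the exponents are smaller than `M` -/
def Bs (P : MvPolynomial σ ℚ) (M : Lex (σ →₀ ℕ)) : Prop := ∀ s, coeff s P ≠ 0 → toLex s < M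

lemma Bs.bd {P : MvPolynomial σ ℚ} {M : Lex (σ →₀ ℕ)} (h : Bs P M) : Bd P M := fun s hs => (h s hs).le

lemma Bd.lt {P : MvPolynomial σ ℚ} {M N : Lex (σ →₀ ℕ)} (h : Bd P M) (hMN : M < N) : Bs P N :=
  fun s hs => (h s hs).trans_lt hMN

lemma Bd.add {P Q : MvPolynomial σ ℚ} {M : Lex (σ →₀ ℕ)} (hP : Bd P M) (hQ : Bd Q M) : Bd (P + Q) M := by
  intro s hs
  rw [coeff_add] at hs
  by_cases h : coeff s P = 0
  · rw [h, zero_add] at hs
    exact hQ s hs
  · exact hP s h

lemma Bs.add {P Q : MvPolynomial σ ℚ} {M : Lex (σ →₀ ℕ)} (hP : Bs P M) (hQ : Bs Q M) : Bs (P + Q) M := by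
  intro s hs
  rw [coeff_add] at hs
  by_cases h : coeff s P = 0
  · rw [h, zero_add] at hs
    exact hQ s hs
  · exact hP s h

lemma exists_mul {P Q : MvPolynomial σ ℚ} {s : σ →₀ ℕ} (hs : coeff s (P * Q) ≠ 0) :
    ∃ a b, a + b = s ∧ coeff a P ≠ 0 ∧ coeff b Q ≠ 0 := by
  classical
  rw [coeff_mul] at hs
  obtain ⟨x, hx, hx2⟩ := Finset.exists_ne_zero_of_sum_ne_zero hs
  exact ⟨x.1, x.2, Finset.HasAntidiagonal.mem_antidiagonal.1 hx, left_ne_zero_of_mul hx2, right_ne_zero_of_mul hx2⟩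

lemma Bd.mul {P Q : MvPolynomial σ ℚ} {M N : Lex (σ →₀ ℕ)} (hP : Bd P M) (hQ : Bd Q N) : Bd (P * Q) (M + N) := by
  intro s hs
  obtain ⟨a, b, rfl, ha, hb⟩ := exists_mul hs
  exact add_le_add (hP a ha) (hQ b hb)

lemma Bd.mul_lt {P Q : MvPolynomial σ ℚ} {M N : Lex (σ →₀ ℕ)} (hP : Bd P M) (hQ : Bs Q N) : Bs (P * Q) (M + N) := by
  intro s hs
  obtain ⟨a, b, rfl, ha, hb⟩ := exists_mul hs
  exact add_lt_add_of_le_of_lt (hP a ha) (hQ b hb)

lemma coeff_lead {P Q : MvPolynomial σ ℚ} {M N : Lex (σ →₀ ℕ)} (hP : Bd P M) (hQ : Bd Q N) :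
    coeff (ofLex M + ofLex N) (P * Q) = coeff (ofLex M) P * coeff (ofLex N) Q := by
  classical
  rw [coeff_mul, Finset.sum_eq_single (ofLex M, ofLex N)]
  · rintro ⟨a, b⟩ hab hne
    rw [Finset.HasAntidiagonal.mem_antidiagonal] at hab
    by_contra h
    have ha := hP a (left_ne_zero_of_mul h)
    have hb := hQ b (right_ne_zero_of_mul h)
    have hsum : toLex a + toLex b = M + N := by
      have := congrArg toLex hab
      exact this
    apply hne
    have h1 : toLex a = M := by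
      refine le_antisymm ha ?_
      by_contra hlt
      have := add_lt_add_of_lt_of_le (not_le.1 hlt) hb
      exact absurd hsum this.ne
    have h2 : toLex b = N := by
      rw [h1] at hsum
      exact add_left_cancel hsum
    rw [← h1, ← h2]
    rfl
  · intro h
    rw [Finset.HasAntidiagonal.mem_antidiagonal] at h
    exact absurd rfl h

lemma Bs.coeff {P : MvPolynomial σ ℚ} {M : Lex (σ →₀ ℕ)} (hP : Bs P M) : coeff (ofLex M) P = 0 := by
  by_contra h
  exact lt_irrefl _ (hP _ h)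

lemma Bd_C (a : ℚ) (M : Lex (σ →₀ ℕ)) (hM : 0 ≤ M) : Bd (C a) M := by
  classical
  intro s hs
  rw [coeff_C] at hs
  have h : (0 : σ →₀ ℕ) = s := by
    by_contra h
    rw [if_neg h] at hs
    exact hs rfl
  rw [← h]
  exact hM

lemma Bd_X (i : σ) : Bd (X i : MvPolynomial σ ℚ) (toLex (Finsupp.single i 1)) := by
  classical
  intro s hs
  rw [coeff_X'] at hs
  have h : Finsupp.single i 1 = s := by
    by_contra h
    rw [if_neg h] at hs
    exact hs rfl
  rw [h]

lemma exists_lead {P : MvPolynomial σ ℚ} (hP : P ≠ 0) : ∃ M : Lex (σ →₀ ℕ), Bd P M ∧ coeff (ofLex M) P ≠ 0 := by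
  classical
  have hne : P.support.Nonempty := support_nonempty.2 hP
  have hne' : (P.support.image (toLex : (σ →₀ ℕ) → Lex (σ →₀ ℕ))).Nonempty := hne.image _
  refine ⟨(P.support.image (toLex : (σ →₀ ℕ) → Lex (σ →₀ ℕ))).max' hne', fun s hs =>
    Finset.le_max' _ _ (Finset.mem_image_of_mem _ (mem_support_iff.2 hs)), ?_⟩
  have h := Finset.max'_mem _ hne'
  rw [Finset.mem_image] at h
  obtain ⟨s, hs, hsM⟩ := h
  rw [← hsM]
  exact mem_support_iff.1 hs

variable (t : Tw σ) (q : ℕ)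

/-- the exponent of `z` -/
noncomputable def ez : Lex (σ →₀ ℕ) := toLex (Finsupp.single t.z 1)

lemma ez_pos : 0 < ez t := by
  rw [ez, Finsupp.Lex.lt_iff]
  refine ⟨t.z, fun j hj => ?_, ?_⟩
  · simp only [ofLex_toLex, ofLex_zero, Finsupp.zero_apply]
    rw [Finsupp.single_apply, if_neg hj.ne']
  · simp

lemma Bd_lam (d j : ℕ) : Bd (t.lam q d j) (ez t) := by
  rw [Tw.lam, sub_eq_add_neg, ← neg_mul]
  refine (Bd_C _ _ (ez_pos t).le).add ?_
  have h : (-(C (j : ℚ)) : MvPolynomial σ ℚ) = C (-(j : ℚ)) := by rw [C_neg]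
  rw [h]
  have := (Bd_C (-(j : ℚ)) (0 : Lex (σ →₀ ℕ)) le_rfl).mul (Bd_X t.z)
  rwa [zero_add] at this

lemma Bd_D {P : MvPolynomial σ ℚ} {M : Lex (σ →₀ ℕ)} (hP : Bd P M) : Bd (t.D q P) (M + ez t) := by
  have h1 : Bs (t.D q P - t.lam q (ofLex M t.z) (ofLex M t.w) * P) M := fun s hs =>
    t.step q (M := ofLex M) (P := P) hP s hs
  have h2 : t.D q P = (t.D q P - t.lam q (ofLex M t.z) (ofLex M t.w) * P) +
      t.lam q (ofLex M t.z) (ofLex M t.w) * P := by ring
  rw [h2]
  refine Bd.add ?_ ?_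
  · exact (h1.bd).lt (lt_add_of_pos_right M (ez_pos t)) |>.bd
  · have := (Bd_lam t q (ofLex M t.z) (ofLex M t.w)).mul hP
    rwa [add_comm] at this

/-- exponents at most the exponent of `z` -/
lemma le_ez {s : σ →₀ ℕ} (h : toLex s ≤ ez t) : s = 0 ∨ s = Finsupp.single t.z 1 := by
  rcases h.eq_or_lt with h1 | h1
  · right
    exact toLex.injective h1
  · left
    rw [ez, Finsupp.Lex.lt_iff] at h1
    obtain ⟨i, hi1, hi2⟩ := h1
    simp only [ofLex_toLex] at hi1 hi2
    have hiz : i = t.z := by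
      by_contra hne
      rw [Finsupp.single_apply, if_neg (Ne.symm hne)] at hi2
      exact absurd hi2 (Nat.not_lt_zero _)
    rw [hiz] at hi1 hi2
    rw [Finsupp.single_eq_same] at hi2
    ext j
    rw [Finsupp.zero_apply]
    by_cases hj : j = t.z
    · rw [hj]; omega
    · have hjz : j < t.z := lt_of_le_of_lt (t.htop j hj) t.hwz
      rw [hi1 j hjz, Finsupp.single_apply, if_neg (Ne.symm hj)]

lemma eq_of_le_ez {S : MvPolynomial σ ℚ} (hS : Bd S (ez t)) : ∃ a b : ℚ, S = C b + C a * X t.z := by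
  classical
  refine ⟨coeff (Finsupp.single t.z 1) S, coeff 0 S, ?_⟩
  ext s
  rw [coeff_add, coeff_C, coeff_C_mul, coeff_X']
  by_cases hs : coeff s S = 0
  · rw [hs]
    by_cases h0 : (0 : σ →₀ ℕ) = s
    · rw [if_pos h0, if_neg, h0, hs]
      · simp
      · rw [← h0]
        intro h
        have := congrArg (fun f : σ →₀ ℕ => f t.z) h
        simp at this
    · rw [if_neg h0]
      split_ifs with h1
      · rw [h1, hs]; simp
      · simp
  · rcases le_ez t (hS s hs) with rfl | rfl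
    · rw [if_pos rfl, if_neg]
      · simp
      · intro h
        have := congrArg (fun f : σ →₀ ℕ => f t.z) h
        simp at this
    · rw [if_pos rfl, if_neg]
      · simp
      · intro h
        have := congrArg (fun f : σ →₀ ℕ => f t.z) h
        simp at this

/-- **no polynomial solutions** -/
theorem no_sol {c : ℚ} (hc : c ≠ 0) {Q S : MvPolynomial σ ℚ} (hQ : Q ≠ 0)
    (hE : t.D q (t.D q Q) + 2 * S * t.D q Q + (t.D q S + S ^ 2 - C c * X t.z ^ 2) * Q = 0) :
    ∃ a b : ℚ, S = C b + C a * X t.z ∧ ∃ d : ℕ, 2 * ((q : ℚ) * d + b) + q = 0 := by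
  obtain ⟨M, hM, hM0⟩ := exists_lead hQ
  have hDQ := Bd_D t q hM
  have hDDQ := Bd_D t q hDQ
  have hX : Bd (X t.z : MvPolynomial σ ℚ) (ez t) := Bd_X t.z
  have hXX : Bd (X t.z ^ 2 : MvPolynomial σ ℚ) (ez t + ez t) := by rw [sq]; exact hX.mul hX
  have hCXX : ∀ c : ℚ, Bd (C c * X t.z ^ 2 : MvPolynomial σ ℚ) (ez t + ez t) := by
    intro c
    have := (Bd_C c (0 : Lex (σ →₀ ℕ)) le_rfl).mul hXX
    rwa [zero_add] at this
  have hz := ez_pos t
  -- the degree of `S`
  have hS : Bd S (ez t) := by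
    by_contra hcon
    have hS0 : S ≠ 0 := by
      rintro rfl
      apply hcon
      intro s hs
      simp at hs
    obtain ⟨N, hN, hN0⟩ := exists_lead hS0
    have hzN : ez t < N := by
      by_contra hle
      exact hcon fun s hs => (hN s hs).trans (not_lt.1 hle)
    have hDS := Bd_D t q hN
    have h1 : Bs (t.D q (t.D q Q)) (N + N + M) := by
      refine hDDQ.lt ?_
      have e : M + ez t + ez t = ez t + ez t + M := by abel
      rw [e]
      exact add_lt_add_of_lt_of_le (add_lt_add hzN hzN) le_rfl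
    have h2 : Bs (2 * S * t.D q Q) (N + N + M) := by
      have e0 : (2 * S * t.D q Q : MvPolynomial σ ℚ) = C 2 * (S * t.D q Q) := by
        have : (C (2 : ℚ) : MvPolynomial σ ℚ) = 2 := map_ofNat C 2
        rw [this]; ring
      rw [e0]
      have := (Bd_C 2 (0 : Lex (σ →₀ ℕ)) le_rfl).mul (hN.mul hDQ)
      refine this.lt ?_
      have e : 0 + (N + (M + ez t)) = N + ez t + M := by abel
      rw [e]
      exact add_lt_add_of_lt_of_le (add_lt_add_of_le_of_lt le_rfl hzN) le_rfl
    have h3 : Bs (t.D q S * Q) (N + N + M) := by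
      refine (hDS.mul hM).lt ?_
      exact add_lt_add_of_lt_of_le (add_lt_add_of_le_of_lt le_rfl hzN) le_rfl
    have h4 : Bs (C (-c) * X t.z ^ 2 * Q) (N + N + M) := by
      refine ((hCXX (-c)).mul hM).lt ?_
      exact add_lt_add_of_lt_of_le (add_lt_add hzN hzN) le_rfl
    have h5 := ((h1.add h2).add h3).add h4
    have h6 : coeff (ofLex (N + N) + ofLex M) (S * S * Q) ≠ 0 := by
      rw [coeff_lead (hN.mul hN) hM]
      have : coeff (ofLex (N + N)) (S * S) = coeff (ofLex N) S * coeff (ofLex N) S := coeff_lead hN hN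
      rw [this]
      exact mul_ne_zero (mul_ne_zero hN0 hN0) hM0
    apply h6
    have h7 : S * S * Q = -(t.D q (t.D q Q) + 2 * S * t.D q Q + t.D q S * Q + C (-c) * X t.z ^ 2 * Q) := by
      rw [C_neg]
      linear_combination hE
    rw [h7, coeff_neg]
    have := h5.coeff
    have e : ofLex (N + N) + ofLex M = ofLex (N + N + M) := rfl
    rw [e, this, neg_zero]
  obtain ⟨a, b, hab⟩ := eq_of_le_ez t hS
  refine ⟨a, b, hab, ofLex M t.z, ?_⟩
  obtain ⟨d, hd⟩ : ∃ d, d = ofLex M t.z := ⟨_, rfl⟩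
  obtain ⟨j, hj⟩ : ∃ j, j = ofLex M t.w := ⟨_, rfl⟩
  rw [← hd]
  obtain ⟨R₁, hR₁⟩ : ∃ R₁, R₁ = t.D q Q - t.lam q d j * Q := ⟨_, rfl⟩
  have hR : Bs R₁ M := by
    rw [hR₁, hd, hj]
    exact fun s hs => t.step q (M := ofLex M) (P := Q) hM s hs
  have hDR : Bs (t.D q R₁) (M + ez t) := by
    by_cases h0 : R₁ = 0
    · rw [h0, map_zero]
      intro s hs
      simp at hs
    · obtain ⟨M₁, hM₁, hM₁0⟩ := exists_lead h0
      refine (Bd_D t q hM₁).lt ?_
      have : M₁ < M := hR _ hM₁0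
      exact add_lt_add_of_lt_of_le this le_rfl
  -- the identity
  obtain ⟨α, hα⟩ : ∃ α : ℚ, α = (a - j) ^ 2 - c := ⟨_, rfl⟩
  obtain ⟨β, hβ⟩ : ∃ β : ℚ, β = (a - j) * (2 * (q * d + b) + q) := ⟨_, rfl⟩
  have hX1 : t.D q (X t.z) = C (q : ℚ) * X t.z := t.D_z q
  have hDlam : t.D q (t.lam q d j) = -(C (j : ℚ) * (C (q : ℚ) * X t.z)) := by
    rw [Tw.lam, map_sub, derivation_C, C_mul', Derivation.map_smul, hX1, smul_eq_C_mul]
    ring
  have hDS' : t.D q S = C a * (C (q : ℚ) * X t.z) := by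
    rw [hab, map_add, derivation_C, C_mul', Derivation.map_smul, hX1, smul_eq_C_mul, zero_add]
  have hDQ' : t.D q Q = t.lam q d j * Q + R₁ := by rw [hR₁]; ring
  have hDDQ' : t.D q (t.D q Q) = -(C (j : ℚ) * (C (q : ℚ) * X t.z)) * Q +
      t.lam q d j * (t.lam q d j * Q + R₁) + t.D q R₁ := by
    rw [hDQ', map_add, Derivation.leibniz, hDlam, hDQ']
    simp only [smul_eq_mul]
    ring
  have hid : C α * (X t.z ^ 2 * Q) + C β * (X t.z * Q) + C ((q * d + b) ^ 2) * Q +
      ((C (q * d + 2 * b) + C (2 * a - j) * X t.z) * R₁ + t.D q R₁) = 0 := by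
    rw [← hE, hDDQ', hDS', hDQ', hab, Tw.lam, hα, hβ]
    simp only [C_mul, C_add, C_sub, C_pow]
    have h2 : (C (2 : ℚ) : MvPolynomial σ ℚ) = 2 := map_ofNat C 2
    rw [h2]
    ring
  have hB1 : Bd (C (q * d + 2 * b) + C (2 * a - j) * X t.z : MvPolynomial σ ℚ) (ez t) := by
    refine (Bd_C _ _ hz.le).add ?_
    have := (Bd_C (2 * a - j) (0 : Lex (σ →₀ ℕ)) le_rfl).mul hX
    rwa [zero_add] at this
  have hrest : Bs ((C (q * d + 2 * b) + C (2 * a - j) * X t.z) * R₁ + t.D q R₁) (M + ez t) := by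
    refine Bs.add ?_ hDR
    have := hB1.mul_lt hR
    rwa [add_comm (ez t) M] at this
  have hQs : Bs (C ((q * d + b) ^ 2) * Q) (M + ez t) := by
    have := (Bd_C ((q * d + b) ^ 2) (0 : Lex (σ →₀ ℕ)) le_rfl).mul hM
    rw [zero_add] at this
    exact this.lt (lt_add_of_pos_right M hz)
  have hXQ : Bd (X t.z * Q) (M + ez t) := by
    have := hX.mul hM
    rwa [add_comm] at this
  -- the first coefficient
  have hα0 : α = 0 := by
    have h1 := congrArg (coeff (ofLex (ez t + ez t) + ofLex M)) hid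
    have e : ofLex (ez t + ez t) + ofLex M = ofLex (M + ez t + ez t) := by
      have : M + ez t + ez t = ez t + ez t + M := by abel
      rw [this]; rfl
    have hlt : M + ez t < M + ez t + ez t := lt_add_of_pos_right _ hz
    rw [coeff_add, coeff_add, coeff_add, coeff_C_mul, coeff_C_mul, coeff_lead hXX hM, e,
      (hXQ.lt hlt).coeff, (hQs.bd.lt hlt).coeff, (hrest.bd.lt hlt).coeff, coeff_zero] at h1
    have h2 : coeff (ofLex (ez t + ez t)) (X t.z ^ 2 : MvPolynomial σ ℚ) = 1 := by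
      rw [sq]
      have : coeff (ofLex (ez t + ez t)) (X t.z * X t.z : MvPolynomial σ ℚ) =
          coeff (ofLex (ez t)) (X t.z) * coeff (ofLex (ez t)) (X t.z) := coeff_lead hX hX
      rw [this]
      have h3 : coeff (ofLex (ez t)) (X t.z : MvPolynomial σ ℚ) = 1 := by
        rw [ez, ofLex_toLex, coeff_X, if_pos rfl]
      rw [h3, one_mul]
    rw [h2, one_mul, mul_zero, add_zero, add_zero, add_zero] at h1
    exact (mul_eq_zero.1 h1).resolve_right hM0
  -- the second coefficient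
  have hβ0 : β = 0 := by
    have h1 := congrArg (coeff (ofLex (ez t) + ofLex M)) hid
    have e : ofLex (ez t) + ofLex M = ofLex (M + ez t) := by rw [add_comm M]; rfl
    rw [coeff_add, coeff_add, coeff_add, coeff_C_mul, coeff_C_mul, coeff_lead hX hM, e,
      hQs.coeff, hrest.coeff, coeff_zero, hα0] at h1
    have h3 : coeff (ofLex (ez t)) (X t.z : MvPolynomial σ ℚ) = 1 := by
      rw [ez, ofLex_toLex, coeff_X, if_pos rfl]
    rw [h3, one_mul, zero_mul, zero_add, add_zero, add_zero] at h1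
    exact (mul_eq_zero.1 h1).resolve_right hM0
  have haj : a - j ≠ 0 := by
    intro h0
    rw [h0] at hα
    apply hc
    rw [hα0] at hα
    linarith
  rw [hβ] at hβ0
  exact (mul_eq_zero.1 hβ0).resolve_left haj

end Lex

section Real

variable {σ : Type} [Fintype σ] [LinearOrder σ] {t : Tw σ} {q : ℕ} {f : σ → PowerSeries ℚ}

/-- the quotient `B / A` is not in the field of the tower -/
theorem not_rat (R : Real' t q f) {c : ℚ} (hc : c ≠ 0) {A B : PowerSeries ℚ}
    (hA : (TQ q : PowerSeries ℚ) * PowerSeries.derivative ℚ A = B)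
    (hB : (TQ q : PowerSeries ℚ) * PowerSeries.derivative ℚ B = PowerSeries.C c * PowerSeries.X ^ 2 * A)
    (hA0 : A ≠ 0) (P Q : MvPolynomial σ ℚ) (hQ : Q ≠ 0) (h : B * aeval f Q = A * aeval f P) : False := by
  have hinj := e_injective R
  obtain ⟨Q, P, w, hrel, rfl, rfl⟩ := UniqueFactorizationMonoid.exists_reduced_factors Q hQ P
  have hw0 : aeval f w ≠ 0 := by
    intro h0
    have := hinj (h0.trans (map_zero _).symm)
    rw [this, zero_mul] at hQ
    exact hQ rfl
  have hQ0 : Q ≠ 0 := by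
    rintro rfl
    rw [mul_zero] at hQ
    exact hQ rfl
  rw [map_mul, map_mul] at h
  have h1 : B * aeval f Q = A * aeval f P := by
    apply mul_left_cancel₀ hw0
    linear_combination h
  -- differentiate
  have h2 := congrArg (fun g => (TQ q : PowerSeries ℚ) * PowerSeries.derivative ℚ g) h1
  simp only [Derivation.leibniz, smul_eq_mul] at h2
  have h3 : PowerSeries.C c * PowerSeries.X ^ 2 * aeval f Q ^ 2 + aeval f P * aeval f (t.D q Q) =
      aeval f P ^ 2 + aeval f (t.D q P) * aeval f Q := by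
    apply mul_left_cancel₀ hA0
    rw [e_D R, e_D R]
    linear_combination (aeval f Q) * h2 - (aeval f Q) ^ 2 * hB + (aeval f Q) * (aeval f P) * hA -
      ((TQ q : PowerSeries ℚ) * PowerSeries.derivative ℚ (aeval f Q) - aeval f P) * h1
  have h4 : C c * X t.z ^ 2 * Q ^ 2 + P * t.D q Q = P ^ 2 + t.D q P * Q := by
    apply hinj
    simp only [map_add, map_mul, map_pow, aeval_X, R.hz, aeval_C]
    exact h3
  have h5 : Q ∣ (P - t.D q Q) := by
    have h6 : Q ∣ (P - t.D q Q) * P := by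
      refine ⟨C c * X t.z ^ 2 * Q - t.D q P, ?_⟩
      linear_combination -h4
    exact hrel.dvd_of_dvd_mul_right h6
  obtain ⟨S, hS⟩ := h5
  have hP : P = t.D q Q + Q * S := by rw [← hS]; ring
  have hE : t.D q (t.D q Q) + 2 * S * t.D q Q + (t.D q S + S ^ 2 - C c * X t.z ^ 2) * Q = 0 := by
    apply mul_left_cancel₀ hQ0
    rw [mul_zero]
    have h7 : t.D q P = t.D q (t.D q Q) + (Q * t.D q S + S * t.D q Q) := by
      conv_lhs => rw [hP]
      rw [map_add, Derivation.leibniz]
      rfl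
    rw [h7] at h4
    rw [hP] at h4
    linear_combination -h4
  obtain ⟨a, b, hab, d, hd⟩ := no_sol t q hc hQ0 hE
  -- the order at the origin
  obtain ⟨y, hy⟩ : ∃ y, y = aeval f Q := ⟨_, rfl⟩
  have hy0 : y ≠ 0 := by
    rw [hy]
    intro h0
    exact hQ0 (hinj (h0.trans (map_zero _).symm))
  have hEy := congrArg (aeval f) hE
  simp only [map_add, map_mul, map_sub, map_pow, aeval_X, R.hz, aeval_C, map_zero, map_ofNat] at hEy
  rw [hab] at hEy
  have hDS' : t.D q (C b + C a * X t.z) = C a * (C (q : ℚ) * X t.z) := by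
    rw [map_add, derivation_C, C_mul', Derivation.map_smul, t.D_z, smul_eq_C_mul, zero_add]
  rw [hDS', e_D R, e_D R, ← hy] at hEy
  simp only [map_add, map_mul, aeval_X, R.hz, aeval_C] at hEy
  set D1 := (TQ q : PowerSeries ℚ) * PowerSeries.derivative ℚ y with hD1
  set D2 := (TQ q : PowerSeries ℚ) * PowerSeries.derivative ℚ D1 with hD2
  have hcD : ∀ (g : PowerSeries ℚ) (n : ℕ), PowerSeries.coeff n ((TQ q : PowerSeries ℚ) * PowerSeries.derivative ℚ g) =
      (q : ℚ) * n * PowerSeries.coeff n g := by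
    intro g n
    rw [TQ_eq, mul_assoc]
    have h2 : ((q : PowerSeries ℚ)) = PowerSeries.C (q : ℚ) := by simp
    rw [h2, PowerSeries.coeff_C_mul]
    rcases n with _ | n
    · simp
    · rw [PowerSeries.coeff_succ_X_mul, PowerSeries.coeff_derivative]
      push_cast
      ring
  obtain ⟨k, hk⟩ : ∃ k : ℕ, PowerSeries.coeff k y ≠ 0 ∧ ∀ i < k, PowerSeries.coeff i y = 0 := by
    classical
    have hex : ∃ k : ℕ, PowerSeries.coeff k y ≠ 0 := by
      by_contra hcon
      push Not at hcon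
      exact hy0 (PowerSeries.ext (by simpa using hcon))
    exact ⟨Nat.find hex, Nat.find_spec hex, fun i hi => by
      have := Nat.find_min hex hi
      push Not at this
      exact this⟩
  obtain ⟨hk0, hklt⟩ := hk
  have hkey : PowerSeries.C (b ^ 2) * y + PowerSeries.C (2 * b) * D1 + D2 + PowerSeries.X *
      (PowerSeries.C (2 * a) * D1 + PowerSeries.C (q * a + 2 * a * b) * y +
        PowerSeries.X * (PowerSeries.C (a ^ 2 - c) * y)) = 0 := by
    rw [← hEy]
    simp only [map_mul, map_add, map_sub, map_pow, map_ofNat]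
    simp only [← PowerSeries.algebraMap_eq, PowerSeries.algebraMap_apply, Algebra.algebraMap_self, RingHom.id_apply]
    ring
  have h8 := congrArg (PowerSeries.coeff k) hkey
  rw [map_add, map_add, map_add, PowerSeries.coeff_C_mul, PowerSeries.coeff_C_mul, hD2, hcD, hD1, hcD,
    map_zero] at h8
  have h9 : PowerSeries.coeff k (PowerSeries.X *
      (PowerSeries.C (2 * a) * D1 + PowerSeries.C (q * a + 2 * a * b) * y +
        PowerSeries.X * (PowerSeries.C (a ^ 2 - c) * y))) = 0 := by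
    rcases k with _ | k
    · simp
    · rw [PowerSeries.coeff_succ_X_mul, map_add, map_add, PowerSeries.coeff_C_mul, PowerSeries.coeff_C_mul, hD1,
        hcD, hklt k (Nat.lt_succ_self k)]
      rcases k with _ | k
      · simp
      · rw [PowerSeries.coeff_succ_X_mul, PowerSeries.coeff_C_mul, hklt k (by omega)]
        simp
  rw [← hD1, h9, add_zero] at h8
  have hD1c : PowerSeries.coeff k D1 = (q : ℚ) * k * PowerSeries.coeff k y := by rw [hD1, hcD]
  have h10 : (b + q * k) ^ 2 * PowerSeries.coeff k y = 0 := by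
    linear_combination h8 - (q : ℚ) * k * hD1c
  have h11 : b + (q : ℚ) * k = 0 := by
    rcases mul_eq_zero.1 h10 with h | h
    · exact pow_eq_zero_iff (two_ne_zero) |>.1 h
    · exact absurd h hk0
  have hq0 : (q : ℚ) ≠ 0 := by exact_mod_cast (by have := R.hq; omega : q ≠ 0)
  have h12 : (2 * (d : ℚ) + 1) = 2 * k := by
    apply mul_left_cancel₀ hq0
    linear_combination hd - 2 * h11
  have h13 : 2 * d + 1 = 2 * k := by exact_mod_cast h12
  omega

end Real

end Pool.Agent.J6H23.Bes
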