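import Pool.Agent.J6H23.Bes.Sys2
import Pool.Agent.J6H23.Bes.Lau
import Pool.Agent.J6H23.Bes.Lead
import Pool.Agent.N743.SS.Multi

/-!
# A measure of algebraic independence for the values of a tower and of Bessel functions
-/

set_option autoImplicit false
set_option linter.unusedSectionVars false

open PowerSeries

namespace Pool.Agent.J6H23.Bes

open Pool.Agent.R352.E Pool.Agent.Y113 Pool.Agent.N743.SS

instance : CharZero LL := charZero_of_injective_ringHom (f := io.comp (C : ℚ →+* ℚ⟦X⟧)) (RingHom.injective _)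

/-- the embedding as a homomorphism of algebras -/
noncomputable def ioA : ℚ⟦X⟧ →ₐ[ℚ] LL := io.toRatAlgHom

lemma ioA_apply (f : ℚ⟦X⟧) : ioA f = io f := rfl

section

variable {σ : Type} [Fintype σ] [LinearOrder σ] {t : Tw σ} {q : ℕ} {f : σ → ℚ⟦X⟧}

/-- the field of the tower -/
noncomputable def KT (f : σ → ℚ⟦X⟧) : IntermediateField ℚ LL :=
  IntermediateField.adjoin ℚ (Set.range fun i => ioA (f i))

lemma mem_KT (x : LL) : x ∈ KT f ↔ ∃ r s : MvPolynomial σ ℚ,
    x = ioA (MvPolynomial.aeval f r) / ioA (MvPolynomial.aeval f s) := by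
  rw [KT, IntermediateField.mem_adjoin_range_iff]
  constructor
  · rintro ⟨r, s, h⟩
    refine ⟨r, s, ?_⟩
    rw [h, MvPolynomial.comp_aeval_apply, MvPolynomial.comp_aeval_apply]
  · rintro ⟨r, s, h⟩
    refine ⟨r, s, ?_⟩
    rw [h, MvPolynomial.comp_aeval_apply, MvPolynomial.comp_aeval_apply]

lemma aeval_mem (r : MvPolynomial σ ℚ) : io (MvPolynomial.aeval f r) ∈ KT f := by
  rw [mem_KT]
  exact ⟨r, 1, by rw [map_one, map_one, div_one]; rfl⟩

lemma stable_KT (R : Real' t q f) : ∀ x ∈ KT f, th q x ∈ KT f := by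
  intro x hx
  obtain ⟨r, s, rfl⟩ := (mem_KT x).1 hx
  rw [ioA_apply, ioA_apply, Derivation.leibniz_div, th_io, th_io, ← e_D R, ← e_D R]
  simp only [smul_eq_mul]
  exact mul_mem (pow_mem (inv_mem (aeval_mem s)) 2)
    (sub_mem (mul_mem (aeval_mem s) (aeval_mem _)) (mul_mem (aeval_mem r) (aeval_mem _)))

lemma SA_ne (m q : ℕ) : SA m q ≠ 0 := by
  intro h
  have := cc_A m q
  rw [h, map_zero] at this
  exact zero_ne_one this

lemma not_mem_KT (R : Real' t q f) {m : ℕ} (hm : 1 ≤ m) :
    io (SB m q) / io (SA m q) ∉ Set.range (algebraMap (KT f) LL) := by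
  rintro ⟨⟨x, hx⟩, hx2⟩
  have hx3 : x = io (SB m q) / io (SA m q) := hx2
  obtain ⟨r, s, hrs⟩ := (mem_KT x).1 hx
  have hc : (4 * (m : ℚ) ^ 2) ≠ 0 := by
    have : (m : ℚ) ≠ 0 := by exact_mod_cast (by omega : m ≠ 0)
    positivity
  have hq := R.hq
  have hA0 : io (SA m q) ≠ 0 := fun h => SA_ne m q (io_inj (h.trans (map_zero _).symm))
  by_cases hs : MvPolynomial.aeval f s = 0
  · rw [hs, map_zero, div_zero] at hrs
    rw [hrs] at hx3
    have h1 : io (SB m q) = 0 := by
      rcases div_eq_zero_iff.1 hx3.symm with h | h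
      · exact h
      · exact absurd h hA0
    have h2 : SB m q = 0 := io_inj (h1.trans (map_zero _).symm)
    have h3 := DB m hq
    rw [h2, map_zero, mul_zero] at h3
    have h4 : (C (4 * (m : ℚ) ^ 2) : ℚ⟦X⟧) ≠ 0 := by
      intro h0
      have := congrArg (coeff 0) h0
      rw [coeff_zero_C, map_zero] at this
      exact hc this
    exact mul_ne_zero (mul_ne_zero h4 (pow_ne_zero _ X_ne_zero)) (SA_ne m q) h3.symm
  · have hs0 : io (MvPolynomial.aeval f s) ≠ 0 := fun h => hs (io_inj (h.trans (map_zero _).symm))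
    have h1 : io (SB m q * MvPolynomial.aeval f s) = io (SA m q * MvPolynomial.aeval f r) := by
      rw [map_mul, map_mul]
      rw [hrs, ioA_apply, ioA_apply] at hx3
      field_simp at hx3
      linear_combination -hx3
    refine not_rat R hc (DA m q) (DB m hq) (SA_ne m q) r s ?_ (io_inj h1)
    rintro rfl
    exact hs (map_zero _)

/-- **functional independence** -/
theorem indep_fun (R : Real' t q f) {m : ℕ} (hm : 1 ≤ m) :
    AlgebraicIndependent (KT f) (fun o : Option (Fin 2) => o.elim (io (SA m q)) ![io (SB m q), io (SH m q)]) := by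
  have hq := R.hq
  have hcom : Com (resD (th q) (KT f) (stable_KT R)) (th q) := fun _ => rfl
  have hA0 : io (SA m q) ≠ 0 := fun h => SA_ne m q (io_inj (h.trans (map_zero _).symm))
  obtain ⟨κ, hκ⟩ : ∃ κ : KT f, algebraMap (KT f) LL κ = io (C (4 * (m : ℚ) ^ 2) * X ^ 2) := by
    have h1 : (C (4 * (m : ℚ) ^ 2) * X ^ 2 : ℚ⟦X⟧) =
        MvPolynomial.aeval f (MvPolynomial.C (4 * (m : ℚ) ^ 2) * MvPolynomial.X t.z ^ 2) := by
      rw [map_mul (MvPolynomial.aeval f), map_pow (MvPolynomial.aeval f), MvPolynomial.aeval_X, R.hz,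
        MvPolynomial.aeval_C]
      rfl
    rw [h1]
    exact ⟨⟨_, aeval_mem _⟩, rfl⟩
  refine indep_ABH hcom (κ := κ) (q := q) ?_ ?_ hA0 ?_ (th_p1 (cc_A m q)) (th_p2 hq) (not_mem_KT R hm)
  · rw [th_io, DA]
  · rw [th_io, DB m hq, map_mul, hκ]
  · have h1 := congrArg io (rel m hq)
    rw [map_sub, map_mul, map_mul, map_natCast] at h1
    rw [Derivation.leibniz_div, th_io, th_io, DA, DH, map_add, map_mul, map_natCast]
    simp only [smul_eq_mul]
    field_simp
    linear_combination h1

/-- linear independence of the products of monomials -/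
theorem prod_LI (R : Real' t q f) {m : ℕ} (hm : 1 ≤ m) {M J₀ D : ℕ} [Fintype (Idx t M J₀)] [Fintype (Nx D)] :
    LinearIndependent (Polynomial ℚ) (fun p : Idx t M J₀ × Nx D =>
      mon f p.1.1 * nm (SA m q) (SB m q) (SH m q) (SG m q) p.2.1) := by
  classical
  have hq := R.hq
  have hA0 : io (SA m q) ≠ 0 := fun h => SA_ne m q (io_inj (h.trans (map_zero _).symm))
  have hrel := congrArg io (rel m hq)
  rw [map_sub, map_mul, map_mul, map_natCast] at hrel
  have hG0 : io (SG m q) ≠ 0 := by
    intro h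
    have h1 : SG m q = 0 := io_inj (h.trans (map_zero _).symm)
    have h2 := congrArg (coeff 0) h1
    have h3 : (q : ℚ⟦X⟧) = C (q : ℚ) := by simp
    rw [SG, map_sub, coeff_D, h3, coeff_C_mul, coeff_zero_eq_constantCoeff_apply,
      coeff_zero_eq_constantCoeff_apply, cc_A, map_zero] at h2
    have h4 : (q : ℚ) = 0 := by
      simpa using h2
    have : q = 0 := by exact_mod_cast h4
    omega
  have hLI := nm_LI (indep_fun R hm) hrel hG0 (q' := (q : KT f)) (by rw [map_natCast]) D
  rw [Fintype.linearIndependent_iff] at hLI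
  rw [Fintype.linearIndependent_iff]
  intro c hc
  rw [Fintype.sum_prod_type_right] at hc
  -- the coefficients
  have hκ : ∀ n : Nx D, ∑ s : Idx t M J₀, c (s, n) • mon f s.1 = MvPolynomial.aeval f
      (∑ s : Idx t M J₀, Polynomial.aeval (MvPolynomial.X t.z : MvPolynomial σ ℚ) (c (s, n)) *
        MvPolynomial.monomial s.1 (1 : ℚ)) := by
    intro n
    rw [map_sum]
    refine Finset.sum_congr rfl fun s _ => ?_
    rw [map_mul, Algebra.smul_def]
    congr 1
    rw [← Polynomial.aeval_algHom_apply, MvPolynomial.aeval_X, R.hz]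
    induction c (s, n) using Polynomial.induction_on' with
    | add p q hp hq => rw [map_add, map_add, hp, hq]
    | monomial n a =>
      rw [Polynomial.aeval_monomial]
      show ((Polynomial.monomial n a : Polynomial ℚ) : ℚ⟦X⟧) = _
      rw [Polynomial.coe_monomial, PowerSeries.monomial_eq_C_mul_X_pow]
      rfl
  have hz : ∀ n : Nx D, ∑ s : Idx t M J₀, c (s, n) • mon f s.1 = 0 := by
    have h1 := hLI (fun n => ⟨io (∑ s : Idx t M J₀, c (s, n) • mon f s.1), by rw [hκ]; exact aeval_mem _⟩) (by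
      have h2 : io (∑ n : Nx D, ∑ s : Idx t M J₀, c (s, n) •
          (mon f s.1 * nm (SA m q) (SB m q) (SH m q) (SG m q) n.1)) = 0 := by rw [hc, map_zero]
      rw [map_sum] at h2
      rw [← h2]
      refine Finset.sum_congr rfl fun n _ => ?_
      have h3 : ∑ s : Idx t M J₀, c (s, n) • (mon f s.1 * nm (SA m q) (SB m q) (SH m q) (SG m q) n.1) =
          (∑ s : Idx t M J₀, c (s, n) • mon f s.1) * nm (SA m q) (SB m q) (SH m q) (SG m q) n.1 := by
        rw [Finset.sum_mul]
        exact Finset.sum_congr rfl fun s _ => (smul_mul_assoc _ _ _).symm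
      rw [h3, map_mul, Algebra.smul_def]
      congr 1
      simp only [nm, map_mul, map_pow])
    intro n
    have h4 := congrArg (fun x : KT f => (x : LL)) (h1 n)
    exact io_inj (h4.trans (map_zero _).symm)
  rintro ⟨s, n⟩
  exact Fintype.linearIndependent_iff.1 (mon_LI R (M := M) (J₀ := J₀)) (fun s => c (s, n)) (hz n) s

end

end Pool.Agent.J6H23.Bes
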