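import Pool.Agent.J6H23.Bes.Meas

/-!
# A measure of algebraic independence: the values
-/

set_option autoImplicit false
set_option linter.unusedSectionVars false

open PowerSeries

namespace Pool.Agent.J6H23.Bes

open Pool.Agent.R352.E Pool.Agent.Y113 Pool.Agent.N743.SS

section

variable {σ : Type} [Fintype σ] [LinearOrder σ] {t : Tw σ} {q : ℕ} {f : σ → ℚ⟦X⟧}

lemma ps_kappa (m : ℕ) : ps (Polynomial.C (4 * (m : ℤ) ^ 2) * Polynomial.X ^ 2) =
    (C (4 * (m : ℚ) ^ 2) * X ^ 2 : ℚ⟦X⟧) := by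
  rw [sq (Polynomial.X), ps_mul, ps_mul, ps_C, ps_X, sq X]
  congr 1
  push_cast
  simp
  left
  exact (map_ofNat C 4).symm

/-- measure of linear independence for the products of monomials -/
theorem meas_prod (R : Real' t q f) {m : ℕ} (hm : 1 ≤ m) {M J₀ D : ℕ} (hM : ∀ v, v < t.w → t.m v ≤ M)
    (hM1 : 1 ≤ M) [Fintype (Idx t M J₀)] [Fintype (Nx D)] (ε : ℝ) (hε : 0 < ε) :
    ∃ c : ℝ, 0 < c ∧ ∀ a : Idx t M J₀ × Nx D → ℤ, a ≠ 0 → ∀ A : ℝ, (∀ i, |(a i : ℝ)| ≤ A) →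
      c * A ^ (-((Fintype.card (Idx t M J₀ × Nx D) : ℝ) - 1 + ε)) ≤
        |∑ p, (a p : ℝ) * ev 1 (mon f p.1.1 * nm (SA m q) (SB m q) (SH m q) (SG m q) p.2.1)| := by
  classical
  have hq := R.hq
  set N := Fintype.card (Idx t M J₀ × Nx D) with hN
  let e : Fin N ≃ Idx t M J₀ × Nx D := (Fintype.equivFin _).symm
  set Y : Idx t M J₀ × Nx D → ℚ⟦X⟧ := fun p => mon f p.1.1 * nm (SA m q) (SB m q) (SH m q) (SG m q) p.2.1 with hY
  set y : Fin N → ℚ⟦X⟧ := fun i => Y (e i) with hy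
  have hEF : ∀ i, EF (y i) := fun i => by
    rw [hy, hY]
    simp only [nm]
    exact (EF_mon R (e i).1.2.1).mul (((((EF_A m hq).pow _).mul ((EF_B m hq).pow _)).mul ((EF_H m hq).pow _)).mul
      ((EF_G m hq).pow _))
  obtain ⟨C, hC, h1, h2⟩ := EF.common (y := y) hEF
  have hder : ∀ p : Idx t M J₀ × Nx D, Sp Y ((TQ q : ℚ⟦X⟧) * d⁄dX ℚ (Y p)) := by
    rintro ⟨s, n⟩
    rw [hY]
    simp only
    rw [D_mul]
    refine Sp.add ?_ ?_
    · exact Sp_left (y := fun s : Idx t M J₀ => mon f s.1)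
        (w := fun n : Nx D => nm (SA m q) (SB m q) (SH m q) (SG m q) n.1) (deriv_Sp R hM hM1 s) n
    · refine Sp_right (y := fun s : Idx t M J₀ => mon f s.1)
        (w := fun n : Nx D => nm (SA m q) (SB m q) (SH m q) (SG m q) n.1) ?_ s
      exact nm_Sp (κ := Polynomial.C (4 * (m : ℤ) ^ 2) * Polynomial.X ^ 2) (DA m q)
        (by rw [ps_kappa]; exact DB m hq) (DH m q) (by rw [ps_kappa]; exact DG m hq) (rel m hq) D n
  have hSys : ESys q C y :=
    { one_le := hC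
      hq := hq
      size := h1
      den := h2
      der := by
        choose B hB using fun i => hder (e i)
        refine ⟨fun i j => B i (e j), fun i => ?_⟩
        rw [hy, hB i, ← Equiv.sum_comp e] }
  let p₀ : Idx t M J₀ × Nx D := (⟨0, by simp⟩, ⟨(0, 0, 0), by simp⟩)
  have h0 : e (e.symm p₀) = p₀ := e.apply_symm_apply _
  obtain ⟨c, hc, h3⟩ := E_meas hSys (e.symm p₀) (by
    rw [hy]
    simp only [h0]
    rw [hY]
    simp [p₀, nm, mon_eq]) ((prod_LI R hm).comp e e.injective) ε hε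
  refine ⟨c, hc, fun a ha A hA => ?_⟩
  have h4 := h3 (fun i => a (e i)) (fun h => ha (funext fun s => by
    have := congrFun h (e.symm s)
    simpa using this)) A (fun i => hA _)
  rw [← Equiv.sum_comp e]
  exact h4

/-- the values -/
noncomputable def vals (t : Tw σ) (f : σ → ℚ⟦X⟧) (m q : ℕ) : {i : σ // i ≠ t.z} ⊕ Fin 3 → ℝ :=
  Sum.elim (fun i => ev 1 (f i.1)) ![ev 1 (SA m q), ev 1 (SB m q), ev 1 (SH m q)]

/-- **Measure of algebraic independence** for the values at `1` -/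
theorem measM_bes (R : Real' t q f) {m : ℕ} (hm : 1 ≤ m) : MeasM (vals t f m q) := by
  classical
  have hq := R.hq
  obtain ⟨M, hM1, hM⟩ : ∃ M : ℕ, 1 ≤ M ∧ ∀ v, v < t.w → t.m v ≤ M := by
    refine ⟨1 + ∑ v, t.m v, by omega, fun v _ => ?_⟩
    have := Finset.single_le_sum (f := fun v => t.m v) (fun _ _ => Nat.zero_le _) (Finset.mem_univ v)
    omega
  intro D
  set J₀ : ℕ := D + M * D with hJ₀
  haveI : Finite (Idx t M J₀) := Idx_finite t hM1
  letI : Fintype (Idx t M J₀) := Fintype.ofFinite _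
  haveI : Finite (Nx D) := Nx_finite D
  letI : Fintype (Nx D) := Fintype.ofFinite _
  obtain ⟨c, hc, hmeas⟩ := meas_prod R hm hM hM1 (J₀ := J₀) (D := D) 1 one_pos
  let p₀ : Idx t M J₀ × Nx D := (⟨0, by simp⟩, ⟨(0, 0, 0), by simp⟩)
  have hcard : 1 ≤ Fintype.card (Idx t M J₀ × Nx D) := Fintype.card_pos_iff.2 ⟨p₀⟩
  have hcard' : (1 : ℝ) ≤ (Fintype.card (Idx t M J₀ × Nx D) : ℝ) := by exact_mod_cast hcard
  refine ⟨(Fintype.card (Idx t M J₀ × Nx D) : ℝ) - 1 + 1, c, by linarith, hc, ?_⟩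
  intro P hP hD H hH
  -- the exponents
  let ψ₁ : ({i : σ // i ≠ t.z} ⊕ Fin 3 →₀ ℕ) → (σ →₀ ℕ) := fun s =>
    Finsupp.equivFunOnFinite.symm (fun i => if h : i ≠ t.z then s (Sum.inl ⟨i, h⟩) else 0)
  have hψ₁ : ∀ s i, ψ₁ s i = if h : i ≠ t.z then s (Sum.inl ⟨i, h⟩) else 0 := fun s i => rfl
  have hsum : ∀ s ∈ P.support, ∑ i : {i : σ // i ≠ t.z}, s (Sum.inl i) + ∑ j : Fin 3, s (Sum.inr j) ≤ D := by
    intro s hs
    have h2 := MvPolynomial.le_totalDegree hs
    rw [Finsupp.sum_fintype _ _ (fun _ => rfl), Fintype.sum_sum_type] at h2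
    exact h2.trans hD
  have hb1 : ∀ s ∈ P.support, ψ₁ s t.z = 0 ∧ ψ₁ s t.w + M * ∑ v ∈ t.V, ψ₁ s v ≤ J₀ := by
    intro s hs
    refine ⟨by rw [hψ₁, dif_neg (by simp)], ?_⟩
    have h1 : ∑ i : σ, ψ₁ s i ≤ D := by
      have h2 : ∑ i : {i : σ // i ≠ t.z}, s (Sum.inl i) = ∑ i : σ, ψ₁ s i := by
        refine Fintype.sum_of_injective Subtype.val Subtype.val_injective _ _ (fun i hi => ?_) (fun i => ?_)
        · rw [hψ₁, dif_neg]
          intro h
          exact hi ⟨⟨i, h⟩, rfl⟩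
        · rw [hψ₁, dif_pos i.2]
      rw [← h2]
      exact (Nat.le_add_right _ _).trans (hsum s hs)
    have h3 : ψ₁ s t.w ≤ ∑ i, ψ₁ s i :=
      Finset.single_le_sum (f := fun i => ψ₁ s i) (fun _ _ => Nat.zero_le _) (Finset.mem_univ _)
    have h4 : ∑ v ∈ t.V, ψ₁ s v ≤ ∑ i, ψ₁ s i :=
      Finset.sum_le_sum_of_subset (Finset.subset_univ _)
    have h5 : M * ∑ v ∈ t.V, ψ₁ s v ≤ M * D := Nat.mul_le_mul_left _ (h4.trans h1)
    rw [hJ₀]
    omega
  have hb2 : ∀ s ∈ P.support, ((s (Sum.inr 0) : ℕ) : ℤ).natAbs + s (Sum.inr 1) + s (Sum.inr 2) ≤ D := by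
    intro s hs
    have h1 := hsum s hs
    rw [Fin.sum_univ_three] at h1
    rw [Int.natAbs_natCast]
    omega
  let ψ : {s // s ∈ P.support} → Idx t M J₀ × Nx D := fun s =>
    (⟨ψ₁ s.1, hb1 s.1 s.2⟩, ⟨(((s.1 (Sum.inr 0) : ℕ) : ℤ), s.1 (Sum.inr 1), s.1 (Sum.inr 2)), hb2 s.1 s.2⟩)
  have hψ : Function.Injective ψ := by
    rintro ⟨s, hs⟩ ⟨s', hs'⟩ h
    have h1 := congrArg (fun p : Idx t M J₀ × Nx D => p.1.1) h
    have h2 := congrArg (fun p : Idx t M J₀ × Nx D => p.2.1) h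
    simp only [ψ, Prod.mk.injEq, Nat.cast_inj] at h1 h2
    apply Subtype.ext
    ext i
    simp only
    rcases i with i | j
    · have h3 := congrArg (fun g : σ →₀ ℕ => g i.1) h1
      simp only [hψ₁, dif_pos i.2] at h3
      exact h3
    · fin_cases j
      · exact h2.1
      · exact h2.2.1
      · exact h2.2.2
  set a : Idx t M J₀ × Nx D → ℤ := Function.extend ψ (fun s => P.coeff s.1) 0 with ha
  have haψ : ∀ s, a (ψ s) = P.coeff s.1 := fun s => hψ.extend_apply _ _ s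
  have hane : a ≠ 0 := by
    obtain ⟨s, hs⟩ := MvPolynomial.ne_zero_iff.1 hP
    intro h
    have h1 := haψ ⟨s, MvPolynomial.mem_support_iff.2 hs⟩
    rw [h] at h1
    exact hs h1.symm
  have haH : ∀ p, |((a p : ℤ) : ℝ)| ≤ H := by
    intro p
    by_cases hp : ∃ s, ψ s = p
    · obtain ⟨s, rfl⟩ := hp
      rw [haψ]
      exact hH s.1
    · rw [ha, Function.extend_apply' _ _ _ hp]
      have := one_le_of_mcoeff hP hH
      simp only [Pi.zero_apply, Int.cast_zero, abs_zero]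
      linarith
  have hfin := hmeas a hane H haH
  have hval : ∑ p, (a p : ℝ) * ev 1 (mon f p.1.1 * nm (SA m q) (SB m q) (SH m q) (SG m q) p.2.1) =
      MvPolynomial.aeval (vals t f m q) P := by
    have h1 : ∑ s : {s // s ∈ P.support}, ((P.coeff s.1 : ℤ) : ℝ) *
        ev 1 (mon f (ψ s).1.1 * nm (SA m q) (SB m q) (SH m q) (SG m q) (ψ s).2.1) =
        ∑ p, (a p : ℝ) * ev 1 (mon f p.1.1 * nm (SA m q) (SB m q) (SH m q) (SG m q) p.2.1) := by
      refine Fintype.sum_of_injective ψ hψ _ _ (fun p hp => ?_) (fun s => ?_)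
      · rw [ha, Function.extend_apply' _ _ _ hp]
        simp
      · rw [haψ]
    rw [← h1]
    conv_rhs => rw [MvPolynomial.as_sum P, map_sum]
    rw [← Finset.sum_coe_sort P.support]
    refine Finset.sum_congr rfl fun s _ => ?_
    rw [MvPolynomial.aeval_monomial, Finsupp.prod_fintype _ _ (fun i => pow_zero _)]
    have e1 : ev 1 (mon f (ψ s).1.1 * nm (SA m q) (SB m q) (SH m q) (SG m q) (ψ s).2.1) =
        ∏ i, vals t f m q i ^ (s.1 i) := by
      have hcA := (EF_A m hq).cv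
      have hcB := (EF_B m hq).cv
      have hcH := (EF_H m hq).cv
      have hnm : nm (SA m q) (SB m q) (SH m q) (SG m q) (ψ s).2.1 =
          SA m q ^ (s.1 (Sum.inr 0)) * SB m q ^ (s.1 (Sum.inr 1)) * SH m q ^ (s.1 (Sum.inr 2)) := by
        simp only [nm, ψ]
        have h2 : (-(((s.1 (Sum.inr 0) : ℕ) : ℤ))).toNat = 0 := by omega
        rw [h2, Int.toNat_natCast, pow_zero, mul_one]
      rw [hnm]
      have hmon : mon f (ψ s).1.1 = ∏ i, f i ^ (ψ s).1.1 i := mon_eq _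
      have hcm : Cv 1 (mon f (ψ s).1.1) := by
        exact (EF_mon R (ψ s).1.2.1).cv
      rw [hcm.ev_mul one_pos (((hcA.pow one_pos _).mul one_pos (hcB.pow one_pos _)).mul one_pos
        (hcH.pow one_pos _)),
        ((hcA.pow one_pos _).mul one_pos (hcB.pow one_pos _)).ev_mul one_pos (hcH.pow one_pos _),
        (hcA.pow one_pos _).ev_mul one_pos (hcB.pow one_pos _), hcA.ev_pow one_pos, hcB.ev_pow one_pos,
        hcH.ev_pow one_pos, ev_mon R, Fintype.prod_sum_type, Fin.prod_univ_three]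
      congr 1
      symm
      refine Fintype.prod_of_injective Subtype.val Subtype.val_injective _ _ (fun i hi => ?_) (fun i => ?_)
      · have h3 : (ψ s).1.1 i = 0 := by
          show ψ₁ s.1 i = 0
          rw [hψ₁, dif_neg]
          intro h
          exact hi ⟨⟨i, h⟩, rfl⟩
        rw [h3, pow_zero]
      · have h3 : (ψ s).1.1 i.1 = s.1 (Sum.inl i) := by
          show ψ₁ s.1 i.1 = _
          rw [hψ₁, dif_pos i.2]
        rw [h3]
        rfl
    rw [e1]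
    simp
  rw [← hval]
  exact hfin

end

end Pool.Agent.J6H23.Bes
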