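import Pool.Agent.J6H23.Bes.Fun
import Pool.Agent.R352.E.Rel2

/-!
# Real functions given by E-functions
-/

set_option autoImplicit false

open PowerSeries Filter Topology

namespace Pool.Agent.J6H23.Bes

open Pool.Agent.R352.E Pool.Agent.Y113

/-- the value at `x` -/
noncomputable def sv (f : ℚ⟦X⟧) (x : ℝ) : ℝ := ∑' k : ℕ, ((coeff k f : ℚ) : ℝ) * x ^ k

lemma sv_eq (f : ℚ⟦X⟧) (x : ℝ) : sv f x = ev (1 / x) f := by
  rw [sv, ev]
  simp

lemma coeff_bound {f : ℚ⟦X⟧} (hf : EF f) : ∃ C : ℝ, 1 ≤ C ∧ ∀ k, |((coeff k f : ℚ) : ℝ)| ≤ C ^ (k + 1) / k.factorial := by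
  obtain ⟨C, hC, h1, -⟩ := hf
  refine ⟨C, hC, fun k => ?_⟩
  have h2 := h1 k
  rw [cf] at h2
  push_cast at h2
  rw [abs_mul, Nat.abs_cast] at h2
  rw [le_div_iff₀ (by positivity)]
  linarith

lemma sv_summable {f : ℚ⟦X⟧} (hf : EF f) (x : ℝ) : Summable fun k : ℕ => ((coeff k f : ℚ) : ℝ) * x ^ k := by
  obtain ⟨C, hC, h1⟩ := coeff_bound hf
  have hs : Summable (fun k : ℕ => C * ((C * |x|) ^ k / (k.factorial : ℝ))) :=
    (Real.summable_pow_div_factorial (C * |x|)).mul_left C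
  refine Summable.of_norm_bounded hs fun k => ?_
  rw [norm_mul, norm_pow, Real.norm_eq_abs, Real.norm_eq_abs]
  calc |((coeff k f : ℚ) : ℝ)| * |x| ^ k ≤ C ^ (k + 1) / k.factorial * |x| ^ k :=
        mul_le_mul_of_nonneg_right (h1 k) (by positivity)
    _ = _ := by rw [mul_pow, pow_succ]; ring

lemma cv_of_EF {f : ℚ⟦X⟧} (hf : EF f) {t : ℝ} (ht : 0 < t) : Cv t f := by
  unfold Cv
  have h := (sv_summable hf (1 / t)).norm
  refine h.congr fun k => ?_
  rw [norm_mul, norm_pow, Real.norm_eq_abs, Real.norm_eq_abs, abs_of_pos (by positivity : 0 < 1 / t)]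

lemma sv_mul {f g : ℚ⟦X⟧} (hf : EF f) (hg : EF g) {x : ℝ} (hx : 0 < x) : sv (f * g) x = sv f x * sv g x := by
  have h1 : (0 : ℝ) < 1 / x := by positivity
  rw [sv_eq, sv_eq, sv_eq, (cv_of_EF hf h1).ev_mul h1 (cv_of_EF hg h1)]

lemma sv_add {f g : ℚ⟦X⟧} (hf : EF f) (hg : EF g) (x : ℝ) : sv (f + g) x = sv f x + sv g x := by
  rw [sv, sv, sv, ← (sv_summable hf x).tsum_add (sv_summable hg x)]
  refine tsum_congr fun k => ?_
  rw [map_add]
  push_cast
  ring

lemma sv_C (a : ℚ) (x : ℝ) : sv (C a) x = a := by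
  rw [sv, tsum_eq_single 0]
  · rw [coeff_zero_C]; simp
  · intro k hk
    rw [coeff_C, if_neg hk]
    simp

lemma sv_C_mul (a : ℚ) (f : ℚ⟦X⟧) (x : ℝ) : sv (C a * f) x = a * sv f x := by
  rw [sv, sv, ← tsum_mul_left]
  refine tsum_congr fun k => ?_
  rw [coeff_C_mul]
  push_cast
  ring

/-- the derivative -/
lemma sv_deriv {f : ℚ⟦X⟧} (hf : EF f) {x : ℝ} (hx : 0 < x) :
    HasDerivAt (sv f) (sv ((TQ 1 : ℚ⟦X⟧) * d⁄dX ℚ f) x / x) x := by
  obtain ⟨C, hC, h1⟩ := coeff_bound hf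
  set r := x + 1 with hr
  have hr0 : 0 < r := by rw [hr]; linarith
  have hs : Summable (fun k : ℕ => (k : ℝ) * (C ^ (k + 1) / k.factorial) * r ^ (k - 1)) := by
    rw [← summable_nat_add_iff 1]
    have hs1 : Summable (fun k : ℕ => C ^ 2 * ((C * r) ^ k / (k.factorial : ℝ))) :=
      (Real.summable_pow_div_factorial (C * r)).mul_left _
    refine hs1.congr fun k => ?_
    rw [Nat.add_sub_cancel, Nat.factorial_succ, mul_pow]
    have : (k.factorial : ℝ) ≠ 0 := by positivity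
    have h2 : ((k : ℝ) + 1) ≠ 0 := by positivity
    push_cast
    rw [pow_succ C (k + 1), pow_succ C k]
    field_simp
  have h2 : HasDerivAt (fun z => ∑' k : ℕ, ((coeff k f : ℚ) : ℝ) * z ^ k)
      (∑' k : ℕ, ((coeff k f : ℚ) : ℝ) * (k * x ^ (k - 1))) x := by
    refine hasDerivAt_tsum_of_isPreconnected (t := Set.Ioo (-r) r) hs isOpen_Ioo isPreconnected_Ioo
      (fun k y _ => (hasDerivAt_pow k y).const_mul _) (fun k y hy => ?_) (y₀ := 0) (by
        simp only [Set.mem_Ioo]; constructor <;> linarith) (sv_summable hf 0) (by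
        simp only [Set.mem_Ioo]; constructor <;> linarith)
    rw [norm_mul, norm_mul, norm_pow, Real.norm_eq_abs, Real.norm_eq_abs, Real.norm_eq_abs, Nat.abs_cast]
    have hy' : |y| ≤ r := (abs_lt.2 hy).le
    calc |((coeff k f : ℚ) : ℝ)| * ((k : ℝ) * |y| ^ (k - 1)) ≤ (C ^ (k + 1) / k.factorial) * (k * r ^ (k - 1)) := by
          refine mul_le_mul (h1 k) ?_ (by positivity) (by positivity)
          exact mul_le_mul_of_nonneg_left (pow_le_pow_left₀ (abs_nonneg _) hy' _) (by positivity)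
      _ = _ := by ring
  refine h2.congr_deriv ?_
  rw [eq_div_iff hx.ne', sv, ← tsum_mul_right]
  refine tsum_congr fun k => ?_
  rw [coeff_D]
  push_cast
  rcases k with _ | k
  · simp
  · rw [Nat.add_sub_cancel, pow_succ]
    push_cast
    ring

lemma sv_zero (f : ℚ⟦X⟧) : sv f 0 = (constantCoeff f : ℚ) := by
  rw [sv, tsum_eq_single 0]
  · simp
  · intro k hk
    rw [zero_pow hk, mul_zero]

lemma sv_continuous {f : ℚ⟦X⟧} (hf : EF f) : Tendsto (sv f) (𝓝[>] 0) (𝓝 (constantCoeff f : ℚ)) := by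
  obtain ⟨C, hC, h1⟩ := coeff_bound hf
  have h2 : ContinuousOn (sv f) (Set.Icc (-1) 1) := by
    refine continuousOn_tsum (f := fun (k : ℕ) (y : ℝ) => ((coeff k f : ℚ) : ℝ) * y ^ k)
      (u := fun k : ℕ => C * (C ^ k / (k.factorial : ℝ)))
      (fun k => (continuous_const.mul (continuous_pow k)).continuousOn)
      ((Real.summable_pow_div_factorial C).mul_left C) fun k y hy => ?_
    rw [norm_mul, norm_pow, Real.norm_eq_abs, Real.norm_eq_abs]
    have hy' : |y| ≤ 1 := abs_le.2 hy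
    calc |((coeff k f : ℚ) : ℝ)| * |y| ^ k ≤ C ^ (k + 1) / k.factorial * 1 := by
          refine mul_le_mul (h1 k) (pow_le_one₀ (abs_nonneg _) hy') (by positivity) (by positivity)
      _ = _ := by rw [pow_succ]; ring
  have h3 : ContinuousAt (sv f) 0 := h2.continuousAt (Icc_mem_nhds (by norm_num) (by norm_num))
  rw [← sv_zero]
  exact h3.tendsto.mono_left nhdsWithin_le_nhds

/-! ## The Bessel functions -/

/-- `I_0(2 x)` -/
noncomputable def ra (x : ℝ) : ℝ := sv (SA 1 1) x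
/-- `x d/dx I_0(2 x)` -/
noncomputable def rb (x : ℝ) : ℝ := sv (SB 1 1) x
/-- the companion -/
noncomputable def rh (x : ℝ) : ℝ := sv (SH 1 1) x
/-- `x d/dx` of the companion, minus `I_0(2 x)` -/
noncomputable def rg (x : ℝ) : ℝ := sv (SG 1 1) x

lemma ra_deriv {x : ℝ} (hx : 0 < x) : HasDerivAt ra (rb x / x) x := by
  have h := sv_deriv (EF_A 1 le_rfl) hx
  rw [DA] at h
  exact h

lemma rb_deriv {x : ℝ} (hx : 0 < x) : HasDerivAt rb (4 * x * ra x) x := by
  have h := sv_deriv (EF_B 1 le_rfl) hx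
  rw [DB 1 le_rfl] at h
  refine h.congr_deriv ?_
  have e : sv (C (4 * ((1 : ℕ) : ℚ) ^ 2) * X ^ 2 * SA 1 1) x = 4 * x ^ 2 * ra x := by
    rw [mul_assoc, sv_C_mul, ra, sv, sv, ← tsum_mul_left (a := 4 * x ^ 2)]
    have hs : Summable fun k : ℕ => ((coeff k (X ^ 2 * SA 1 1) : ℚ) : ℝ) * x ^ k := by
      rw [← summable_nat_add_iff 2]
      refine ((sv_summable (EF_A 1 le_rfl) x).mul_left (x ^ 2)).congr fun k => ?_
      rw [coeff_X_pow_mul', if_pos (by omega), Nat.add_sub_cancel, pow_add]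
      ring
    rw [← hs.sum_add_tsum_nat_add 2, Finset.sum_range_succ, Finset.sum_range_one]
    have e0 : coeff 0 (X ^ 2 * SA 1 1) = 0 := by rw [coeff_X_pow_mul', if_neg (by omega)]
    have e1 : coeff 1 (X ^ 2 * SA 1 1) = 0 := by rw [coeff_X_pow_mul', if_neg (by omega)]
    rw [e0, e1]
    simp only [Rat.cast_zero, zero_mul, add_zero, zero_add, mul_zero]
    rw [← tsum_mul_left]
    refine tsum_congr fun k => ?_
    rw [coeff_X_pow_mul', if_pos (by omega), Nat.add_sub_cancel, pow_add]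
    push_cast
    ring
  rw [e]
  field_simp

lemma rh_deriv {x : ℝ} (hx : 0 < x) : HasDerivAt rh ((rg x + ra x) / x) x := by
  have h := sv_deriv (EF_H 1 le_rfl) hx
  rw [DH, Nat.cast_one, one_mul, sv_add (EF_G 1 le_rfl) (EF_A 1 le_rfl)] at h
  exact h

lemma rrel {x : ℝ} (hx : 0 < x) : ra x * rg x = rh x * rb x - 1 := by
  have h := rel 1 (le_refl 1)
  have h1 : SA 1 1 * SG 1 1 = SH 1 1 * SB 1 1 + C (-1) := by
    rw [h, map_neg, map_one, Nat.cast_one]; ring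
  rw [ra, rg, rh, rb, ← sv_mul (EF_A 1 le_rfl) (EF_G 1 le_rfl) hx, h1, sv_add, sv_C,
    sv_mul (EF_H 1 le_rfl) (EF_B 1 le_rfl) hx]
  · push_cast; ring
  · exact (EF_H 1 le_rfl).mul (EF_B 1 le_rfl)
  · have := EF_int (-1)
    simpa using this

lemma ca_nonneg (m q k : ℕ) : 0 ≤ ca m q k := by
  rw [ca]
  split_ifs
  · positivity
  · exact le_rfl

lemma ra_ge {x : ℝ} (hx : 0 < x) : 1 ≤ ra x := by
  rw [ra, sv]
  have hs := sv_summable (EF_A 1 le_rfl) x
  have h := hs.le_tsum 0 (fun k _ => by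
    rw [SA, coeff_mk]
    exact mul_nonneg (by exact_mod_cast ca_nonneg 1 1 k) (by positivity))
  rw [coeff_zero_eq_constantCoeff_apply, cc_A] at h
  simpa using h

lemma ra_lim : Tendsto ra (𝓝[>] 0) (𝓝 1) := by
  have h := sv_continuous (EF_A 1 le_rfl)
  rw [cc_A] at h
  show Tendsto (sv (SA 1 1)) (𝓝[>] 0) (𝓝 1)
  simpa using h

lemma rh_lim : Tendsto rh (𝓝[>] 0) (𝓝 0) := by
  have h := sv_continuous (EF_H 1 le_rfl)
  have e : constantCoeff (SH 1 1) = 0 := by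
    rw [← coeff_zero_eq_constantCoeff_apply, SH, coeff_mk]; simp
  rw [e] at h
  show Tendsto (sv (SH 1 1)) (𝓝[>] 0) (𝓝 0)
  simpa using h

/-- the bound near `0` -/
lemma sv_bound {f : ℚ⟦X⟧} (hf : EF f) : ∃ C : ℝ, ∀ x : ℝ, 0 < x → x ≤ 1 →
    |sv f x - (constantCoeff f : ℚ)| ≤ C * x := by
  obtain ⟨C, hC, h1⟩ := coeff_bound hf
  refine ⟨∑' k : ℕ, C ^ 2 * (C ^ k / (k.factorial : ℝ)), fun x hx hx1 => ?_⟩
  have hs : Summable (fun k : ℕ => C ^ 2 * (C ^ k / (k.factorial : ℝ))) :=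
    (Real.summable_pow_div_factorial C).mul_left _
  have e : sv f x - (constantCoeff f : ℚ) = ∑' k : ℕ, ((coeff (k + 1) f : ℚ) : ℝ) * x ^ (k + 1) := by
    rw [sv, (sv_summable hf x).tsum_eq_zero_add]
    simp
  rw [← tsum_mul_right, ← Real.norm_eq_abs, e]
  refine tsum_of_norm_bounded (hs.mul_right x).hasSum fun k => ?_
  rw [norm_mul, norm_pow, Real.norm_eq_abs, Real.norm_eq_abs, abs_of_pos hx]
  calc |((coeff (k + 1) f : ℚ) : ℝ)| * x ^ (k + 1) ≤ (C ^ (k + 1 + 1) / (k + 1).factorial) * x := by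
        refine mul_le_mul (h1 _) ?_ (by positivity) (by positivity)
        exact pow_le_of_le_one hx.le hx1 (by omega)
    _ ≤ (C ^ (k + 1 + 1) / k.factorial) * x := by
        refine mul_le_mul_of_nonneg_right ?_ hx.le
        refine div_le_div_of_nonneg_left (by positivity) (by positivity) ?_
        exact_mod_cast Nat.factorial_le (Nat.le_succ k)
    _ = _ := by rw [pow_succ C (k + 1), pow_succ C k]; ring

lemma rb_bound : ∃ C : ℝ, ∀ x : ℝ, 0 < x → x ≤ 1 → |rb x| ≤ C * x := by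
  obtain ⟨C, hC⟩ := sv_bound (EF_B 1 le_rfl)
  refine ⟨C, fun x hx hx1 => ?_⟩
  have h := hC x hx hx1
  have e : constantCoeff (SB 1 1) = 0 := by
    rw [← coeff_zero_eq_constantCoeff_apply, SB, coeff_D]; simp
  rw [e] at h
  rw [rb]
  simpa using h

lemma ra_bound : ∃ C : ℝ, ∀ x : ℝ, 0 < x → x ≤ 1 → |ra x - 1| ≤ C * x := by
  obtain ⟨C, hC⟩ := sv_bound (EF_A 1 le_rfl)
  refine ⟨C, fun x hx hx1 => ?_⟩
  have h := hC x hx hx1
  rw [cc_A] at h
  rw [ra]
  simpa using h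

end Pool.Agent.J6H23.Bes
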