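import Pool.Agent.J6H23.Bes.Fun
import Pool.Agent.J6H23.Bes.Ind

/-!
# The differential system of the monomials in `A, B, H, G`
-/

set_option autoImplicit false

open PowerSeries

namespace Pool.Agent.J6H23.Bes

open Pool.Agent.R352.E Pool.Agent.Y113

/-- the monomials in normal form -/
noncomputable def nm {R : Type*} [CommRing R] (A B H G : R) (n : ℤ × ℕ × ℕ) : R :=
  A ^ n.1.toNat * B ^ n.2.1 * H ^ n.2.2 * G ^ (-n.1).toNat

/-- their index set -/
abbrev Nx (D : ℕ) : Type := {n : ℤ × ℕ × ℕ // n.1.natAbs + n.2.1 + n.2.2 ≤ D}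

lemma Nx_finite (D : ℕ) : Finite (Nx D) := by
  have h : {n : ℤ × ℕ × ℕ | n.1.natAbs + n.2.1 + n.2.2 ≤ D}.Finite := by
    apply ((Set.finite_Icc (-(D : ℤ)) D).prod ((Set.finite_Iic D).prod (Set.finite_Iic D))).subset
    rintro ⟨a, b, c⟩ h
    simp only [Set.mem_ofPred_eq] at h
    simp only [Set.mem_prod, Set.mem_Icc, Set.mem_Iic]
    omega
  exact h.to_subtype

section

variable {A B H G : ℚ⟦X⟧} {q : ℕ} {κ : Polynomial ℤ}

lemma Sp_nat {ι : Type} [Fintype ι] {y : ι → ℚ⟦X⟧} {g : ℚ⟦X⟧} (a : ℕ) (h : a ≠ 0 → Sp y g) :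
    Sp y ((a : ℚ⟦X⟧) * g) := by
  by_cases ha : a = 0
  · rw [ha, Nat.cast_zero, zero_mul]; exact Sp.zero
  · have := Sp.mul (Polynomial.C (a : ℤ)) (h ha)
    rw [ps_C] at this
    exact_mod_cast this

lemma red (hrel : A * G = H * B - (q : ℚ⟦X⟧)) (D : ℕ) [Fintype (Nx D)] : ∀ e a b c : ℕ, a + b + c + e ≤ D →
    Sp (fun n : Nx D => nm A B H G n.1) (A ^ a * B ^ b * H ^ c * G ^ e) := by
  intro e
  induction e with
  | zero =>
    intro a b c h
    have h1 := Sp.mem (y := fun n : Nx D => nm A B H G n.1) ⟨((a : ℤ), b, c), by simp only [Int.natAbs_natCast]; omega⟩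
    have e1 : nm A B H G ((a : ℤ), b, c) = A ^ a * B ^ b * H ^ c * G ^ 0 := by
      simp only [nm]
      have h2 : (-(a : ℤ)).toNat = 0 := by omega
      rw [h2, Int.toNat_natCast]
    simp only [e1] at h1
    exact h1
  | succ e ih =>
    intro a b c h
    rcases a with _ | a
    · have h1 := Sp.mem (y := fun n : Nx D => nm A B H G n.1) ⟨(-((e + 1 : ℕ) : ℤ), b, c), by
        simp only [Int.natAbs_neg, Int.natAbs_natCast]; omega⟩
      have e1 : nm A B H G (-((e + 1 : ℕ) : ℤ), b, c) = A ^ 0 * B ^ b * H ^ c * G ^ (e + 1) := by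
        simp only [nm]
        have h2 : (-((e + 1 : ℕ) : ℤ)).toNat = 0 := by omega
        have h3 : (-(-((e + 1 : ℕ) : ℤ))).toNat = e + 1 := by omega
        rw [h2, h3]
      simp only [e1] at h1
      exact h1
    · have e1 : A ^ (a + 1) * B ^ b * H ^ c * G ^ (e + 1) = A ^ a * B ^ (b + 1) * H ^ (c + 1) * G ^ e +
          ps (Polynomial.C (-(q : ℤ))) * (A ^ a * B ^ b * H ^ c * G ^ e) := by
        rw [ps_C]
        push_cast
        have e2 : A ^ (a + 1) * B ^ b * H ^ c * G ^ (e + 1) = A ^ a * B ^ b * H ^ c * G ^ e * (A * G) := by ring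
        rw [e2, hrel]
        ring
      rw [e1]
      exact (ih a (b + 1) (c + 1) (by omega)).add ((ih a b c (by omega)).mul _)

lemma D_pow (g : ℚ⟦X⟧) (n : ℕ) : (TQ q : ℚ⟦X⟧) * d⁄dX ℚ (g ^ n) = (n : ℚ⟦X⟧) * g ^ (n - 1) * ((TQ q : ℚ⟦X⟧) * d⁄dX ℚ g) := by
  rw [Derivation.leibniz_pow, smul_eq_mul, nsmul_eq_mul]
  ring

lemma D_mul (g h : ℚ⟦X⟧) : (TQ q : ℚ⟦X⟧) * d⁄dX ℚ (g * h) =
    ((TQ q : ℚ⟦X⟧) * d⁄dX ℚ g) * h + g * ((TQ q : ℚ⟦X⟧) * d⁄dX ℚ h) := by
  rw [Derivation.leibniz, smul_eq_mul, smul_eq_mul]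
  ring

/-- the derivative of a monomial -/
lemma D_mono (hA : (TQ q : ℚ⟦X⟧) * d⁄dX ℚ A = B) (hB : (TQ q : ℚ⟦X⟧) * d⁄dX ℚ B = ps κ * A)
    (hH : (TQ q : ℚ⟦X⟧) * d⁄dX ℚ H = G + (q : ℚ⟦X⟧) * A)
    (hG : (TQ q : ℚ⟦X⟧) * d⁄dX ℚ G = ps κ * H + (q : ℚ⟦X⟧) * B) (a b c e : ℕ) :
    (TQ q : ℚ⟦X⟧) * d⁄dX ℚ (A ^ a * B ^ b * H ^ c * G ^ e) =
      (a : ℚ⟦X⟧) * (A ^ (a - 1) * B ^ (b + 1) * H ^ c * G ^ e) +
      (b : ℚ⟦X⟧) * (ps κ * (A ^ (a + 1) * B ^ (b - 1) * H ^ c * G ^ e)) +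
      (c : ℚ⟦X⟧) * (A ^ a * B ^ b * H ^ (c - 1) * G ^ (e + 1) +
        (q : ℚ⟦X⟧) * (A ^ (a + 1) * B ^ b * H ^ (c - 1) * G ^ e)) +
      (e : ℚ⟦X⟧) * (ps κ * (A ^ a * B ^ b * H ^ (c + 1) * G ^ (e - 1)) +
        (q : ℚ⟦X⟧) * (A ^ a * B ^ (b + 1) * H ^ c * G ^ (e - 1))) := by
  rw [D_mul, D_mul, D_mul, D_pow, D_pow, D_pow, D_pow, hA, hB, hH, hG]
  ring

/-- the monomials form a differential system -/
theorem nm_Sp (hA : (TQ q : ℚ⟦X⟧) * d⁄dX ℚ A = B) (hB : (TQ q : ℚ⟦X⟧) * d⁄dX ℚ B = ps κ * A)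
    (hH : (TQ q : ℚ⟦X⟧) * d⁄dX ℚ H = G + (q : ℚ⟦X⟧) * A)
    (hG : (TQ q : ℚ⟦X⟧) * d⁄dX ℚ G = ps κ * H + (q : ℚ⟦X⟧) * B)
    (hrel : A * G = H * B - (q : ℚ⟦X⟧)) (D : ℕ) [Fintype (Nx D)] (n : Nx D) :
    Sp (fun n : Nx D => nm A B H G n.1) ((TQ q : ℚ⟦X⟧) * d⁄dX ℚ (nm A B H G n.1)) := by
  obtain ⟨⟨j, b, c⟩, hn⟩ := n
  simp only at hn
  simp only [nm]
  rw [D_mono hA hB hH hG]
  have hr := red (B := B) (H := H) hrel D
  have hq : ∀ g : ℚ⟦X⟧, Sp (fun n : Nx D => nm A B H G n.1) g →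
      Sp (fun n : Nx D => nm A B H G n.1) ((q : ℚ⟦X⟧) * g) := fun g hg => Sp_nat q fun _ => hg
  refine Sp.add (Sp.add (Sp.add ?_ ?_) ?_) ?_
  · exact Sp_nat _ fun h => hr _ _ _ _ (by omega)
  · exact Sp_nat _ fun h => (hr _ _ _ _ (by omega)).mul _
  · exact Sp_nat _ fun h => (hr _ _ _ _ (by omega)).add (hq _ (hr _ _ _ _ (by omega)))
  · exact Sp_nat _ fun h => ((hr _ _ _ _ (by omega)).mul _).add (hq _ (hr _ _ _ _ (by omega)))

end

section Prod

variable {ι κ : Type} [Fintype ι] [Fintype κ] {y : ι → ℚ⟦X⟧} {w : κ → ℚ⟦X⟧}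

lemma Sp_left {g : ℚ⟦X⟧} (hg : Sp y g) (k : κ) : Sp (fun p : ι × κ => y p.1 * w p.2) (g * w k) := by
  classical
  obtain ⟨c, hc⟩ := hg
  refine ⟨fun p => if p.2 = k then c p.1 else 0, ?_⟩
  rw [hc, Finset.sum_mul, Fintype.sum_prod_type]
  refine Finset.sum_congr rfl fun i _ => ?_
  rw [Finset.sum_eq_single k]
  · simp only [if_true]; ring
  · intro b _ hb
    simp only [if_neg hb, ps_zero, zero_mul]
  · intro h; exact absurd (Finset.mem_univ k) h

lemma Sp_right {g : ℚ⟦X⟧} (hg : Sp w g) (i : ι) : Sp (fun p : ι × κ => y p.1 * w p.2) (y i * g) := by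
  classical
  obtain ⟨c, hc⟩ := hg
  refine ⟨fun p => if p.1 = i then c p.2 else 0, ?_⟩
  rw [hc, Finset.mul_sum, Fintype.sum_prod_type, Finset.sum_eq_single i]
  · refine Finset.sum_congr rfl fun k _ => ?_
    simp only [if_true]; ring
  · intro b _ hb
    refine Finset.sum_eq_zero fun k _ => ?_
    simp only [if_neg hb, ps_zero, zero_mul]
  · intro h; exact absurd (Finset.mem_univ i) h

end Prod

section LI

variable {K L : Type*} [Field K] [Field L] [Algebra K L] {A B H G q : L}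

/-- linear independence of the monomials in normal form -/
theorem nm_LI (hind : AlgebraicIndependent K (fun o : Option (Fin 2) => o.elim A ![B, H]))
    (hrel : A * G = H * B - q) (hG : G ≠ 0) {q' : K} (hq' : algebraMap K L q' = q) (D : ℕ) [Fintype (Nx D)] :
    LinearIndependent K (fun n : Nx D => nm A B H G n.1) := by
  classical
  rw [Fintype.linearIndependent_iff]
  intro c hc
  obtain ⟨hBH, htr⟩ := AlgebraicIndependent.option_iff.1 hind
  have hA0 : A ≠ 0 := hind.ne_zero none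
  -- the coefficients with respect to `A`
  have hmem : ∀ n : Nx D, algebraMap K L (c n) * B ^ n.1.2.1 * H ^ n.1.2.2 * (H * B - q) ^ (-n.1.1).toNat ∈
      Algebra.adjoin K (Set.range ![B, H]) := by
    intro n
    have hB : B ∈ Algebra.adjoin K (Set.range ![B, H]) := Algebra.subset_adjoin ⟨0, rfl⟩
    have hH : H ∈ Algebra.adjoin K (Set.range ![B, H]) := Algebra.subset_adjoin ⟨1, rfl⟩
    have hqm : q ∈ Algebra.adjoin K (Set.range ![B, H]) := by
      rw [← hq']; exact (Algebra.adjoin K _).algebraMap_mem q'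
    exact mul_mem (mul_mem (mul_mem ((Algebra.adjoin K _).algebraMap_mem _) (pow_mem hB _)) (pow_mem hH _))
      (pow_mem (sub_mem (mul_mem hH hB) hqm) _)
  set w : Nx D → Algebra.adjoin K (Set.range ![B, H]) := fun n => ⟨_, hmem n⟩ with hw
  set p : Polynomial (Algebra.adjoin K (Set.range ![B, H])) :=
    ∑ n : Nx D, Polynomial.C (w n) * Polynomial.X ^ (D + n.1.1).toNat with hp
  have hnat : ∀ n : Nx D, n.1.1.toNat + D = (D + n.1.1).toNat + (-n.1.1).toNat := by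
    intro n
    have := n.2
    omega
  have hp0 : Polynomial.aeval A p = 0 := by
    rw [hp, map_sum]
    have h1 : ∀ n : Nx D, Polynomial.aeval A (Polynomial.C (w n) * Polynomial.X ^ (D + n.1.1).toNat) =
        A ^ D * (c n • nm A B H G n.1) := by
      intro n
      rw [map_mul, Polynomial.aeval_C, map_pow, Polynomial.aeval_X, Algebra.smul_def]
      show (algebraMap K L (c n) * B ^ n.1.2.1 * H ^ n.1.2.2 * (H * B - q) ^ (-n.1.1).toNat) * A ^ (D + n.1.1).toNat = _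
      have h2 := hnat n
      rw [← hrel, nm, mul_pow]
      have h3 : A ^ n.1.1.toNat * A ^ D = A ^ (D + n.1.1).toNat * A ^ (-n.1.1).toNat := by
        rw [← pow_add, ← pow_add, h2]
      linear_combination -(algebraMap K L (c n) * B ^ n.1.2.1 * H ^ n.1.2.2 * G ^ (-n.1.1).toNat) * h3
    rw [Finset.sum_congr rfl fun n _ => h1 n, ← Finset.mul_sum, hc, mul_zero]
  have hpz : p = 0 := by
    by_contra hne
    exact htr ⟨p, hne, hp0⟩
  -- the coefficients of `p`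
  have hj : ∀ j : ℤ, ∑ n ∈ Finset.univ.filter (fun n : Nx D => n.1.1 = j), algebraMap K L (c n) * B ^ n.1.2.1 *
      H ^ n.1.2.2 = 0 := by
    intro j
    by_cases hjD : j.natAbs ≤ D
    · have h1 := congrArg (fun f : Polynomial (Algebra.adjoin K (Set.range ![B, H])) =>
        ((f.coeff (D + j).toNat : Algebra.adjoin K (Set.range ![B, H])) : L)) hpz
      simp only [hp, Polynomial.finset_sum_coeff, Polynomial.coeff_C_mul, Polynomial.coeff_X_pow,
        Polynomial.coeff_zero] at h1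
      have h2 : ∀ n : Nx D, (w n * (if (D + j).toNat = (D + n.1.1).toNat then 1 else 0) :
          Algebra.adjoin K (Set.range ![B, H])) = if n.1.1 = j then w n else 0 := by
        intro n
        have h3 := n.2
        by_cases h4 : n.1.1 = j
        · rw [if_pos (by rw [h4]), if_pos h4, mul_one]
        · rw [if_neg (by omega), if_neg h4, mul_zero]
      rw [Finset.sum_congr rfl fun n _ => h2 n, ← Finset.sum_filter] at h1
      have h5 : ((∑ n ∈ Finset.univ.filter (fun n : Nx D => n.1.1 = j), w n :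
          Algebra.adjoin K (Set.range ![B, H])) : L) = (A * G) ^ (-j).toNat *
            ∑ n ∈ Finset.univ.filter (fun n : Nx D => n.1.1 = j), algebraMap K L (c n) * B ^ n.1.2.1 *
              H ^ n.1.2.2 := by
        rw [AddSubmonoidClass.coe_finset_sum, Finset.mul_sum]
        refine Finset.sum_congr rfl fun n hn => ?_
        have hn' := (Finset.mem_filter.1 hn).2
        show algebraMap K L (c n) * B ^ n.1.2.1 * H ^ n.1.2.2 * (H * B - q) ^ (-n.1.1).toNat = _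
        rw [hn', hrel]
        ring
      rw [h5] at h1
      refine (mul_eq_zero.1 h1).resolve_left (pow_ne_zero _ (mul_ne_zero hA0 hG))
    · refine Finset.sum_eq_zero fun n hn => ?_
      have hn' := (Finset.mem_filter.1 hn).2
      have := n.2
      omega
  intro n₀
  have h1 : MvPolynomial.aeval ![B, H] (∑ n ∈ Finset.univ.filter (fun n : Nx D => n.1.1 = n₀.1.1),
      MvPolynomial.monomial (Finsupp.single 0 n.1.2.1 + Finsupp.single 1 n.1.2.2 : Fin 2 →₀ ℕ) (c n)) = 0 := by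
    rw [map_sum, ← hj n₀.1.1]
    refine Finset.sum_congr rfl fun n _ => ?_
    rw [MvPolynomial.aeval_monomial, Finsupp.prod_fintype _ _ (fun i => pow_zero _), Fin.prod_univ_two]
    simp [Finsupp.single_apply]
    ring
  have h2 := hBH.eq_zero_of_aeval_eq_zero _ h1
  have h3 := congrArg (MvPolynomial.coeff (Finsupp.single 0 n₀.1.2.1 + Finsupp.single 1 n₀.1.2.2)) h2
  rw [MvPolynomial.coeff_sum, MvPolynomial.coeff_zero, Finset.sum_eq_single n₀] at h3
  · rw [MvPolynomial.coeff_monomial, if_pos rfl] at h3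
    exact h3
  · intro n hn hne
    rw [MvPolynomial.coeff_monomial, if_neg]
    intro h4
    apply hne
    have h5 := congrArg (fun g : Fin 2 →₀ ℕ => g 0) h4
    have h6 := congrArg (fun g : Fin 2 →₀ ℕ => g 1) h4
    simp [Finsupp.single_apply] at h5 h6
    exact Subtype.ext (Prod.ext (Finset.mem_filter.1 hn).2 (Prod.ext h5 h6))
  · intro h
    rw [Finset.mem_filter] at h
    exact absurd ⟨Finset.mem_univ _, rfl⟩ h

end LI

end Pool.Agent.J6H23.Bes
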